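import Pool.Agent.H.MP_e11395_an.Cone

/-!
# MP_e11395: nuclear data (interface between part A and part B)
-/

set_option autoImplicit false

namespace Pool.Agent.H.MP_e11395_an

variable {d : ℕ → ℕ} {B B' H : Type} [CStarAlgebra B] [CStarAlgebra B']
  [NormedAddCommGroup H] [InnerProductSpace ℂ H] [CompleteSpace H]

/-- `B → B'` is the point-norm limit of maps factoring through matrix algebras: compressions of
the representation `π'` of `B'`, followed by unital completely positive maps into `B'`. -/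
def NucData {C : ConeAlg d B} {C' : ConeAlg d B'} (J : C.Hom C') (π' : B' →⋆ₐ[ℂ] (H →L[ℂ] H)) :
    Prop :=
  ∀ (S : Finset B) (ε : ℝ), 0 < ε → ∃ (N : ℕ) (v : Fin N → H)
    (β : Matrix (Fin N) (Fin N) ℂ →ₗ[ℂ] B'), Orthonormal ℂ v ∧ IsCP β ∧ β 1 = 1 ∧
    ∀ b ∈ S, ‖β (Matrix.of fun s t => inner ℂ (v s) (π' (J.j b) (v t))) - J.j b‖ < ε

end Pool.Agent.H.MP_e11395_an
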