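import Mathlib

/-!
# MP_e11395, part B: diagonal operators and direct sums of representations on `ℓ²(X; H)`
-/

set_option autoImplicit false
set_option linter.unusedSectionVars false

open scoped ENNReal InnerProductSpace

namespace Pool.Agent.H.MP_e11395_an.PB

section Diag

variable {X H : Type} [NormedAddCommGroup H] [InnerProductSpace ℂ H]

theorem memlp_dg (T : X → H →L[ℂ] H) {C : ℝ} (hT : ∀ x, ‖T x‖ ≤ C)
    (v : lp (fun _ : X => H) 2) : Memℓp (fun x => T x (v x)) 2 := by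
  have hv := lp.memℓp v
  rw [memℓp_gen_iff (by norm_num)] at hv ⊢
  refine Summable.of_nonneg_of_le (fun x => by positivity) (fun x => ?_)
    (hv.mul_left ((max C 0) ^ (2 : ℝ≥0∞).toReal))
  rw [← Real.mul_rpow (le_max_right _ _) (norm_nonneg _)]
  refine Real.rpow_le_rpow (norm_nonneg _) ?_ (by norm_num)
  exact ((T x).le_opNorm _).trans
    (mul_le_mul_of_nonneg_right ((hT x).trans (le_max_left _ _)) (norm_nonneg _))

theorem norm_sq_lp (v : lp (fun _ : X => H) 2) : ‖v‖ ^ 2 = ∑' x, ‖v x‖ ^ 2 := by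
  have h := lp.norm_rpow_eq_tsum (p := 2) (by norm_num) v
  simpa using h

theorem summable_sq_lp (v : lp (fun _ : X => H) 2) : Summable fun x => ‖v x‖ ^ 2 := by
  have hv := lp.memℓp v
  rw [memℓp_gen_iff (by norm_num)] at hv
  simpa using hv

/-- The linear map `v ↦ (T x (v x))ₓ`. -/
noncomputable def dgLin (T : X → H →L[ℂ] H) {C : ℝ} (hT : ∀ x, ‖T x‖ ≤ C) :
    lp (fun _ : X => H) 2 →ₗ[ℂ] lp (fun _ : X => H) 2 where
  toFun v := ⟨fun x => T x (v x), memlp_dg T hT v⟩
  map_add' v w := by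
    ext x
    change T x (v x + w x) = T x (v x) + T x (w x)
    exact map_add _ _ _
  map_smul' c v := by
    ext x
    change T x (c • v x) = c • T x (v x)
    exact map_smul _ _ _

theorem norm_dgLin_le (T : X → H →L[ℂ] H) {C : ℝ} (hT : ∀ x, ‖T x‖ ≤ C) (hC : 0 ≤ C)
    (v : lp (fun _ : X => H) 2) : ‖dgLin T hT v‖ ≤ C * ‖v‖ := by
  have h1 : ‖dgLin T hT v‖ ^ 2 ≤ (C * ‖v‖) ^ 2 := by
    rw [norm_sq_lp, mul_pow, norm_sq_lp, ← tsum_mul_left]
    refine Summable.tsum_le_tsum (fun x => ?_) (summable_sq_lp _) ((summable_sq_lp v).mul_left _)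
    rw [← mul_pow]
    refine pow_le_pow_left₀ (norm_nonneg _) ?_ 2
    change ‖T x (v x)‖ ≤ _
    exact ((T x).le_opNorm _).trans (mul_le_mul_of_nonneg_right (hT x) (norm_nonneg _))
  exact le_of_sq_le_sq h1 (by positivity) |> fun h => h

/-- The diagonal operator of a bounded family of operators (`0` if the family is unbounded). -/
noncomputable def dg (T : X → H →L[ℂ] H) : lp (fun _ : X => H) 2 →L[ℂ] lp (fun _ : X => H) 2 :=
  open scoped Classical in
  if h : ∃ C, ∀ x, ‖T x‖ ≤ C then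
    (dgLin T h.choose_spec).mkContinuous (max h.choose 0) (fun v => by
      exact norm_dgLin_le T (fun x => (h.choose_spec x).trans (le_max_left _ _)) (le_max_right _ _) v)
  else 0

theorem dg_apply {T : X → H →L[ℂ] H} {C : ℝ} (hT : ∀ x, ‖T x‖ ≤ C) (v : lp (fun _ : X => H) 2)
    (x : X) : dg T v x = T x (v x) := by
  have h : ∃ C, ∀ x, ‖T x‖ ≤ C := ⟨C, hT⟩
  rw [dg, dif_pos h]
  rfl

theorem norm_dg_le {T : X → H →L[ℂ] H} {C : ℝ} (hC : 0 ≤ C) (hT : ∀ x, ‖T x‖ ≤ C) :
    ‖dg T‖ ≤ C := by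
  refine ContinuousLinearMap.opNorm_le_bound _ hC fun v => ?_
  have : dg T v = dgLin T hT v := by
    ext x
    rw [dg_apply hT]
    rfl
  rw [this]
  exact norm_dgLin_le T hT hC v

theorem ext_lp {v w : lp (fun _ : X => H) 2} (h : ∀ x, v x = w x) : v = w := by
  ext x
  exact h x

theorem ext_op {S T : lp (fun _ : X => H) 2 →L[ℂ] lp (fun _ : X => H) 2}
    (h : ∀ v x, S v x = T v x) : S = T := by
  ext1 v
  exact ext_lp (h v)

theorem dg_mul {S T : X → H →L[ℂ] H} {C D : ℝ} (hS : ∀ x, ‖S x‖ ≤ C) (hT : ∀ x, ‖T x‖ ≤ D) :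
    dg (fun x => S x * T x) = dg S * dg T := by
  have hC : ∀ x, ‖S x * T x‖ ≤ max C 0 * max D 0 := fun x =>
    (norm_mul_le _ _).trans (mul_le_mul ((hS x).trans (le_max_left _ _))
      ((hT x).trans (le_max_left _ _)) (norm_nonneg _) (le_max_right _ _))
  refine ext_op fun v x => ?_
  rw [dg_apply hC]
  change _ = dg S (dg T v) x
  rw [dg_apply hS, dg_apply hT]
  rfl

theorem dg_add {S T : X → H →L[ℂ] H} {C D : ℝ} (hS : ∀ x, ‖S x‖ ≤ C) (hT : ∀ x, ‖T x‖ ≤ D) :
    dg (fun x => S x + T x) = dg S + dg T := by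
  have hC : ∀ x, ‖S x + T x‖ ≤ C + D := fun x =>
    (norm_add_le _ _).trans (add_le_add (hS x) (hT x))
  refine ext_op fun v x => ?_
  rw [dg_apply hC]
  change _ = dg S v x + dg T v x
  rw [dg_apply hS, dg_apply hT]
  rfl

theorem dg_smul (c : ℂ) {T : X → H →L[ℂ] H} {C : ℝ} (hT : ∀ x, ‖T x‖ ≤ C) :
    dg (fun x => c • T x) = c • dg T := by
  have hC : ∀ x, ‖c • T x‖ ≤ ‖c‖ * C := fun x => by
    rw [norm_smul]
    exact mul_le_mul_of_nonneg_left (hT x) (norm_nonneg _)
  refine ext_op fun v x => ?_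
  rw [dg_apply hC]
  change _ = c • dg T v x
  rw [dg_apply hT]
  rfl

theorem dg_zero : dg (fun _ : X => (0 : H →L[ℂ] H)) = 0 := by
  refine ext_op fun v x => ?_
  rw [dg_apply (C := 0) (by simp)]
  rfl

theorem dg_one : dg (fun _ : X => (1 : H →L[ℂ] H)) = 1 := by
  refine ext_op fun v x => ?_
  have h1 : ∀ _x : X, ‖(1 : H →L[ℂ] H)‖ ≤ 1 := fun _ => ContinuousLinearMap.norm_id_le
  rw [dg_apply h1]
  rfl

theorem dg_star [CompleteSpace H] {T : X → H →L[ℂ] H} {C : ℝ} (hT : ∀ x, ‖T x‖ ≤ C) :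
    dg (fun x => star (T x)) = star (dg T) := by
  have hC : ∀ x, ‖star (T x)‖ ≤ C := fun x => by rw [norm_star]; exact hT x
  rw [ContinuousLinearMap.star_eq_adjoint, ContinuousLinearMap.eq_adjoint_iff]
  intro v w
  rw [lp.inner_eq_tsum, lp.inner_eq_tsum]
  refine tsum_congr fun x => ?_
  rw [dg_apply hC, dg_apply hT, ContinuousLinearMap.star_eq_adjoint,
    ContinuousLinearMap.adjoint_inner_left]

end Diag

section Sum

variable {X H C : Type} [NormedAddCommGroup H] [InnerProductSpace ℂ H] [CompleteSpace H]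
  [CStarAlgebra C]

theorem norm_rep_le (π : C →⋆ₐ[ℂ] (H →L[ℂ] H)) (c : C) : ‖π c‖ ≤ ‖c‖ :=
  NonUnitalStarAlgHom.norm_apply_le π c

/-- The direct sum on `ℓ²(X; H)` of representations on `H`. -/
noncomputable def sumRep (π : X → (C →⋆ₐ[ℂ] (H →L[ℂ] H))) :
    C →⋆ₐ[ℂ] (lp (fun _ : X => H) 2 →L[ℂ] lp (fun _ : X => H) 2) where
  toFun c := dg fun x => π x c
  map_one' := by simp only [map_one]; exact dg_one
  map_mul' a b := by
    simp only [map_mul]
    exact dg_mul (fun x => norm_rep_le (π x) a) (fun x => norm_rep_le (π x) b)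
  map_zero' := by simp only [map_zero]; exact dg_zero
  map_add' a b := by
    simp only [map_add]
    exact dg_add (fun x => norm_rep_le (π x) a) (fun x => norm_rep_le (π x) b)
  commutes' r := by
    have h1 : ∀ _x : X, ‖(1 : H →L[ℂ] H)‖ ≤ 1 := fun _ => ContinuousLinearMap.norm_id_le
    simp only [Algebra.algebraMap_eq_smul_one, map_smul, map_one]
    rw [dg_smul r h1, dg_one]
  map_star' a := by
    simp only [map_star]
    exact dg_star (fun x => norm_rep_le (π x) a)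

theorem sumRep_apply (π : X → (C →⋆ₐ[ℂ] (H →L[ℂ] H))) (c : C) (v : lp (fun _ : X => H) 2) (x : X) :
    sumRep π c v x = π x c (v x) :=
  dg_apply (fun x => norm_rep_le (π x) c) v x

theorem sumRep_injective (π : X → (C →⋆ₐ[ℂ] (H →L[ℂ] H))) (h : ∀ c, (∀ x, π x c = 0) → c = 0) :
    Function.Injective (sumRep π) := by
  classical
  rw [injective_iff_map_eq_zero]
  intro c hc
  refine h c fun x => ?_
  ext1 v
  have h1 := sumRep_apply π c (lp.single 2 x v) x
  rw [hc] at h1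
  simpa using h1.symm

end Sum

end Pool.Agent.H.MP_e11395_an.PB
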