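import Pool.Agent.H.MP_e11395_an.B.CPb

/-!
# MP_e11395, part B: the completely positive map to the matrix valued functions
-/

set_option autoImplicit false
set_option linter.unusedSectionVars false

open Filter Topology

open scoped InnerProductSpace ENNReal CStarAlgebra

namespace Pool.Agent.H.MP_e11395_an.PB

section beta

variable {B' : Type} [CStarAlgebra B'] {M r N n : ℕ}

/-- The map `X ↦ (t ↦ ∑ l, χ_l(t) β(block l of X))`, for a bijection
`e : Fin M × (Fin r × Fin N) ≃ Fin n`. -/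
noncomputable def beta (χ : Fin M → C(unitInterval, ℝ))
    (β : Matrix (Fin N) (Fin N) ℂ →ₗ[ℂ] B') (e : Fin M × (Fin r × Fin N) ≃ Fin n) :
    Matrix (Fin n) (Fin n) ℂ →ₗ[ℂ] C(unitInterval, Mt (Fin r) B') where
  toFun X := ⟨fun t => Mt.of fun i i' => ∑ l, (χ l t : ℂ) •
    β (Matrix.of fun s s' => X (e (l, (i, s))) (e (l, (i', s')))), by
      rw [Mt.continuous_iff]
      intro i i'
      simp only [Mt.of_apply]
      refine continuous_finsetSum _ fun l _ => ?_
      exact (Complex.continuous_ofReal.comp (χ l).continuous).smul continuous_const⟩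
  map_add' X Y := by
    ext t i i'
    change ∑ l, (χ l t : ℂ) • β (Matrix.of fun s s' => X (e (l, (i, s))) (e (l, (i', s'))) +
      Y (e (l, (i, s))) (e (l, (i', s')))) =
      ∑ l, (χ l t : ℂ) • β (Matrix.of fun s s' => X (e (l, (i, s))) (e (l, (i', s')))) +
      ∑ l, (χ l t : ℂ) • β (Matrix.of fun s s' => Y (e (l, (i, s))) (e (l, (i', s'))))
    rw [← Finset.sum_add_distrib]
    refine Finset.sum_congr rfl fun l _ => ?_
    rw [← smul_add, ← map_add]
    rfl
  map_smul' c X := by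
    ext t i i'
    change ∑ l, (χ l t : ℂ) • β (Matrix.of fun s s' => c • X (e (l, (i, s))) (e (l, (i', s')))) =
      c • ∑ l, (χ l t : ℂ) • β (Matrix.of fun s s' => X (e (l, (i, s))) (e (l, (i', s'))))
    rw [Finset.smul_sum]
    refine Finset.sum_congr rfl fun l _ => ?_
    rw [smul_comm c, ← map_smul β c]
    rfl

theorem beta_apply (χ : Fin M → C(unitInterval, ℝ)) (β : Matrix (Fin N) (Fin N) ℂ →ₗ[ℂ] B')
    (e : Fin M × (Fin r × Fin N) ≃ Fin n) (X : Matrix (Fin n) (Fin n) ℂ) (t : unitInterval)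
    (i i' : Fin r) :
    beta χ β e X t i i' = ∑ l, (χ l t : ℂ) •
      β (Matrix.of fun s s' => X (e (l, (i, s))) (e (l, (i', s')))) := rfl

theorem beta_one (χ : Fin M → C(unitInterval, ℝ)) (hχ : ∀ t, ∑ l, χ l t = 1)
    (β : Matrix (Fin N) (Fin N) ℂ →ₗ[ℂ] B') (hβ : β 1 = 1)
    (e : Fin M × (Fin r × Fin N) ≃ Fin n) : beta χ β e 1 = 1 := by
  ext t i i'
  have h1 : ∀ l : Fin M, (Matrix.of fun s s' : Fin N =>
      (1 : Matrix (Fin n) (Fin n) ℂ) (e (l, (i, s))) (e (l, (i', s')))) =
      if i = i' then 1 else 0 := by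
    intro l
    ext s s'
    have h2 : (e (l, (i, s)) = e (l, (i', s'))) ↔ i = i' ∧ s = s' := by
      rw [e.injective.eq_iff]
      simp
    rw [Matrix.of_apply, Matrix.one_apply]
    by_cases hi : i = i'
    · rw [if_pos hi, Matrix.one_apply]
      by_cases hs : s = s'
      · rw [if_pos (h2.2 ⟨hi, hs⟩), if_pos hs]
      · rw [if_neg (fun h => hs (h2.1 h).2), if_neg hs]
    · rw [if_neg hi, if_neg (fun h => hi (h2.1 h).1)]
      rfl
  have h4 : (1 : C(unitInterval, Mt (Fin r) B')) t i i' = if i = i' then 1 else 0 :=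
    Mt.one_apply i i'
  have h5 : ∑ l, (χ l t : ℂ) = 1 := by
    rw [← Complex.ofReal_sum, hχ t, Complex.ofReal_one]
  rw [beta_apply, h4]
  simp only [h1]
  rw [← Finset.sum_smul, h5, one_smul]
  by_cases hi : i = i'
  · rw [if_pos hi, if_pos hi, hβ]
  · rw [if_neg hi, if_neg hi, map_zero]

/-- The block map. -/
noncomputable def Beta_blk (β : Matrix (Fin N) (Fin N) ℂ →ₗ[ℂ] B')
    (e : Fin M × (Fin r × Fin N) ≃ Fin n) (l : Fin M) :
    Matrix (Fin n) (Fin n) ℂ →ₗ[ℂ] Mt (Fin r) B' where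
  toFun X := Mt.of fun i i' => β (Matrix.of fun s s' => X (e (l, (i, s))) (e (l, (i', s'))))
  map_add' X Y := by
    ext i i'
    change β (Matrix.of fun s s' => X (e (l, (i, s))) (e (l, (i', s'))) +
      Y (e (l, (i, s))) (e (l, (i', s')))) =
      β (Matrix.of fun s s' => X (e (l, (i, s))) (e (l, (i', s')))) +
      β (Matrix.of fun s s' => Y (e (l, (i, s))) (e (l, (i', s'))))
    rw [← map_add]
    rfl
  map_smul' c X := by
    ext i i'
    change β (Matrix.of fun s s' => c • X (e (l, (i, s))) (e (l, (i', s')))) =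
      c • β (Matrix.of fun s s' => X (e (l, (i, s))) (e (l, (i', s'))))
    rw [← map_smul β c]
    rfl

/-- Constant functions. -/
noncomputable def Beta_const (D : Type) [CStarAlgebra D] : D →⋆ₐ[ℂ] C(unitInterval, D) where
  toFun x := ContinuousMap.const _ x
  map_one' := rfl
  map_mul' _ _ := rfl
  map_zero' := rfl
  map_add' _ _ := rfl
  commutes' _ := rfl
  map_star' _ := rfl

/-- The function `sqrt (χ) • 1`. -/
noncomputable def Beta_sqrt (D : Type) [CStarAlgebra D] (χ : C(unitInterval, ℝ)) :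
    C(unitInterval, D) :=
  ⟨fun t => (Real.sqrt (χ t) : ℂ) • (1 : D),
    (Complex.continuous_ofReal.comp (Real.continuous_sqrt.comp χ.continuous)).smul
      continuous_const⟩

/-- `beta` is completely positive. Proof: it is the sum over `l` of
`star c_l * ι(φ_l X) * c_l` with `c_l = sqrt (χ_l) • 1`, `φ_l` the block map (`isCP_block`) and
`ι : Mt (Fin r) B' →⋆ₐ C(I, Mt (Fin r) B')` the constant functions (`IsCP.of_hom`); use
`IsCP.comp`, `IsCP.conj`, `IsCP.sum`. -/
theorem isCP_beta (χ : Fin M → C(unitInterval, ℝ)) (hχ : ∀ l t, 0 ≤ χ l t)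
    (β : Matrix (Fin N) (Fin N) ℂ →ₗ[ℂ] B') (hβ : IsCP β)
    (e : Fin M × (Fin r × Fin N) ≃ Fin n) : IsCP (beta χ β e) := by
  have h1 : beta χ β e = ∑ l, (LinearMap.mulRight ℂ (Beta_sqrt (Mt (Fin r) B') (χ l))).comp
      ((LinearMap.mulLeft ℂ (star (Beta_sqrt (Mt (Fin r) B') (χ l)))).comp
        (((Beta_const (Mt (Fin r) B') : Mt (Fin r) B' →⋆ₐ[ℂ] _) :
          Mt (Fin r) B' →ₐ[ℂ] _).toLinearMap ∘ₗ Beta_blk β e l)) := by
    refine LinearMap.ext fun X => ?_
    refine ContinuousMap.ext fun t => ?_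
    have h2 : ∀ (s : Finset (Fin M)) (F : Fin M → C(unitInterval, Mt (Fin r) B')),
        (∑ l ∈ s, F l) t = ∑ l ∈ s, F l t := by
      intro s F
      induction s using Finset.induction_on with
      | empty => simp
      | insert a s ha ih =>
        rw [Finset.sum_insert ha, Finset.sum_insert ha, ContinuousMap.add_apply, ih]
    have h6 : ∀ (s : Finset (Fin M)) (F : Fin M → Mt (Fin r) B') (i i' : Fin r),
        (∑ l ∈ s, F l) i i' = ∑ l ∈ s, F l i i' := by
      intro s F i i'
      induction s using Finset.induction_on with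
      | empty => simp
      | insert a s ha ih => rw [Finset.sum_insert ha, Finset.sum_insert ha, Mt.add_apply, ih]
    rw [LinearMap.sum_apply, h2]
    ext i i'
    rw [beta_apply, h6]
    refine Finset.sum_congr rfl fun l _ => ?_
    have h3 : (Real.sqrt (χ l t) : ℂ) * (Real.sqrt (χ l t) : ℂ) = (χ l t : ℂ) := by
      rw [← Complex.ofReal_mul, Real.mul_self_sqrt (hχ l t)]
    change _ = ((star ((Real.sqrt (χ l t) : ℂ) • (1 : Mt (Fin r) B')) * Beta_blk β e l X) *
      ((Real.sqrt (χ l t) : ℂ) • (1 : Mt (Fin r) B'))) i i'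
    rw [star_smul, star_one, smul_mul_assoc, one_mul, mul_smul_comm, mul_one, smul_smul]
    have h4 : star (Real.sqrt (χ l t) : ℂ) = (Real.sqrt (χ l t) : ℂ) := Complex.conj_ofReal _
    rw [h4, h3]
    rfl
  rw [h1]
  refine IsCP.sum _ _ fun l _ => ?_
  refine IsCP.conj ?_ _
  refine IsCP.comp (IsCP.of_hom _) ?_
  exact isCP_block β hβ (fun p => e (l, p)) _ (fun X i i' => rfl)

end beta

end Pool.Agent.H.MP_e11395_an.PB
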