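import Mathlib

/-!
# MP_e11395, part B: finite partitions of unity on the unit interval
-/

set_option autoImplicit false

open Filter Topology

namespace Pool.Agent.H.MP_e11395_an.PB

/-- Finitely many continuous functions on `I` are uniformly approximated by
`∑ χ_l(t) f(x_l)`, with distinct points `x_l` and a partition of unity `χ`.
Proof: uniform continuity gives `δ > 0` with `‖f s - f t‖ < ε` for all `f ∈ F`, `|s - t| < δ`; a
finite set `x_l` of distinct points with every `t` at distance `< δ` of some `x_l` (compactness);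
`ψ_l(t) = max 0 (δ - |t - x_l|)`, `χ_l = ψ_l / ∑ ψ`. Then
`‖f t - ∑ χ_l(t) • f(x_l)‖ = ‖∑ χ_l(t) • (f t - f(x_l))‖ < ε` since `χ_l(t) ≠ 0` only if
`|t - x_l| < δ`. -/
theorem exists_partition {V : Type} [NormedAddCommGroup V] [NormedSpace ℂ V]
    (F : Finset C(unitInterval, V)) (ε : ℝ) (hε : 0 < ε) :
    ∃ (M : ℕ) (x : Fin M → unitInterval) (χ : Fin M → C(unitInterval, ℝ)),
      Function.Injective x ∧ (∀ l t, 0 ≤ χ l t) ∧ (∀ t, ∑ l, χ l t = 1) ∧
      ∀ f ∈ F, ∀ t, ‖f t - ∑ l, (χ l t : ℂ) • f (x l)‖ < ε := by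
  classical
  have h1 : ∀ᶠ p in uniformity unitInterval, ∀ f ∈ F, dist (f p.1) (f p.2) < ε / 2 := by
    refine (Filter.eventually_all_finset F).2 fun f _ => ?_
    have h2 : UniformContinuous f := CompactSpace.uniformContinuous_of_continuous f.continuous
    exact h2 (Metric.dist_mem_uniformity (half_pos hε))
  obtain ⟨δ, hδ, h3⟩ := Metric.mem_uniformity_dist.1 h1
  obtain ⟨T, -, hTf, hT⟩ :=
    (isCompact_univ : IsCompact (Set.univ : Set unitInterval)).finite_cover_balls hδ
  set S := hTf.toFinset with hS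
  let x : Fin S.card → unitInterval := fun l => (S.equivFin.symm l : unitInterval)
  have hx : Function.Injective x := fun a b hab =>
    S.equivFin.symm.injective (Subtype.ext hab)
  have hcov : ∀ t : unitInterval, ∃ l, dist t (x l) < δ := by
    intro t
    have h4 := hT (Set.mem_univ t)
    simp only [Set.mem_iUnion, Metric.mem_ball] at h4
    obtain ⟨y, hy, hty⟩ := h4
    refine ⟨S.equivFin ⟨y, by rw [hS]; exact hTf.mem_toFinset.2 hy⟩, ?_⟩
    simpa [x] using hty
  let ψ : Fin S.card → C(unitInterval, ℝ) := fun l => ⟨fun t => max 0 (δ - dist t (x l)), by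
    fun_prop⟩
  have hψ : ∀ l t, ψ l t = max 0 (δ - dist t (x l)) := fun l t => rfl
  have hψ0 : ∀ l t, 0 ≤ ψ l t := fun l t => by rw [hψ]; exact le_max_left _ _
  have hsum : ∀ t, 0 < ∑ l, ψ l t := by
    intro t
    obtain ⟨l, hl⟩ := hcov t
    refine Finset.sum_pos' (fun i _ => hψ0 i t) ⟨l, Finset.mem_univ l, ?_⟩
    rw [hψ]
    exact lt_max_of_lt_right (by linarith)
  let χ : Fin S.card → C(unitInterval, ℝ) := fun l => ⟨fun t => ψ l t / ∑ i, ψ i t, by
    refine Continuous.div (ψ l).continuous ?_ fun t => (hsum t).ne'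
    exact continuous_finsetSum _ fun i _ => (ψ i).continuous⟩
  have hχ : ∀ l t, χ l t = ψ l t / ∑ i, ψ i t := fun l t => rfl
  have hχ0 : ∀ l t, 0 ≤ χ l t := fun l t => by
    rw [hχ]
    exact div_nonneg (hψ0 l t) (hsum t).le
  have hχ1 : ∀ t, ∑ l, χ l t = 1 := fun t => by
    simp only [hχ]
    rw [← Finset.sum_div, div_self (hsum t).ne']
  refine ⟨S.card, x, χ, hx, hχ0, hχ1, fun f hf t => ?_⟩
  have h5 : f t - ∑ l, (χ l t : ℂ) • f (x l) = ∑ l, (χ l t : ℂ) • (f t - f (x l)) := by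
    simp only [smul_sub]
    rw [Finset.sum_sub_distrib, ← Finset.sum_smul, ← Complex.ofReal_sum, hχ1,
      Complex.ofReal_one, one_smul]
  rw [h5]
  have h6 : ∀ l ∈ Finset.univ, ‖(χ l t : ℂ) • (f t - f (x l))‖ ≤ χ l t * (ε / 2) := by
    intro l _
    rw [norm_smul, Complex.norm_real, Real.norm_of_nonneg (hχ0 l t)]
    rcases lt_or_ge (dist t (x l)) δ with h7 | h7
    · have h8 := h3 h7 f hf
      rw [dist_eq_norm] at h8
      exact mul_le_mul_of_nonneg_left h8.le (hχ0 l t)
    · have h8 : χ l t = 0 := by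
        rw [hχ, hψ, max_eq_left (by linarith), zero_div]
      rw [h8, zero_mul, zero_mul]
  calc ‖∑ l, (χ l t : ℂ) • (f t - f (x l))‖ ≤ ∑ l, χ l t * (ε / 2) := norm_sum_le_of_le _ h6
    _ = ε / 2 := by rw [← Finset.sum_mul, hχ1, one_mul]
    _ < ε := half_lt_self hε

end Pool.Agent.H.MP_e11395_an.PB
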