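import Pool.Agent.H.MP_e11395_an.B.Vec
import Pool.Agent.H.MP_e11395_an.B.Beta
import Pool.Agent.H.MP_e11395_an.B.Part
import Pool.Agent.H.MP_e11395_an.B.Nuc

/-!
# MP_e11395, part B: approximate factorisation for finitely many functions
-/

set_option autoImplicit false
set_option linter.unusedSectionVars false

open Filter Topology

open scoped InnerProductSpace ENNReal CStarAlgebra

namespace Pool.Agent.H.MP_e11395_an.PB

section approx

variable {d : ℕ → ℕ} (T : TowerData d) {H : Type} [NormedAddCommGroup H] [InnerProductSpace ℂ H]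
  [CompleteSpace H] {B B' : Type} [CStarAlgebra B] [CStarAlgebra B'] {C : ConeAlg d B}
  {C' : ConeAlg d B'} (J : C.Hom C') (π' : B' →⋆ₐ[ℂ] (H →L[ℂ] H)) (hd : ∀ k, 0 < d k)

/-- The matrix coefficients of `RK f` at the vectors `vec`. -/
theorem Approx_inner (m : ℕ) (f : C(unitInterval, Mt (Fin (T.r m)) B')) (i j : Fin (T.r m))
    (x : unitInterval) (v w : H) :
    inner ℂ (vec i.val x v) (RK T C' π' hd m f (vec j.val x w)) = inner ℂ v (π' (f x i j) w) := by
  have h1 : RK T C' π' hd m f (vec j.val x w) =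
      mrep (πI π') (T.r m) (swp (T.r m) f) (vec j.val x w) := by
    have h2 := congrArg (fun S : HN (HI H) →L[ℂ] HN (HI H) => S (vec j.val x w))
      (RK_mul_P T C' π' hd m f)
    have h3 : (RK T C' π' hd m f * PN (HI H) (T.r m)) (vec j.val x w) =
        RK T C' π' hd m f (PN (HI H) (T.r m) (vec j.val x w)) := rfl
    rw [PN_vec (T.r m) j x w] at h3
    rw [← h3]
    exact h2
  rw [h1, inner_mrep_vec, if_pos rfl]

/-- Approximate factorisation for finitely many functions. Proof: let `r = T.r m`.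
`exists_partition` for `F` with `ε / 2`, `V = Mt (Fin r) B`; `S` = all entries
`f (x l) i j`, `f ∈ F`; `NucData` for `S` and `ε / (4 (r + 1) ^ 2)` gives `N, v, β`;
`e = Fintype.equivFin`-style equivalence `Fin M × (Fin r × Fin N) ≃ Fin n`,
`w (e (l, (i, s))) = vec i (x l) (v s)`. `w` is orthonormal by `inner_vec`. By `RK_mul_P`,
`PN_vec` and `inner_mrep_vec` the block `(l, i, i')` of the compression of `RK (mapC f)` is the
compression of `π' (j (f (x l) i i'))` by `v`. So
`(beta ... - mapC f)(t) i i' = ∑ χ_l(t) • (β(cmp) - j (f (x l) i i')) + (∑ χ_l(t) f(x l) - f t)`,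
and `Mt.norm_le_sum`, `Mt.norm_entry_le`. -/
theorem exists_approx (hN : NucData J π') (m : ℕ)
    (F : Finset C(unitInterval, Mt (Fin (T.r m)) B)) (ε : ℝ) (hε : 0 < ε) :
    ∃ (n : ℕ) (w : Fin n → HN (HI H))
      (β : Matrix (Fin n) (Fin n) ℂ →ₗ[ℂ] C(unitInterval, Mt (Fin (T.r m)) B')),
      Orthonormal ℂ w ∧ IsCP β ∧ β 1 = 1 ∧ ∀ f ∈ F,
        ‖β (Matrix.of fun s t => inner ℂ (w s) (RK T C' π' hd m (mapC J (T.r m) f) (w t))) -
          mapC J (T.r m) f‖ < ε := by
  classical
  obtain ⟨M, x, χ, hx, hχ0, hχ1, hF⟩ := exists_partition F (ε / 2) (by positivity)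
  let S : Finset B := F.biUnion fun f =>
    (Finset.univ : Finset (Fin M × Fin (T.r m) × Fin (T.r m))).image
      fun q => f (x q.1) q.2.1 q.2.2
  have hr : (0 : ℝ) < 4 * ((T.r m : ℝ) + 1) ^ 2 := by positivity
  obtain ⟨N, v, β₀, hv, hβ₀, hβ₀1, hS⟩ := hN S (ε / (4 * ((T.r m : ℝ) + 1) ^ 2)) (by positivity)
  let e : Fin M × (Fin (T.r m) × Fin N) ≃ Fin (Fintype.card (Fin M × (Fin (T.r m) × Fin N))) :=
    Fintype.equivFin _
  let w : Fin (Fintype.card (Fin M × (Fin (T.r m) × Fin N))) → HN (HI H) := fun k =>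
    vec ((e.symm k).2.1).val (x (e.symm k).1) (v (e.symm k).2.2)
  have hw : ∀ l i s, w (e (l, (i, s))) = vec i.val (x l) (v s) := by
    intro l i s
    simp [w]
  refine ⟨_, w, beta χ β₀ e, ?_, isCP_beta χ hχ0 β₀ hβ₀ e, beta_one χ hχ1 β₀ hβ₀1 e, ?_⟩
  · rw [orthonormal_iff_ite]
    intro k k'
    obtain ⟨⟨l, i, s⟩, rfl⟩ := e.surjective k
    obtain ⟨⟨l', i', s'⟩, rfl⟩ := e.surjective k'
    rw [hw, hw, inner_vec, orthonormal_iff_ite.1 hv]
    by_cases h1 : l = l'
    · by_cases h2 : i = i'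
      · by_cases h3 : s = s'
        · subst h1 h2 h3
          simp
        · have : ¬ (l, (i, s)) = (l', (i', s')) := fun h => h3 (congrArg (fun q => q.2.2) h)
          simp [h3]
      · have h4 : ¬ (i.val = i'.val) := fun h => h2 (Fin.ext h)
        have : ¬ (l, (i, s)) = (l', (i', s')) := fun h => h2 (congrArg (fun q => q.2.1) h)
        simp [h4, h2]
    · have h4 : ¬ (x l = x l') := fun h => h1 (hx h)
      simp [h4, h1]
  · intro f hf
    rw [ContinuousMap.norm_lt_iff _ hε]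
    intro t
    let D : Mt (Fin (T.r m)) B' := Mt.of fun i i' => ∑ l, (χ l t : ℂ) •
      (β₀ (Matrix.of fun s s' => inner ℂ (v s) (π' (J.j (f (x l) i i')) (v s'))) -
        J.j (f (x l) i i'))
    have hD : ‖D‖ < ε / 2 := by
      have h1 : ∀ i i', ‖D i i'‖ ≤ ε / (4 * ((T.r m : ℝ) + 1) ^ 2) := by
        intro i i'
        have h2 : ∀ l ∈ (Finset.univ : Finset (Fin M)), ‖(χ l t : ℂ) •
            (β₀ (Matrix.of fun s s' => inner ℂ (v s) (π' (J.j (f (x l) i i')) (v s'))) -
              J.j (f (x l) i i'))‖ ≤ χ l t * (ε / (4 * ((T.r m : ℝ) + 1) ^ 2)) := by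
          intro l _
          rw [norm_smul, Complex.norm_real, Real.norm_eq_abs, abs_of_nonneg (hχ0 l t)]
          refine mul_le_mul_of_nonneg_left (hS _ ?_).le (hχ0 l t)
          exact Finset.mem_biUnion.2 ⟨f, hf, Finset.mem_image.2 ⟨(l, (i, i')), Finset.mem_univ _, rfl⟩⟩
        refine (norm_sum_le_of_le _ h2).trans ?_
        rw [← Finset.sum_mul, hχ1 t, one_mul]
      calc ‖D‖ ≤ ∑ i, ∑ i', ‖D i i'‖ := Mt.norm_le_sum D
        _ ≤ ∑ _i : Fin (T.r m), ∑ _i' : Fin (T.r m), ε / (4 * ((T.r m : ℝ) + 1) ^ 2) :=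
            Finset.sum_le_sum fun i _ => Finset.sum_le_sum fun i' _ => h1 i i'
        _ = (T.r m : ℝ) ^ 2 * (ε / (4 * ((T.r m : ℝ) + 1) ^ 2)) := by
            simp only [Finset.sum_const, Finset.card_univ, Fintype.card_fin, nsmul_eq_mul]
            ring
        _ ≤ ((T.r m : ℝ) + 1) ^ 2 * (ε / (4 * ((T.r m : ℝ) + 1) ^ 2)) := by
            refine mul_le_mul_of_nonneg_right ?_ (by positivity)
            have : (0 : ℝ) ≤ (T.r m : ℝ) := Nat.cast_nonneg _
            nlinarith
        _ = ε / 4 := by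
            field_simp
        _ < ε / 2 := by linarith
    have hE : ‖Mt.map J.j (∑ l, (χ l t : ℂ) • f (x l) - f t)‖ < ε / 2 := by
      have h5 : ‖Mt.map J.j (∑ l, (χ l t : ℂ) • f (x l) - f t)‖ ≤
          ‖∑ l, (χ l t : ℂ) • f (x l) - f t‖ :=
        NonUnitalStarAlgHom.norm_apply_le
          (Mt.map J.j : Mt (Fin (T.r m)) B →⋆ₐ[ℂ] Mt (Fin (T.r m)) B') _
      refine h5.trans_lt ?_
      rw [norm_sub_rev]
      exact hF f hf t
    have key : (beta χ β₀ e (Matrix.of fun s t => inner ℂ (w s)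
        (RK T C' π' hd m (mapC J (T.r m) f) (w t))) - mapC J (T.r m) f) t =
        D + Mt.map J.j (∑ l, (χ l t : ℂ) • f (x l) - f t) := by
      ext i i'
      rw [ContinuousMap.sub_apply, Mt.sub_apply, Mt.add_apply, beta_apply, mapC_apply,
        Mt.map_apply, Mt.map_apply, Mt.sub_apply, map_sub]
      have h3 : (∑ l, (χ l t : ℂ) • f (x l) : Mt (Fin (T.r m)) B) i i' =
          ∑ l, (χ l t : ℂ) • (f (x l) i i') := by
        have h4 : ∀ s : Finset (Fin M), (∑ l ∈ s, (χ l t : ℂ) • f (x l) : Mt (Fin (T.r m)) B) i i' =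
            ∑ l ∈ s, (χ l t : ℂ) • (f (x l) i i') := by
          intro s
          induction s using Finset.induction_on with
          | empty => simp
          | insert a s ha ih => rw [Finset.sum_insert ha, Finset.sum_insert ha, Mt.add_apply,
              Mt.smul_apply, ih]
        exact h4 _
      rw [h3, map_sum]
      simp only [D, Mt.of_apply, smul_sub, Finset.sum_sub_distrib, map_smul, hw, Matrix.of_apply,
        Approx_inner, mapC_apply, Mt.map_apply]
      abel
    rw [key]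
    refine (norm_add_le _ _).trans_lt ?_
    linarith

end approx

end Pool.Agent.H.MP_e11395_an.PB
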