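import Pool.Agent.H.MP_e11395_an.Mt
import Pool.Agent.H.MP_e11395_an.A.CPg

/-!
# MP_e11395, part B: completely positive maps
-/

set_option autoImplicit false
set_option linter.unusedSectionVars false

open scoped Matrix

namespace Pool.Agent.H.MP_e11395_an

section general

variable {A B D : Type} [Ring A] [StarRing A] [Algebra ℂ A] [Ring B] [StarRing B] [Algebra ℂ B]
  [Ring D] [StarRing D] [Algebra ℂ D]

theorem IsCP.of_hom (f : A →⋆ₐ[ℂ] B) : IsCP (f : A →ₐ[ℂ] B).toLinearMap := by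
  intro k X
  refine ⟨X.map f, ?_⟩
  ext i j
  have h : ∀ x, f (star (X x i)) = star (f (X x i)) := fun x => map_star f _
  simp [Matrix.mul_apply, h]

/-- The defining property for arbitrary finite index sets. -/
theorem IsCP.fintype {φ : A →ₗ[ℂ] B} (hφ : IsCP φ) {κ : Type} [Fintype κ] [DecidableEq κ]
    (X : Matrix κ κ A) : ∃ Y : Matrix κ κ B, (Xᴴ * X).map φ = Yᴴ * Y := by
  set e := Fintype.equivFin κ with he
  obtain ⟨Y, hY⟩ := hφ (Fintype.card κ) (X.submatrix e.symm e.symm)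
  refine ⟨Y.submatrix e e, ?_⟩
  rw [Matrix.conjTranspose_submatrix, Matrix.submatrix_mul_equiv, ← hY,
    Matrix.conjTranspose_submatrix, Matrix.submatrix_mul_equiv]
  ext i j
  simp only [Matrix.map_apply, Matrix.submatrix_apply, Equiv.symm_apply_apply]

theorem IsCP.pos {φ : A →ₗ[ℂ] B} (hφ : IsCP φ) (x : A) : ∃ y : B, φ (star x * x) = star y * y := by
  obtain ⟨Y, hY⟩ := hφ 1 (Matrix.of fun _ _ => x)
  refine ⟨Y 0 0, ?_⟩
  have := congrFun (congrFun hY 0) 0
  simpa [Matrix.mul_apply] using this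

end general

section cstar

variable {D : Type} [CStarAlgebra D] {κ σ : Type} [Fintype κ] [DecidableEq κ] [Fintype σ]
  [DecidableEq σ]

/-- A matrix as an element of the C*-algebra `Mt κ D`. -/
def CP_mt (X : Matrix κ κ D) : Mt κ D := Mt.of fun i j => X i j

theorem CP_mt_apply (X : Matrix κ κ D) (i j : κ) : CP_mt X i j = X i j := rfl

theorem CP_star_mul (X : Matrix κ κ D) : star (CP_mt X) * CP_mt X = CP_mt (Xᴴ * X) := by
  ext i j
  rw [Mt.mul_apply, CP_mt_apply, Matrix.mul_apply]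
  rfl

theorem CP_add (X Y : Matrix κ κ D) : CP_mt X + CP_mt Y = CP_mt (X + Y) := by
  ext i j
  rfl

theorem CP_sum {ι : Type} (s : Finset ι) (Y : ι → Matrix κ κ D) :
    ∑ i ∈ s, CP_mt (Y i) = CP_mt (∑ i ∈ s, Y i) := by
  classical
  induction s using Finset.induction_on with
  | empty =>
    rw [Finset.sum_empty, Finset.sum_empty]
    rfl
  | insert a s ha ih => rw [Finset.sum_insert ha, Finset.sum_insert ha, ih, CP_add]

theorem CP_sq {A : Type} [CStarAlgebra A] {ι : Type} (s : Finset ι) (y : ι → A) :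
    ∃ z : A, ∑ i ∈ s, star (y i) * y i = star z * z := by
  letI := CStarAlgebra.spectralOrder A
  letI := CStarAlgebra.spectralOrderedRing A
  exact CStarAlgebra.nonneg_iff_eq_star_mul_self.1
    (Finset.sum_nonneg fun i _ => star_mul_self_nonneg (y i))

/-- A finite sum of squares of matrices over a C*-algebra is a square. Proof: `Mt κ D` is a
C*-algebra; with the spectral order `0 ≤ ∑ star (Y i) * Y i`, so it is `star Z * Z`
(`CStarAlgebra.nonneg_iff_eq_star_mul_self`). -/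
theorem exists_sq_sum {ι : Type} (s : Finset ι) (Y : ι → Matrix κ κ D) :
    ∃ Z : Matrix κ κ D, ∑ i ∈ s, (Y i)ᴴ * Y i = Zᴴ * Z := by
  obtain ⟨z, hz⟩ := CP_sq s fun i => CP_mt (Y i)
  refine ⟨Matrix.of fun i j => z i j, ?_⟩
  have h1 : ∑ i ∈ s, star (CP_mt (Y i)) * CP_mt (Y i) = CP_mt (∑ i ∈ s, (Y i)ᴴ * Y i) := by
    rw [← CP_sum]
    exact Finset.sum_congr rfl fun i _ => CP_star_mul (Y i)
  have h2 : z = CP_mt (Matrix.of fun i j => z i j) := by
    ext i j
    rfl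
  rw [h1, h2, CP_star_mul] at hz
  ext i j
  have h3 : CP_mt (∑ i ∈ s, (Y i)ᴴ * Y i) i j = CP_mt ((Matrix.of fun i j => z i j)ᴴ *
      (Matrix.of fun i j => z i j)) i j := by
    rw [hz]
  exact h3

/-- `Xᴴ * X` is the square of a square matrix, for rectangular `X`. Proof: it is the sum over the
rows `c` of `(Y c)ᴴ * Y c` with `Y c` the square matrix whose only nonzero row is the row `c` of
`X` (if `κ` is empty there is nothing to show). -/
theorem exists_sq_rect (X : Matrix σ κ D) : ∃ Z : Matrix κ κ D, Xᴴ * X = Zᴴ * Z := by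
  rcases isEmpty_or_nonempty κ with h | ⟨⟨k₀⟩⟩
  · exact ⟨0, Subsingleton.elim _ _⟩
  · obtain ⟨Z, hZ⟩ := exists_sq_sum (Finset.univ : Finset σ)
      (fun c => (Matrix.of fun i j => if i = k₀ then X c j else 0 : Matrix κ κ D))
    refine ⟨Z, ?_⟩
    rw [← hZ]
    ext i j
    rw [Matrix.sum_apply, Matrix.mul_apply]
    refine Finset.sum_congr rfl fun c _ => ?_
    rw [Matrix.mul_apply, Finset.sum_eq_single k₀]
    · simp [Matrix.conjTranspose_apply]
    · intro b _ hb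
      simp [hb]
    · intro h
      exact absurd (Finset.mem_univ _) h

theorem IsCP.sum {A : Type} [Ring A] [StarRing A] [Algebra ℂ A] {ι : Type} (s : Finset ι)
    (φ : ι → (A →ₗ[ℂ] D)) (h : ∀ i ∈ s, IsCP (φ i)) : IsCP (∑ i ∈ s, φ i) := by
  intro k X
  have h1 : ∀ i, ∃ Y : Matrix (Fin k) (Fin k) D, i ∈ s → (Xᴴ * X).map (φ i) = Yᴴ * Y := by
    intro i
    by_cases hi : i ∈ s
    · obtain ⟨Y, hY⟩ := h i hi k X
      exact ⟨Y, fun _ => hY⟩
    · exact ⟨0, fun h' => absurd h' hi⟩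
  choose Y hY using h1
  obtain ⟨Z, hZ⟩ := exists_sq_sum s Y
  refine ⟨Z, ?_⟩
  rw [← hZ, ← Finset.sum_congr rfl fun i hi => hY i hi]
  ext i j
  rw [Matrix.sum_apply, Matrix.map_apply, LinearMap.sum_apply]
  rfl

/-- `a ↦ star c * φ a * c` is completely positive. -/
theorem IsCP.conj {A : Type} [Ring A] [StarRing A] [Algebra ℂ A] {φ : A →ₗ[ℂ] D} (hφ : IsCP φ)
    (c : D) : IsCP ((LinearMap.mulRight ℂ c).comp ((LinearMap.mulLeft ℂ (star c)).comp φ)) := by
  intro k X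
  obtain ⟨Y, hY⟩ := hφ k X
  refine ⟨Matrix.of fun i j => Y i j * c, ?_⟩
  ext i j
  have h1 : φ ((Xᴴ * X) i j) = (Yᴴ * Y) i j := by
    rw [← hY]
    rfl
  rw [Matrix.map_apply, LinearMap.comp_apply, LinearMap.comp_apply, h1, LinearMap.mulLeft_apply,
    LinearMap.mulRight_apply, Matrix.mul_apply, Matrix.mul_apply, Finset.mul_sum,
    Finset.sum_mul]
  refine Finset.sum_congr rfl fun x _ => ?_
  rw [Matrix.conjTranspose_apply, Matrix.conjTranspose_apply, Matrix.of_apply, Matrix.of_apply,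
    star_mul]
  simp only [mul_assoc]

theorem CP_norm_le {D : Type} [CStarAlgebra D] [PartialOrder D] [StarOrderedRing D] {x : D} {r : ℝ}
    (hr : 0 ≤ r) (hx : IsSelfAdjoint x) (h1 : x ≤ algebraMap ℝ D r)
    (h2 : -x ≤ algebraMap ℝ D r) : ‖x‖ ≤ r := by
  rcases subsingleton_or_nontrivial D with h | h
  · rw [Subsingleton.elim x 0, norm_zero]
    exact hr
  · rcases CStarAlgebra.norm_or_neg_norm_mem_spectrum hx with h3 | h3
    · exact (le_algebraMap_iff_spectrum_le hx).1 h1 _ h3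
    · have h4 : algebraMap ℝ D (-r) ≤ x := by
        rw [map_neg, neg_le]
        exact h2
      have h5 := (algebraMap_le_iff_le_spectrum hx).1 h4 _ h3
      linarith

theorem CP_norm_le_sa {A : Type} [CStarAlgebra A] (γ : A →ₗ[ℂ] D) (h1 : γ 1 = 1)
    (hpos : ∀ x, ∃ y : D, γ (star x * x) = star y * y) (a : A) (ha : IsSelfAdjoint a) :
    ‖γ a‖ ≤ ‖a‖ := by
  letI := CStarAlgebra.spectralOrder A
  letI := CStarAlgebra.spectralOrderedRing A
  letI := CStarAlgebra.spectralOrder D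
  letI := CStarAlgebra.spectralOrderedRing D
  have hg : γ (algebraMap ℝ A ‖a‖) = algebraMap ℝ D ‖a‖ := by
    have e1 : algebraMap ℝ A ‖a‖ = ((‖a‖ : ℝ) : ℂ) • (1 : A) := by
      rw [Algebra.algebraMap_eq_smul_one]
      rfl
    have e2 : algebraMap ℝ D ‖a‖ = ((‖a‖ : ℝ) : ℂ) • (1 : D) := by
      rw [Algebra.algebraMap_eq_smul_one]
      rfl
    rw [e1, e2, map_smul, h1]
  have p1 : 0 ≤ algebraMap ℝ A ‖a‖ - a := sub_nonneg.2 ha.le_algebraMap_norm_self
  have p2 : 0 ≤ algebraMap ℝ A ‖a‖ + a := by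
    have := ha.neg_algebraMap_norm_le_self
    rw [← sub_nonneg, sub_neg_eq_add, add_comm] at this
    exact this
  obtain ⟨x1, hx1⟩ := CStarAlgebra.nonneg_iff_eq_star_mul_self.1 p1
  obtain ⟨x2, hx2⟩ := CStarAlgebra.nonneg_iff_eq_star_mul_self.1 p2
  obtain ⟨y1, hy1⟩ := hpos x1
  obtain ⟨y2, hy2⟩ := hpos x2
  rw [← hx1, map_sub, hg] at hy1
  rw [← hx2, map_add, hg] at hy2
  have q1 : 0 ≤ algebraMap ℝ D ‖a‖ - γ a := by
    rw [hy1]
    exact star_mul_self_nonneg y1
  have q2 : 0 ≤ algebraMap ℝ D ‖a‖ + γ a := by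
    rw [hy2]
    exact star_mul_self_nonneg y2
  refine CP_norm_le (norm_nonneg a) ?_ (sub_nonneg.1 q1) ?_
  · have e3 : γ a = algebraMap ℝ D ‖a‖ - star y1 * y1 := by
      rw [← hy1, sub_sub_cancel]
    rw [e3]
    exact (IsSelfAdjoint.algebraMap D (IsSelfAdjoint.all _)).sub (IsSelfAdjoint.star_mul_self y1)
  · rw [← sub_nonneg, sub_neg_eq_add]
    exact q2

/-- A unital positive map is bounded by `2`. For `a` self-adjoint, `‖a‖ • 1 ± a = star x * x`, so
`‖a‖ • 1 ± γ a ≥ 0`. -/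
theorem norm_le_two_mul {A : Type} [CStarAlgebra A] (γ : A →ₗ[ℂ] D) (h1 : γ 1 = 1)
    (hpos : ∀ x, ∃ y : D, γ (star x * x) = star y * y) (a : A) : ‖γ a‖ ≤ 2 * ‖a‖ := by
  have h2 := realPart_add_I_smul_imaginaryPart a
  have h3 := CP_norm_le_sa γ h1 hpos (realPart a : A) (realPart a).2
  have h4 := CP_norm_le_sa γ h1 hpos (imaginaryPart a : A) (imaginaryPart a).2
  have h5 : ‖(realPart a : A)‖ ≤ ‖a‖ := realPart.norm_le a
  have h6 : ‖(imaginaryPart a : A)‖ ≤ ‖a‖ := imaginaryPart.norm_le a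
  calc ‖γ a‖ = ‖γ (realPart a : A) + Complex.I • γ (imaginaryPart a : A)‖ := by
        rw [← map_smul, ← map_add, h2]
    _ ≤ ‖γ (realPart a : A)‖ + ‖Complex.I • γ (imaginaryPart a : A)‖ := norm_add_le _ _
    _ = ‖γ (realPart a : A)‖ + ‖γ (imaginaryPart a : A)‖ := by
        rw [norm_smul, Complex.norm_I, one_mul]
    _ ≤ 2 * ‖a‖ := by linarith

end cstar

end Pool.Agent.H.MP_e11395_an
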