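import Pool.Agent.H.MP_e11395_an.B.CP

/-!
# MP_e11395, part B: compressions and block maps are completely positive
-/

set_option autoImplicit false
set_option linter.unusedSectionVars false

open scoped Matrix

namespace Pool.Agent.H.MP_e11395_an

section compression

variable {K : Type} [NormedAddCommGroup K] [InnerProductSpace ℂ K] [CompleteSpace K]

/-- The compression of operators by a finite family of vectors. -/
noncomputable def cmp {A : Type} [CStarAlgebra A] (ρ : A →⋆ₐ[ℂ] (K →L[ℂ] K)) {n : ℕ}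
    (w : Fin n → K) : A →ₗ[ℂ] Matrix (Fin n) (Fin n) ℂ where
  toFun a := Matrix.of fun s t => inner ℂ (w s) (ρ a (w t))
  map_add' a b := by
    ext s t
    simp
  map_smul' c a := by
    ext s t
    simp

theorem cmp_apply {A : Type} [CStarAlgebra A] (ρ : A →⋆ₐ[ℂ] (K →L[ℂ] K)) {n : ℕ} (w : Fin n → K)
    (a : A) (s t : Fin n) : cmp ρ w a s t = inner ℂ (w s) (ρ a (w t)) := rfl

theorem cmp_one {A : Type} [CStarAlgebra A] (ρ : A →⋆ₐ[ℂ] (K →L[ℂ] K)) {n : ℕ} (w : Fin n → K)
    (hw : Orthonormal ℂ w) : cmp ρ w 1 = 1 := by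
  ext s t
  rw [cmp_apply, map_one, Matrix.one_apply]
  exact orthonormal_iff_ite.1 hw s t

open scoped ComplexOrder MatrixOrder Matrix.Norms.L2Operator in
theorem CPb_gram {E : Type} [NormedAddCommGroup E] [InnerProductSpace ℂ E] {κ : Type} [Fintype κ]
    [DecidableEq κ] (v : κ → E) : ∃ Z : Matrix κ κ ℂ, Matrix.gram ℂ v = Zᴴ * Z := by
  obtain ⟨Z, hZ⟩ := CStarAlgebra.nonneg_iff_eq_star_mul_self.mp
    (Matrix.posSemidef_gram ℂ v).nonneg
  exact ⟨Z, hZ⟩

/-- Compressions are completely positive. Proof: `(Xᴴ * X).map` is the Gram matrix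
`⟨g (a, s), g (b, t)⟩` of the vectors `g (a, s) = (ρ (X c a) (w s))_c` of `K^k`, hence positive
semidefinite as a matrix with index set `Fin k × Fin n`, hence `Zᴴ * Z`; read `Z` as a matrix
of matrices. -/
theorem isCP_cmp {A : Type} [CStarAlgebra A] (ρ : A →⋆ₐ[ℂ] (K →L[ℂ] K)) {n : ℕ} (w : Fin n → K) :
    IsCP (cmp ρ w) := by
  classical
  intro k X
  let g : Fin k × Fin n → PiLp 2 (fun _ : Fin k => K) := fun p =>
    WithLp.toLp 2 fun c => ρ (X c p.1) (w p.2)
  obtain ⟨Z, hZ⟩ := CPb_gram g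
  refine ⟨Matrix.of fun c b => Matrix.of fun u t => Z (c, u) (b, t), ?_⟩
  have hr : ∀ (a b : A) (v v' : K), inner ℂ v (ρ (star a * b) v') = inner ℂ (ρ a v) (ρ b v') := by
    intro a b v v'
    rw [map_mul, map_star, mul_apply_eq_comp, ContinuousLinearMap.star_eq_adjoint,
      ContinuousLinearMap.adjoint_inner_right]
  ext a b s t
  have h1 : (Matrix.gram ℂ g) (a, s) (b, t) = (Zᴴ * Z) (a, s) (b, t) := by rw [hZ]
  rw [Matrix.gram_apply, PiLp.inner_apply, Matrix.mul_apply, Fintype.sum_prod_type] at h1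
  have h2 : (Xᴴ * X).map (cmp ρ w) a b s t = ∑ c, inner ℂ (w s) (ρ (star (X c a) * X c b) (w t)) := by
    rw [Matrix.map_apply, cmp_apply, Matrix.mul_apply, map_sum, sum_apply,
      inner_sum]
    rfl
  rw [h2]
  have h3 : ∀ c, inner ℂ (w s) (ρ (star (X c a) * X c b) (w t)) =
      inner ℂ ((g (a, s)) c) ((g (b, t)) c) := fun c => hr _ _ _ _
  rw [Finset.sum_congr rfl fun c _ => h3 c, h1, Matrix.mul_apply, Matrix.sum_apply]
  refine Finset.sum_congr rfl fun c _ => ?_
  rw [Matrix.mul_apply]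
  rfl

end compression

section block

/-- The block maps `M_n(ℂ) → M_r(B')`, `X ↦ (β (X restricted to the block (i, i')))`, for an
injection `g : Fin r × Fin N → Fin n`. They are completely positive if `β` is. Proof: for
`X : M_k(M_n(ℂ))` the matrix of blocks of `Xᴴ * X`, flattened to the index set
`(Fin k × Fin r) × Fin N`, is `Wᴴ * W` for a rectangular complex `W` (rows `Fin k × Fin n`), so by
`exists_sq_rect` (`D = ℂ`) it is `Zᴴ * Z` with `Z` square; read `Z` as a matrix over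
`Matrix (Fin N) (Fin N) ℂ` with index set `Fin k × Fin r`, apply `IsCP.fintype`, and read the
result as a `Fin k`-matrix over `Mt (Fin r) B'`. -/
theorem isCP_block {B' : Type} [CStarAlgebra B'] {r N n : ℕ}
    (β : Matrix (Fin N) (Fin N) ℂ →ₗ[ℂ] B') (hβ : IsCP β) (g : Fin r × Fin N → Fin n)
    (φ : Matrix (Fin n) (Fin n) ℂ →ₗ[ℂ] Mt (Fin r) B')
    (hφ : ∀ X i i', φ X i i' = β (Matrix.of fun s s' => X (g (i, s)) (g (i', s')))) : IsCP φ := by
  classical
  intro k X
  let W : Matrix (Fin k × Fin n) ((Fin k × Fin r) × Fin N) ℂ :=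
    Matrix.of fun c q => X c.1 q.1.1 c.2 (g (q.1.2, q.2))
  obtain ⟨Z, hZ⟩ := exists_sq_rect W
  let Z' : Matrix (Fin k × Fin r) (Fin k × Fin r) (Matrix (Fin N) (Fin N) ℂ) :=
    Matrix.of fun p q => Matrix.of fun s t => Z (p, s) (q, t)
  obtain ⟨Y', hY'⟩ := hβ.fintype Z'
  refine ⟨Matrix.of fun a b => Mt.of fun i i' => Y' (a, i) (b, i'), ?_⟩
  have h1 : ∀ a b i i', (Z'ᴴ * Z') (a, i) (b, i') =
      Matrix.of fun s s' => (Xᴴ * X) a b (g (i, s)) (g (i', s')) := by
    intro a b i i'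
    ext s s'
    have h2 : (Zᴴ * Z) ((a, i), s) ((b, i'), s') = (Z'ᴴ * Z') (a, i) (b, i') s s' := by
      rw [Matrix.mul_apply, Fintype.sum_prod_type, Matrix.mul_apply, Matrix.sum_apply]
      refine Finset.sum_congr rfl fun c _ => ?_
      rw [Matrix.mul_apply]
      rfl
    have h3 : (Wᴴ * W) ((a, i), s) ((b, i'), s') = (Xᴴ * X) a b (g (i, s)) (g (i', s')) := by
      rw [Matrix.mul_apply, Fintype.sum_prod_type, Matrix.mul_apply, Matrix.sum_apply]
      refine Finset.sum_congr rfl fun c _ => ?_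
      rw [Matrix.mul_apply]
      rfl
    rw [← h2, ← hZ, h3]
    rfl
  refine Matrix.ext fun a b => Mt.ext fun i i' => ?_
  have h4 := congrFun (congrFun hY' (a, i)) (b, i')
  rw [Matrix.map_apply, h1, ← hφ] at h4
  rw [Matrix.map_apply, h4, Matrix.mul_apply, Fintype.sum_prod_type, Matrix.mul_apply]
  have h5 : ∀ (F : Fin k → Mt (Fin r) B') (i i' : Fin r), (∑ c, F c) i i' = ∑ c, F c i i' := by
    intro F i i'
    induction (Finset.univ : Finset (Fin k)) using Finset.induction_on with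
    | empty => rfl
    | insert x s hx ih => rw [Finset.sum_insert hx, Finset.sum_insert hx, Mt.add_apply, ih]
  rw [h5]
  refine Finset.sum_congr rfl fun c _ => ?_
  rw [Matrix.conjTranspose_apply, Matrix.of_apply, Matrix.of_apply, Mt.mul_apply]
  rfl

end block

end Pool.Agent.H.MP_e11395_an
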