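import Pool.Agent.H.MP_e11395_an.B.Approx

/-!
# MP_e11395, part B: exactness of the limit algebra
-/

set_option autoImplicit false
set_option linter.unusedSectionVars false

open Filter Topology

open scoped InnerProductSpace ENNReal CStarAlgebra

namespace Pool.Agent.H.MP_e11395_an.PB

section approx

variable {d : ℕ → ℕ} (T : TowerData d) {H : Type} [NormedAddCommGroup H] [InnerProductSpace ℂ H]
  [CompleteSpace H] {B B' : Type} [CStarAlgebra B] [CStarAlgebra B'] {C : ConeAlg d B}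
  {C' : ConeAlg d B'} (J : C.Hom C') (π' : B' →⋆ₐ[ℂ] (H →L[ℂ] H)) (hd : ∀ k, 0 < d k)

/-- The limit algebra is exact. Proof: `π = inK`. For `S`, `ε`: common `m` and `f_a : T.Bk B m`
with `‖RA f_a - a‖ < ε / 8` (`isLimit_AK.dense`, and `RB_le` to reach a common stage);
`exists_approx` for the `(f_a).val` with `ε / 8`; `α = cmp inK w`, `β' = RK ∘ β`
(`IsCP.of_hom`, `IsCP.comp`). By `norm_le_two_mul` for `β' ∘ α`,
`‖β' (α a) - inK a‖ ≤ 2 ‖a - RA f_a‖ + ‖RK (β (..) - mapC f_a)‖ + ‖RA f_a - a‖ < ε`. -/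
theorem exact_AK (hπ : Function.Injective π') (hN : NucData J π') :
    ExactCStar (AK T J π' hd) := by
  classical
  refine ⟨HN (HI H), inferInstance, inferInstance, inferInstance, inK T J π' hd,
    inK_injective T J π' hd, ?_⟩
  intro S ε hε
  have h8 : 0 < ε / 8 := by positivity
  have h1 : ∀ a : AK T J π' hd, ∃ n, ∃ f : T.Bk B n, ‖RA T J π' hd n f - a‖ < ε / 8 :=
    fun a => (isLimit_AK T J π' hd hπ).dense a (ε / 8) h8
  choose nn ff hff using h1
  have h2 : ∀ a ∈ S, ∃ g : T.Bk B (S.sup nn), ‖RA T J π' hd (S.sup nn) g - a‖ < ε / 8 := by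
    intro a ha
    obtain ⟨g, hg⟩ := RB_le T J π' hd (Finset.le_sup (f := nn) ha) (ff a)
    refine ⟨g, ?_⟩
    have e : RA T J π' hd (S.sup nn) g = RA T J π' hd (nn a) (ff a) :=
      inK_injective T J π' hd hg
    rw [e]
    exact hff a
  choose! g hg using h2
  obtain ⟨n, w, β, hw, hβ, hβ1, happ⟩ := exists_approx T J π' hd hN (S.sup nn)
    (S.image fun a => (g a).val) (ε / 8) h8
  let α := cmp (inK T J π' hd) w
  let β' : Matrix (Fin n) (Fin n) ℂ →ₗ[ℂ] (HN (HI H) →L[ℂ] HN (HI H)) :=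
    (RK T C' π' hd (S.sup nn) :
      C(unitInterval, Mt (Fin (T.r (S.sup nn))) B') →ₐ[ℂ] _).toLinearMap ∘ₗ β
  have hα : IsCP α := isCP_cmp _ _
  have hβ' : IsCP β' := IsCP.comp (IsCP.of_hom _) hβ
  have hα1 : α 1 = 1 := cmp_one _ _ hw
  have hβ'1 : β' 1 = 1 := by
    change RK T C' π' hd (S.sup nn) (β 1) = 1
    rw [hβ1, map_one]
  refine ⟨n, α, β', ⟨hα, hα1⟩, ⟨hβ', hβ'1⟩, ?_⟩
  intro a ha
  have hb : ∀ x : AK T J π' hd, ‖β' (α x)‖ ≤ 2 * ‖x‖ := by
    intro x
    have := norm_le_two_mul (β' ∘ₗ α) (by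
      change β' (α 1) = 1
      rw [hα1, hβ'1]) (fun y => (IsCP.comp hβ' hα).pos y) x
    exact this
  have e1 : β' (α (RA T J π' hd (S.sup nn) (g a))) - inK T J π' hd (RA T J π' hd (S.sup nn) (g a)) =
      RK T C' π' hd (S.sup nn) (β (Matrix.of fun s t => inner ℂ (w s)
        (RK T C' π' hd (S.sup nn) (mapC J (T.r (S.sup nn)) (g a).val) (w t))) -
        mapC J (T.r (S.sup nn)) (g a).val) := by
    rw [map_sub]
    rfl
  have h3 : ‖β' (α (RA T J π' hd (S.sup nn) (g a))) -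
      inK T J π' hd (RA T J π' hd (S.sup nn) (g a))‖ < ε / 8 := by
    rw [e1]
    refine (NonUnitalStarAlgHom.norm_apply_le (RK T C' π' hd (S.sup nn)) _).trans_lt ?_
    exact happ _ (Finset.mem_image_of_mem _ ha)
  have h4 : ‖β' (α (a - RA T J π' hd (S.sup nn) (g a)))‖ ≤ 2 * (ε / 8) := by
    refine (hb _).trans ?_
    have := (hg a ha).le
    rw [norm_sub_rev] at this
    linarith
  have h5 : ‖inK T J π' hd (RA T J π' hd (S.sup nn) (g a)) - inK T J π' hd a‖ < ε / 8 := by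
    rw [← map_sub, norm_inK]
    exact hg a ha
  have e2 : β' (α a) - inK T J π' hd a = β' (α (a - RA T J π' hd (S.sup nn) (g a))) +
      (β' (α (RA T J π' hd (S.sup nn) (g a))) -
        inK T J π' hd (RA T J π' hd (S.sup nn) (g a))) +
      (inK T J π' hd (RA T J π' hd (S.sup nn) (g a)) - inK T J π' hd a) := by
    rw [map_sub α, map_sub β']
    abel
  rw [e2]
  refine (norm_add₃_le).trans_lt ?_
  linarith

end approx

end Pool.Agent.H.MP_e11395_an.PB
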