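import Pool.Agent.H.MP_e11395_an.D.Step

/-!
# MP_e11395, part B: nonzero elements of the blocks are full in the limit
-/

set_option autoImplicit false
set_option linter.unusedSectionVars false

open Filter Topology

namespace Pool.Agent.H.MP_e11395_an

/-- `z` is in the algebraic ideal generated by `y`. -/
def FullGen {X : Type} [Ring X] (y z : X) : Prop :=
  ∃ (k : ℕ) (v w : Fin k → X), ∑ i, v i * y * w i = z

theorem FullGen.add {X : Type} [Ring X] {y z z' : X} (h : FullGen y z) (h' : FullGen y z') :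
    FullGen y (z + z') := by
  obtain ⟨k, v, w, rfl⟩ := h
  obtain ⟨k', v', w', rfl⟩ := h'
  refine ⟨k + k', Fin.append v v', Fin.append w w', ?_⟩
  rw [Fin.sum_univ_add]
  simp

theorem FullGen.left {X : Type} [Ring X] {y z : X} (h : FullGen y z) (u : X) : FullGen y (u * z) := by
  obtain ⟨k, v, w, rfl⟩ := h
  refine ⟨k, fun i => u * v i, w, ?_⟩
  rw [Finset.mul_sum]
  exact Finset.sum_congr rfl fun i _ => by simp only [mul_assoc]

theorem FullGen.of_mul {X : Type} [Ring X] {y z u : X} (h : FullGen (u * y) z) : FullGen y z := by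
  obtain ⟨k, v, w, rfl⟩ := h
  refine ⟨k, fun i => v i * u, w, ?_⟩
  exact Finset.sum_congr rfl fun i _ => by simp only [mul_assoc]

section units

variable {κ B : Type} [Fintype κ] [DecidableEq κ] [CStarAlgebra B]

/-- The matrix units. -/
def Full_unit (a b : κ) : Mt κ B := Mt.of fun i j => if i = a ∧ j = b then 1 else 0

theorem Full_unit_mul (a b c e : κ) (M : Mt κ B) (i j : κ) :
    (Full_unit a b * M * Full_unit c e : Mt κ B) i j = if i = a ∧ j = e then M b c else 0 := by
  rw [Mt.mul_apply]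
  have h1 : ∀ k, (Full_unit a b * M : Mt κ B) i k = if i = a then M b k else 0 := by
    intro k
    rw [Mt.mul_apply, Finset.sum_eq_single b]
    · by_cases h : i = a <;> simp [Full_unit, h]
    · intro l _ hl
      simp [Full_unit, hl]
    · intro h
      exact absurd (Finset.mem_univ _) h
  rw [Finset.sum_eq_single c]
  · rw [h1]
    by_cases h : i = a <;> by_cases h' : j = e <;> simp [Full_unit, h, h']
  · intro l _ hl
    simp [Full_unit, hl]
  · intro h
    exact absurd (Finset.mem_univ _) h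

theorem Full_sum_apply {σ : Type} (f : σ → Mt κ B) (s : Finset σ) (i j : κ) :
    (∑ x ∈ s, f x) i j = ∑ x ∈ s, f x i j := by
  classical
  induction s using Finset.induction_on with
  | empty => rw [Finset.sum_empty, Finset.sum_empty]; rfl
  | insert x s hx ih => rw [Finset.sum_insert hx, Finset.sum_insert hx, Mt.add_apply, ih]

theorem Full_units (M : Mt κ B) (b : κ) (h : M b b = 1) :
    ∑ a, (Full_unit a b * M * Full_unit b a : Mt κ B) = 1 := by
  refine Mt.ext fun i j => ?_
  rw [Full_sum_apply, Mt.one_apply]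
  simp only [Full_unit_mul, h]
  by_cases hij : i = j
  · subst hij
    simp
  · rw [if_neg hij]
    refine Finset.sum_eq_zero fun a _ => ?_
    rw [if_neg]
    rintro ⟨rfl, rfl⟩
    exact hij rfl

end units

/-! ### The scalar functions -/

/-- The cut-off of the transitional slots. -/
noncomputable def Full_c (x : unitInterval) : ℝ := max 0 (min 1 (8 * (x : ℝ) - 6))

theorem Full_c_cont : Continuous Full_c := by unfold Full_c; fun_prop

theorem Full_c_low {x : unitInterval} (h : (x : ℝ) ≤ 3 / 4) : Full_c x = 0 := by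
  unfold Full_c
  refine max_eq_left ((min_le_right _ _).trans ?_)
  linarith

theorem Full_c_high {x : unitInterval} (h : 7 / 8 ≤ (x : ℝ)) : Full_c x = 1 := by
  unfold Full_c
  rw [min_eq_left (by linarith), max_eq_right (by norm_num)]

/-- The bump at `0`. -/
noncomputable def Full_β (x : unitInterval) : ℝ := max 0 (3 / 4 - (x : ℝ))

/-- The bump at `1`. -/
noncomputable def Full_γ (x : unitInterval) : ℝ := max 0 ((x : ℝ) - 7 / 8)

/-- The bump in the middle. -/
noncomputable def Full_η (x : unitInterval) : ℝ := (x : ℝ) * (1 - x)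

theorem Full_β_cont : Continuous Full_β := by unfold Full_β; fun_prop
theorem Full_γ_cont : Continuous Full_γ := by unfold Full_γ; fun_prop
theorem Full_η_cont : Continuous Full_η := by unfold Full_η; fun_prop

theorem Full_pos (x : unitInterval) : 0 < Full_β x ^ 2 + Full_γ x ^ 2 + Full_η x ^ 2 := by
  have h0 := x.2.1
  have h1 := x.2.2
  have hb : 0 ≤ Full_β x := le_max_left _ _
  have hc : 0 ≤ Full_γ x := le_max_left _ _
  rcases eq_or_lt_of_le h0 with h | h
  · have : Full_β x = 3 / 4 := by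
      unfold Full_β
      rw [← h]
      norm_num
    rw [this]
    positivity
  · rcases eq_or_lt_of_le h1 with h' | h'
    · have : Full_γ x = 1 / 8 := by
        unfold Full_γ
        rw [h']
        norm_num
      rw [this]
      positivity
    · have : 0 < Full_η x := mul_pos h (by linarith)
      positivity

section blocks

variable {d : ℕ → ℕ} (T : TowerData d) {B : Type} [CStarAlgebra B]

/-- A scalar function times a constant matrix. -/
noncomputable def Full_fn {κ : Type} [Fintype κ] [DecidableEq κ] (φ : unitInterval → ℝ)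
    (hφ : Continuous φ) (M : Mt κ B) : C(unitInterval, Mt κ B) where
  toFun x := (φ x : ℂ) • M
  continuous_toFun := by
    have : Continuous fun x => (φ x : ℂ) := Complex.continuous_ofReal.comp hφ
    exact this.smul continuous_const

theorem Full_fn_apply {κ : Type} [Fintype κ] [DecidableEq κ] (φ : unitInterval → ℝ)
    (hφ : Continuous φ) (M : Mt κ B) (x : unitInterval) :
    Full_fn φ hφ M x = (φ x : ℂ) • M := rfl

theorem Full_mem_left {n : ℕ} (φ : unitInterval → ℝ) (hφ : Continuous φ) (h1 : φ 1 = 0)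
    (g : Mt (Fin (T.p n)) B) : Full_fn φ hφ (Mt.amp (T.e₀ n) g) ∈ T.Bl B n := by
  rw [TowerData.mem_Bl]
  refine ⟨⟨(φ 0 : ℂ) • g, ?_⟩, ⟨0, ?_⟩⟩
  · rw [map_smul, Full_fn_apply]
  · rw [map_zero, Full_fn_apply, h1, Complex.ofReal_zero, zero_smul]

theorem Full_mem_right {n : ℕ} (φ : unitInterval → ℝ) (hφ : Continuous φ) (h0 : φ 0 = 0)
    (g : Mt (Fin (T.q n)) B) : Full_fn φ hφ (Mt.amp (T.e₁ n) g) ∈ T.Bl B n := by
  rw [TowerData.mem_Bl]
  refine ⟨⟨0, ?_⟩, ⟨(φ 1 : ℂ) • g, ?_⟩⟩
  · rw [map_zero, Full_fn_apply, h0, Complex.ofReal_zero, zero_smul]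
  · rw [map_smul, Full_fn_apply]

theorem Full_mem_mid {n : ℕ} (φ : unitInterval → ℝ) (hφ : Continuous φ) (h0 : φ 0 = 0)
    (h1 : φ 1 = 0) (M : Mt (Fin (T.r n)) B) : Full_fn φ hφ M ∈ T.Bl B n := by
  rw [TowerData.mem_Bl]
  refine ⟨⟨0, ?_⟩, ⟨0, ?_⟩⟩
  · rw [map_zero, Full_fn_apply, h0, Complex.ofReal_zero, zero_smul]
  · rw [map_zero, Full_fn_apply, h1, Complex.ofReal_zero, zero_smul]

theorem Full_mem_one {n : ℕ} (φ : unitInterval → ℝ) (hφ : Continuous φ) :
    Full_fn φ hφ (1 : Mt (Fin (T.r n)) B) ∈ T.Bl B n := by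
  rw [TowerData.mem_Bl]
  refine ⟨⟨(φ 0 : ℂ) • 1, ?_⟩, ⟨(φ 1 : ℂ) • 1, ?_⟩⟩
  · rw [map_smul, map_one, Full_fn_apply]
  · rw [map_smul, map_one, Full_fn_apply]

/-- `slot 0 N (c N)` as a function. -/
noncomputable def Full_F (n : ℕ) (N : Mt (Fin (d (T.sel n)) × Fin (T.p n * T.q n)) B) :
    C(unitInterval, Mt (Fin (T.r (n + 1))) B) where
  toFun x := Mt.reindex (T.E n) (slot (T.m n) (T.q (n + 1)) (T.p (n + 1) - T.q (n + 1))
    (0 : Mt (Fin (T.p n * T.q n)) B) N ((Full_c x : ℂ) • N))
  continuous_toFun := by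
    have h1 : Continuous fun x : unitInterval =>
        slot (T.m n) (T.q (n + 1)) (T.p (n + 1) - T.q (n + 1))
          (0 : Mt (Fin (T.p n * T.q n)) B) N ((Full_c x : ℂ) • N) := by
      refine Conn_slot_cont _ _ _ continuous_const continuous_const ?_
      have : Continuous fun x => (Full_c x : ℂ) := Complex.continuous_ofReal.comp Full_c_cont
      exact this.smul continuous_const
    rw [Mt.continuous_iff]
    intro i j
    exact (Mt.continuous_iff.1 h1) _ _

theorem Full_F_apply (n : ℕ) (N : Mt (Fin (d (T.sel n)) × Fin (T.p n * T.q n)) B)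
    (x : unitInterval) : Full_F T n N x =
      Mt.reindex (T.E n) (slot (T.m n) (T.q (n + 1)) (T.p (n + 1) - T.q (n + 1))
        (0 : Mt (Fin (T.p n * T.q n)) B) N ((Full_c x : ℂ) • N)) := rfl

theorem Full_F_low (n : ℕ) (N : Mt (Fin (d (T.sel n)) × Fin (T.p n * T.q n)) B)
    {x : unitInterval} (h : (x : ℝ) ≤ 3 / 4) : Full_F T n N x =
      Mt.amp (T.e₀ (n + 1)) (Mt.reindex (T.Z₀ n) (two (T.μ₀ n) 0 N)) := by
  rw [Full_F_apply, Full_c_low h, ← T.compat₀ n B 0 N, map_zero, map_zero, Complex.ofReal_zero,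
    zero_smul]

theorem Full_F_high (n : ℕ) (N : Mt (Fin (d (T.sel n)) × Fin (T.p n * T.q n)) B)
    {x : unitInterval} (h : 7 / 8 ≤ (x : ℝ)) : Full_F T n N x =
      Mt.amp (T.e₁ (n + 1)) (Mt.reindex (T.Z₁ n) (two (T.μ₁ n) 0 N)) := by
  rw [Full_F_apply, Full_c_high h, ← T.compat₁ n B 0 N, map_zero, Complex.ofReal_one, one_smul]

theorem Full_F_mem (n : ℕ) (N : Mt (Fin (d (T.sel n)) × Fin (T.p n * T.q n)) B) :
    Full_F T n N ∈ T.Bl B (n + 1) := by
  rw [TowerData.mem_Bl]
  exact ⟨⟨_, (Full_F_low T n N (by simp; norm_num)).symm⟩,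
    ⟨_, (Full_F_high T n N (by simp; norm_num)).symm⟩⟩

theorem Full_β_one : Full_β 1 = 0 := by unfold Full_β; norm_num
theorem Full_γ_zero : Full_γ 0 = 0 := by unfold Full_γ; norm_num
theorem Full_η_zero : Full_η 0 = 0 := by unfold Full_η; norm_num
theorem Full_η_one : Full_η 1 = 0 := by unfold Full_η; norm_num

/-- The element `φ · 1`. -/
noncomputable def Full_sc (n : ℕ) (φ : unitInterval → ℝ) (hφ : Continuous φ) : T.Bk B n :=
  TowerData.Bk.mk (Full_fn φ hφ (1 : Mt (Fin (T.r n)) B)) (Full_mem_one T φ hφ)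

theorem Full_val_sum {n : ℕ} {σ : Type} (s : Finset σ) (f : σ → T.Bk B n) (x : unitInterval) :
    (∑ i ∈ s, f i).val x = ∑ i ∈ s, (f i).val x := by
  classical
  induction s using Finset.induction_on with
  | empty => rw [Finset.sum_empty, Finset.sum_empty]; rfl
  | insert a s ha ih =>
    rw [Finset.sum_insert ha, Finset.sum_insert ha, TowerData.Bk.val_add,
      ContinuousMap.add_apply, ih]

theorem Full_smul3 {κ : Type} [Fintype κ] [DecidableEq κ] (c : ℂ) (X Y Z : Mt κ B) :
    (c • X) * Y * (c • Z) = (c ^ 2) • (X * Y * Z) := by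
  rw [smul_mul_assoc, smul_mul_assoc, mul_smul_comm, smul_smul, sq]

variable (n : ℕ) (N : Mt (Fin (d (T.sel n)) × Fin (T.p n * T.q n)) B)
  (β : Fin (d (T.sel n)) × Fin (T.p n * T.q n)) (hN : N β β = 1)

include hN

theorem Full_gen_low : FullGen (TowerData.Bk.mk (Full_F T n N) (Full_F_mem T n N))
    (Full_sc T (n + 1) (fun x => Full_β x ^ 2) (Full_β_cont.pow 2)) := by
  set z := T.Z₀ n (Sum.inr β) with hz
  have hK : (Mt.reindex (T.Z₀ n) (two (T.μ₀ n) (0 : Mt (Fin (T.p n)) B) N)) z z = 1 := by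
    rw [Mt.reindex_apply, hz, Equiv.symm_apply_apply]
    exact hN
  refine ⟨T.p (n + 1),
    fun a => TowerData.Bk.mk _ (Full_mem_left T Full_β Full_β_cont Full_β_one (Full_unit a z)),
    fun a => TowerData.Bk.mk _ (Full_mem_left T Full_β Full_β_cont Full_β_one (Full_unit z a)),
    ?_⟩
  apply TowerData.Bk.ext
  refine ContinuousMap.ext fun x => ?_
  rw [Full_val_sum]
  simp only [TowerData.Bk.val_mul, ContinuousMap.mul_apply, TowerData.Bk.val_mk, Full_fn_apply,
    Full_sc, Full_smul3]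
  by_cases hx : (x : ℝ) ≤ 3 / 4
  · rw [Full_F_low T n N hx]
    simp only [← map_mul]
    rw [← Finset.smul_sum, ← map_sum, Full_units _ z hK, map_one, Complex.ofReal_pow]
  · have h0 : Full_β x = 0 := by
      unfold Full_β
      exact max_eq_left (by linarith)
    rw [h0]
    simp

theorem Full_gen_high : FullGen (TowerData.Bk.mk (Full_F T n N) (Full_F_mem T n N))
    (Full_sc T (n + 1) (fun x => Full_γ x ^ 2) (Full_γ_cont.pow 2)) := by
  set z := T.Z₁ n (Sum.inr β) with hz
  have hK : (Mt.reindex (T.Z₁ n) (two (T.μ₁ n) (0 : Mt (Fin (T.q n)) B) N)) z z = 1 := by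
    rw [Mt.reindex_apply, hz, Equiv.symm_apply_apply]
    exact hN
  refine ⟨T.q (n + 1),
    fun a => TowerData.Bk.mk _ (Full_mem_right T Full_γ Full_γ_cont Full_γ_zero (Full_unit a z)),
    fun a => TowerData.Bk.mk _ (Full_mem_right T Full_γ Full_γ_cont Full_γ_zero (Full_unit z a)),
    ?_⟩
  apply TowerData.Bk.ext
  refine ContinuousMap.ext fun x => ?_
  rw [Full_val_sum]
  simp only [TowerData.Bk.val_mul, ContinuousMap.mul_apply, TowerData.Bk.val_mk, Full_fn_apply,
    Full_sc, Full_smul3]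
  by_cases hx : 7 / 8 ≤ (x : ℝ)
  · rw [Full_F_high T n N hx]
    simp only [← map_mul]
    rw [← Finset.smul_sum, ← map_sum, Full_units _ z hK, map_one, Complex.ofReal_pow]
  · have h0 : Full_γ x = 0 := by
      unfold Full_γ
      exact max_eq_left (by linarith)
    rw [h0]
    simp

theorem Full_gen_mid : FullGen (TowerData.Bk.mk (Full_F T n N) (Full_F_mem T n N))
    (Full_sc T (n + 1) (fun x => Full_η x ^ 2) (Full_η_cont.pow 2)) := by
  set z := T.E n (Sum.inr (Sum.inl (⟨0, T.q_pos (n + 1)⟩, β))) with hz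
  have hK : ∀ x, Full_F T n N x z z = 1 := by
    intro x
    rw [Full_F_apply, Mt.reindex_apply, hz, Equiv.symm_apply_apply, Slot_bb, if_pos rfl]
    exact hN
  refine ⟨T.r (n + 1),
    fun a => TowerData.Bk.mk _
      (Full_mem_mid T Full_η Full_η_cont Full_η_zero Full_η_one (Full_unit a z)),
    fun a => TowerData.Bk.mk _
      (Full_mem_mid T Full_η Full_η_cont Full_η_zero Full_η_one (Full_unit z a)),
    ?_⟩
  apply TowerData.Bk.ext
  refine ContinuousMap.ext fun x => ?_
  rw [Full_val_sum]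
  simp only [TowerData.Bk.val_mul, ContinuousMap.mul_apply, TowerData.Bk.val_mk, Full_fn_apply,
    Full_sc, Full_smul3]
  rw [← Finset.smul_sum, Full_units _ z (hK x), Complex.ofReal_pow]

theorem Full_gen_one : FullGen (TowerData.Bk.mk (Full_F T n N) (Full_F_mem T n N))
    (1 : T.Bk B (n + 1)) := by
  have h := ((Full_gen_low T n N β hN).add (Full_gen_high T n N β hN)).add
    (Full_gen_mid T n N β hN)
  have hc : Continuous fun x => (Full_β x ^ 2 + Full_γ x ^ 2 + Full_η x ^ 2)⁻¹ :=
    (((Full_β_cont.pow 2).add (Full_γ_cont.pow 2)).add (Full_η_cont.pow 2)).inv₀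
      fun x => (Full_pos x).ne'
  have h2 := h.left (Full_sc T (n + 1) _ hc)
  convert h2 using 1
  apply TowerData.Bk.ext
  refine ContinuousMap.ext fun x => ?_
  simp only [TowerData.Bk.val_mul, TowerData.Bk.val_add, ContinuousMap.mul_apply,
    ContinuousMap.add_apply, TowerData.Bk.val_mk, Full_fn_apply, Full_sc, TowerData.Bk.val_one,
    ContinuousMap.one_apply]
  rw [← add_smul, ← add_smul, smul_mul_assoc, one_mul, smul_smul, ← Complex.ofReal_add,
    ← Complex.ofReal_add, ← Complex.ofReal_mul, inv_mul_cancel₀ (Full_pos x).ne',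
    Complex.ofReal_one, one_smul]

end blocks

variable {d : ℕ → ℕ} (T : TowerData d) {B : Type} [CStarAlgebra B] (C : ConeAlg d B)

theorem Full_cpath_high (k : ℕ) (ξ x : unitInterval) {ι : Type} [Fintype ι] [DecidableEq ι]
    (f : C(unitInterval, Mt ι B)) (h : 3 / 4 ≤ (x : ℝ)) :
    cpath C k ξ x f = piAmp (C.π k) (f ξ) := by
  have hc : cPar x = 1 := by
    unfold cPar
    exact Set.projIcc_of_right_le zero_le_one (by linarith)
  unfold cpath
  rw [if_neg (by linarith), hc, TowerData.Tower_map_h_one]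

/-- One step: an element whose finite dimensional representation at the chosen point does not
vanish becomes full. -/
theorem Full_step (n : ℕ) (f : T.Bk B n) (i j : Fin (T.r n)) (s t : Fin (d (T.sel n)))
    (h : C.π (T.sel n) (f.val (T.ξ n) i j) s t ≠ 0) : FullGen (T.Φ C n f) 1 := by
  set κ : ℂ := C.π (T.sel n) (f.val (T.ξ n) i j) s t with hκ
  set P : Mt (Fin (d (T.sel n)) × Fin (T.p n * T.q n)) B :=
    piAmp (C.π (T.sel n)) (f.val (T.ξ n)) with hP
  set U : Mt (Fin (d (T.sel n)) × Fin (T.p n * T.q n)) B :=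
    κ⁻¹ • Full_unit (t, j) (s, i) with hU
  have hN : (U * P) (t, j) (t, j) = 1 := by
    rw [hU, smul_mul_assoc, Mt.smul_apply, Mt.mul_apply, Finset.sum_eq_single (s, i)]
    · rw [hP, piAmp_apply]
      simp only [Full_unit, Mt.of_apply, and_self, if_true, one_mul]
      rw [← hκ, Algebra.algebraMap_eq_smul_one, smul_smul, inv_mul_cancel₀ h, one_smul]
    · intro l _ hl
      simp [Full_unit, hl]
    · intro h
      exact absurd (Finset.mem_univ _) h
  have key := Full_gen_one T n (U * P) (t, j) hN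
  have he : TowerData.Bk.mk (Full_F T n (U * P)) (Full_F_mem T n (U * P)) =
      TowerData.Bk.mk (Full_F T n U) (Full_F_mem T n U) * T.Φ C n f := by
    apply TowerData.Bk.ext
    refine ContinuousMap.ext fun x => ?_
    rw [TowerData.Bk.val_mul, ContinuousMap.mul_apply, TowerData.Bk.val_mk, TowerData.Bk.val_mk,
      TowerData.Φ_val, TowerData.PhiC_apply, Full_F_apply, Full_F_apply, ← map_mul, ← slot_mul,
      zero_mul]
    congr 2
    rcases le_total (x : ℝ) (3 / 4) with hx | hx
    · rw [Full_c_low hx]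
      simp
    · rw [Full_cpath_high C _ _ _ _ hx]
      exact (smul_mul_assoc (Full_c x : ℂ) U P).symm
  rw [he] at key
  exact key.of_mul

theorem Full_iter_corner (n m : ℕ) (f : T.Bk B n) (i j : Fin (T.r n)) :
    ∃ i' j' : Fin (T.r (n + m)), ∀ x, (T.iter C n m f).val x i' j' = f.val x i j := by
  induction m with
  | zero => exact ⟨i, j, fun x => rfl⟩
  | succ m ih =>
    obtain ⟨i', j', hij⟩ := ih
    refine ⟨T.E (n + m) (Sum.inl (⟨0, T.m_pos (n + m)⟩, i')),
      T.E (n + m) (Sum.inl (⟨0, T.m_pos (n + m)⟩, j')), fun x => ?_⟩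
    rw [← hij x]
    change ((T.Φ C (n + m) (T.iter C n m f)).val x : Mt (Fin (T.r (n + m + 1))) B) _ _ = _
    rw [TowerData.Φ_val, TowerData.PhiC_apply, Mt.reindex_apply, Equiv.symm_apply_apply,
      Equiv.symm_apply_apply, Slot_aa, if_pos rfl]

/-- Nonzero elements of the blocks are full in the limit. -/
theorem block_full (_hd : ∀ k, 0 < d k) (hs : C.Sep) {A : Type} [CStarAlgebra A]
    {R : ∀ n, T.Bk B n →⋆ₐ[ℂ] A} (lim : T.IsLimit C A R) (n : ℕ) (y : T.Bk B n) (hy : y ≠ 0) :
    ∃ (k : ℕ) (v w : Fin k → A), ∑ i, v i * R n y * w i = 1 := by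
  -- a point, an entry and a representation
  obtain ⟨x, i, j, hxij⟩ : ∃ x i j, y.val x i j ≠ 0 := by
    by_contra hcon
    push Not at hcon
    apply hy
    apply TowerData.Bk.ext
    exact ContinuousMap.ext fun x => Mt.ext fun i j => hcon x i j
  obtain ⟨k, hk⟩ : ∃ k, C.π k (y.val x i j) ≠ 0 := by
    by_contra hcon
    push Not at hcon
    exact hxij (hs _ hcon)
  obtain ⟨s, t, hst⟩ : ∃ s t, C.π k (y.val x i j) s t ≠ 0 := by
    by_contra hcon
    push Not at hcon
    exact hk (Mt.ext fun s t => hcon s t)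
  have hcont : Continuous fun x' : unitInterval => C.π k (y.val x' i j) s t := by
    have h0 : Continuous (C.π k) := by
      refine AddMonoidHomClass.continuous_of_bound (C.π k) 1 fun x => ?_
      rw [one_mul]
      exact NonUnitalStarAlgHom.norm_apply_le (C.π k) x
    exact (Mt.continuous_entry s t).comp
      (h0.comp ((Mt.continuous_entry i j).comp y.val.continuous))
  obtain ⟨δ, hδ, hball⟩ := Metric.continuous_iff.1 hcont x ‖C.π k (y.val x i j) s t‖
    (norm_pos_iff.2 hst)
  obtain ⟨m, hm, hsel, hξ⟩ := T.recur k x δ hδ n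
  obtain ⟨l, rfl⟩ := Nat.exists_eq_add_of_le hm
  have hne : C.π k (y.val (T.ξ (n + l)) i j) s t ≠ 0 := by
    intro h0
    have h1 := hball (T.ξ (n + l)) (by
      rw [Subtype.dist_eq, Real.dist_eq]
      exact hξ)
    rw [h0, dist_zero_left] at h1
    exact lt_irrefl _ h1
  obtain ⟨i', j', hij⟩ := Full_iter_corner T C n l y i j
  subst hsel
  have hne' : C.π (T.sel (n + l)) ((T.iter C n l y).val (T.ξ (n + l)) i' j') s t ≠ 0 := by
    rw [hij]
    exact hne
  obtain ⟨K, v, w, hvw⟩ := Full_step T C (n + l) (T.iter C n l y) i' j' s t hne'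
  refine ⟨K, fun a => R (n + l + 1) (v a), fun a => R (n + l + 1) (w a), ?_⟩
  have h1 := congrArg (R (n + l + 1)) hvw
  rw [map_sum, map_one] at h1
  simp only [map_mul] at h1
  rw [lim.compat, lim.iter] at h1
  exact h1

end Pool.Agent.H.MP_e11395_an
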