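import Mathlib

/-!
# MP_e11395, part B: strong limits of compatible representations

`P n` are projections increasing strongly to `1`, `ρ n : X n →⋆ₙₐ B(K)` with `ρ n 1 = P n` and
`ρ (n+1) (Φ n a) * P n = ρ n a`. Then there are unital *-homomorphisms `R n : X n →⋆ₐ B(K)` with
`R (n+1) (Φ n a) = R n a` and `R n a * P n = ρ n a`.
-/

set_option autoImplicit false
set_option linter.unusedSectionVars false

open Filter Topology

open scoped InnerProductSpace

namespace Pool.Agent.H.MP_e11395_an.PB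

section Trans

variable {X : ℕ → Type} [∀ n, CStarAlgebra (X n)] (Φ : ∀ n, X n →⋆ₐ[ℂ] X (n + 1))

/-- The composition of the connecting maps. -/
def tr (n : ℕ) {m : ℕ} (h : n ≤ m) : X n →⋆ₐ[ℂ] X m :=
  Nat.leRec (motive := fun m _ => X n →⋆ₐ[ℂ] X m) (StarAlgHom.id ℂ (X n))
    (fun k _ f => (Φ k).comp f) h

@[simp] theorem tr_self (n : ℕ) : tr Φ n (le_refl n) = StarAlgHom.id ℂ (X n) := by
  rw [tr, Nat.leRec_self]

theorem tr_succ (n : ℕ) {m : ℕ} (h : n ≤ m) (h' : n ≤ m + 1) :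
    tr Φ n h' = (Φ m).comp (tr Φ n h) := by
  rw [tr, Nat.leRec_succ _ _ h]
  rfl

theorem tr_succ_apply (n : ℕ) {m : ℕ} (h : n ≤ m) (h' : n ≤ m + 1) (a : X n) :
    tr Φ n h' a = Φ m (tr Φ n h a) := by
  rw [tr_succ Φ n h h']
  rfl

theorem tr_Φ (n : ℕ) {m : ℕ} (h : n + 1 ≤ m) (a : X n) :
    tr Φ (n + 1) h (Φ n a) = tr Φ n ((Nat.le_succ n).trans h) a := by
  induction m, h using Nat.le_induction with
  | base =>
    rw [tr_self, tr_succ_apply Φ n (le_refl n), tr_self]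
    rfl
  | succ m hm ih =>
    rw [tr_succ_apply Φ (n + 1) hm, ih, ← tr_succ_apply Φ n ((Nat.le_succ n).trans hm)]

end Trans

section Lim

variable {X : ℕ → Type} [∀ n, CStarAlgebra (X n)] (Φ : ∀ n, X n →⋆ₐ[ℂ] X (n + 1))
  {K : Type} [NormedAddCommGroup K] [InnerProductSpace ℂ K] [CompleteSpace K]
  (P : ℕ → K →L[ℂ] K) (ρ : ∀ n, X n →⋆ₙₐ[ℂ] (K →L[ℂ] K))

/-- Compatible non unital representations. -/
structure Compat : Prop where
  tend : ∀ v, Tendsto (fun n => P n v) atTop (𝓝 v)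
  one : ∀ n, ρ n 1 = P n
  step : ∀ n a, ρ (n + 1) (Φ n a) * P n = ρ n a

variable {Φ P ρ}

namespace Compat

theorem norm_le (n : ℕ) (a : X n) : ‖ρ n a‖ ≤ ‖a‖ :=
  NonUnitalStarAlgHom.norm_apply_le (ρ n) a

theorem P_idem (h : Compat Φ P ρ) (n : ℕ) : P n * P n = P n := by
  rw [← h.one, ← map_mul, mul_one]

theorem ρ_mul_P (h : Compat Φ P ρ) (n : ℕ) (a : X n) : ρ n a * P n = ρ n a := by
  rw [← h.one, ← map_mul, mul_one]

theorem P_mul_ρ (h : Compat Φ P ρ) (n : ℕ) (a : X n) : P n * ρ n a = ρ n a := by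
  rw [← h.one, ← map_mul, one_mul]

theorem P_mul_P (h : Compat Φ P ρ) {n m : ℕ} (hnm : n ≤ m) : P m * P n = P n := by
  induction m, hnm using Nat.le_induction with
  | base => exact h.P_idem n
  | succ m hm ih =>
    have h1 : P (m + 1) * P m = P m := by
      have := h.step m 1
      rwa [map_one, h.one, h.one] at this
    rw [← ih, ← mul_assoc, h1]

theorem step' (h : Compat Φ P ρ) {n m l : ℕ} (hnm : n ≤ m) (hml : m ≤ l) (a : X n) :
    ρ l (tr Φ n (hnm.trans hml) a) * P m = ρ m (tr Φ n hnm a) := by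
  induction l, hml using Nat.le_induction with
  | base => exact h.ρ_mul_P _ _
  | succ l hl ih =>
    rw [tr_succ_apply Φ n (hnm.trans hl), ← h.P_mul_P hl, ← mul_assoc, h.step, ih]

/-- The approximants. -/
noncomputable def ap (Φ : ∀ n, X n →⋆ₐ[ℂ] X (n + 1)) (ρ : ∀ n, X n →⋆ₙₐ[ℂ] (K →L[ℂ] K)) (n : ℕ)
    (a : X n) (m : ℕ) : K →L[ℂ] K :=
  if h : n ≤ m then ρ m (tr Φ n h a) else 0

theorem ap_of_le {n m : ℕ} (h : n ≤ m) (a : X n) : ap Φ ρ n a m = ρ m (tr Φ n h a) := dif_pos h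

theorem norm_ap_le (n : ℕ) (a : X n) (m : ℕ) : ‖ap Φ ρ n a m‖ ≤ ‖a‖ := by
  rw [ap]
  split_ifs with h
  · exact (norm_le _ _).trans (NonUnitalStarAlgHom.norm_apply_le _ _)
  · simp

theorem ap_mul_P (h : Compat Φ P ρ) {n m l : ℕ} (hnm : n ≤ m) (hml : m ≤ l) (a : X n) :
    ap Φ ρ n a l * P m = ap Φ ρ n a m := by
  rw [ap_of_le (hnm.trans hml), ap_of_le hnm, h.step' hnm hml]

theorem exists_lim (h : Compat Φ P ρ) (n : ℕ) (a : X n) (v : K) :
    ∃ w, Tendsto (fun m => ap Φ ρ n a m v) atTop (𝓝 w) := by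
  apply cauchySeq_tendsto_of_complete
  rw [Metric.cauchySeq_iff']
  intro ε hε
  have h1 := Metric.tendsto_atTop.1 (h.tend v) (ε / (‖a‖ + 1)) (by positivity)
  obtain ⟨N, hN⟩ := h1
  refine ⟨max N n, fun m hm => ?_⟩
  have e1 : ap Φ ρ n a (max N n) v = ap Φ ρ n a m (P (max N n) v) := by
    rw [← h.ap_mul_P (le_max_right N n) hm]
    rfl
  rw [dist_eq_norm, e1, ← map_sub]
  refine ((ap Φ ρ n a m).le_opNorm _).trans_lt ?_
  have h2 := hN (max N n) (le_max_left _ _)
  rw [dist_comm, dist_eq_norm] at h2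
  calc ‖ap Φ ρ n a m‖ * ‖v - P (max N n) v‖ ≤ ‖a‖ * ‖v - P (max N n) v‖ :=
        mul_le_mul_of_nonneg_right (norm_ap_le n a m) (norm_nonneg _)
    _ ≤ (‖a‖ + 1) * ‖v - P (max N n) v‖ := by
        have := norm_nonneg (v - P (max N n) v)
        nlinarith
    _ < (‖a‖ + 1) * (ε / (‖a‖ + 1)) := by
        have : 0 < ‖a‖ + 1 := by positivity
        exact mul_lt_mul_of_pos_left h2 this
    _ = ε := by
        have : ‖a‖ + 1 ≠ 0 := by positivity
        field_simp

/-- The strong limit. -/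
noncomputable def Rop (h : Compat Φ P ρ) (n : ℕ) (a : X n) : K →L[ℂ] K :=
  continuousLinearMapOfTendsto (l := atTop) (fun m => ap Φ ρ n a m)
    (f := fun v => (h.exists_lim n a v).choose)
    (tendsto_pi_nhds.2 fun v => (h.exists_lim n a v).choose_spec)

theorem tendsto_Rop (h : Compat Φ P ρ) (n : ℕ) (a : X n) (v : K) :
    Tendsto (fun m => ap Φ ρ n a m v) atTop (𝓝 (h.Rop n a v)) :=
  (h.exists_lim n a v).choose_spec

theorem Rop_eq (h : Compat Φ P ρ) (n : ℕ) (a : X n) (v w : K)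
    (hw : Tendsto (fun m => ap Φ ρ n a m v) atTop (𝓝 w)) : h.Rop n a v = w :=
  tendsto_nhds_unique (h.tendsto_Rop n a v) hw

/-- The limit representation. -/
noncomputable def R (h : Compat Φ P ρ) (n : ℕ) : X n →⋆ₐ[ℂ] (K →L[ℂ] K) where
  toFun a := h.Rop n a
  map_one' := by
    ext1 v
    refine h.Rop_eq n 1 v _ ?_
    refine Tendsto.congr' ?_ (h.tend v)
    filter_upwards [eventually_ge_atTop n] with m hm
    rw [ap_of_le hm, map_one, h.one]
  map_mul' a b := by
    ext1 v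
    refine h.Rop_eq n (a * b) v _ ?_
    have e : (fun m => ap Φ ρ n (a * b) m v) =ᶠ[atTop] fun m => ap Φ ρ n a m (ap Φ ρ n b m v) := by
      filter_upwards [eventually_ge_atTop n] with m hm
      rw [ap_of_le hm, ap_of_le hm, ap_of_le hm, map_mul, map_mul]
      rfl
    refine Tendsto.congr' e.symm ?_
    change Tendsto _ _ (𝓝 (h.Rop n a (h.Rop n b v)))
    have h1 := h.tendsto_Rop n a (h.Rop n b v)
    have h2 : Tendsto (fun m => ap Φ ρ n a m (ap Φ ρ n b m v - h.Rop n b v)) atTop (𝓝 0) := by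
      have h3 : Tendsto (fun m => ‖a‖ * ‖ap Φ ρ n b m v - h.Rop n b v‖) atTop (𝓝 0) := by
        have h4 : Tendsto (fun m => ap Φ ρ n b m v - h.Rop n b v) atTop (𝓝 0) := by
          have := (h.tendsto_Rop n b v).sub_const (h.Rop n b v)
          rwa [sub_self] at this
        have h5 := h4.norm.const_mul ‖a‖
        simpa using h5
      refine squeeze_zero_norm (fun m => ?_) h3
      exact ((ap Φ ρ n a m).le_opNorm _).trans
        (mul_le_mul_of_nonneg_right (norm_ap_le n a m) (norm_nonneg _))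
    have h6 := h1.add h2
    rw [add_zero] at h6
    refine h6.congr fun m => ?_
    rw [map_sub]
    abel
  map_zero' := by
    ext1 v
    refine h.Rop_eq n 0 v _ ?_
    have e : (fun m => ap Φ ρ n 0 m v) = fun _ => (0 : K) := by
      funext m
      rw [ap]
      split_ifs <;> simp
    rw [e]
    exact tendsto_const_nhds
  map_add' a b := by
    ext1 v
    refine h.Rop_eq n (a + b) v _ ?_
    have h1 := (h.tendsto_Rop n a v).add (h.tendsto_Rop n b v)
    refine h1.congr fun m => ?_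
    rw [ap, ap, ap]
    split_ifs <;> simp
  commutes' c := by
    ext1 v
    refine h.Rop_eq n _ v _ ?_
    have h1 : Tendsto (fun m => c • P m v) atTop (𝓝 (c • v)) := (h.tend v).const_smul c
    refine Tendsto.congr' ?_ h1
    filter_upwards [eventually_ge_atTop n] with m hm
    rw [ap_of_le hm, Algebra.algebraMap_eq_smul_one, map_smul, map_smul, map_one, h.one]
    rfl
  map_star' a := by
    rw [ContinuousLinearMap.star_eq_adjoint, ContinuousLinearMap.eq_adjoint_iff]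
    intro v w
    have h1 : Tendsto (fun m => ⟪ap Φ ρ n (star a) m v, w⟫_ℂ) atTop
        (𝓝 ⟪h.Rop n (star a) v, w⟫_ℂ) :=
      (h.tendsto_Rop n (star a) v).inner tendsto_const_nhds
    have h2 : Tendsto (fun m => ⟪v, ap Φ ρ n a m w⟫_ℂ) atTop (𝓝 ⟪v, h.Rop n a w⟫_ℂ) :=
      tendsto_const_nhds.inner (h.tendsto_Rop n a w)
    refine tendsto_nhds_unique h1 (h2.congr fun m => ?_)
    rw [ap, ap]
    split_ifs with hm
    · rw [map_star, map_star, ContinuousLinearMap.star_eq_adjoint,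
        ContinuousLinearMap.adjoint_inner_left]
    · simp

theorem R_mul_P (h : Compat Φ P ρ) {n m : ℕ} (hnm : n ≤ m) (a : X n) :
    h.R n a * P m = ρ m (tr Φ n hnm a) := by
  ext1 v
  refine h.Rop_eq n a (P m v) _ ?_
  have e : (fun l => ap Φ ρ n a l (P m v)) =ᶠ[atTop] fun _ => ρ m (tr Φ n hnm a) v := by
    filter_upwards [eventually_ge_atTop m] with l hl
    have := h.ap_mul_P hnm hl a
    rw [← ap_of_le hnm, ← this]
    rfl
  exact Tendsto.congr' e.symm tendsto_const_nhds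

theorem R_mul_P' (h : Compat Φ P ρ) (n : ℕ) (a : X n) : h.R n a * P n = ρ n a := by
  rw [h.R_mul_P (le_refl n), tr_self]
  rfl

theorem R_Φ (h : Compat Φ P ρ) (n : ℕ) (a : X n) : h.R (n + 1) (Φ n a) = h.R n a := by
  ext1 v
  refine h.Rop_eq (n + 1) (Φ n a) v _ ?_
  refine Tendsto.congr' ?_ (h.tendsto_Rop n a v)
  filter_upwards [eventually_ge_atTop (n + 1)] with m hm
  rw [ap_of_le hm, ap_of_le ((Nat.le_succ n).trans hm), tr_Φ]

theorem R_tr (h : Compat Φ P ρ) {n m : ℕ} (hnm : n ≤ m) (a : X n) :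
    h.R m (tr Φ n hnm a) = h.R n a := by
  induction m, hnm using Nat.le_induction with
  | base => rw [tr_self]; rfl
  | succ m hm ih => rw [tr_succ_apply Φ n hm, h.R_Φ, ih]

theorem R_injective (h : Compat Φ P ρ) (n : ℕ) (hρ : Function.Injective (ρ n)) :
    Function.Injective (h.R n) := by
  intro a b hab
  apply hρ
  rw [← h.R_mul_P', ← h.R_mul_P', hab]

end Compat

end Lim

end Pool.Agent.H.MP_e11395_an.PB
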