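import Pool.Agent.H.MP_e11395_an.Mt
import Pool.Agent.H.MP_e11395_an.B.Diag

/-!
# MP_e11395, part B: `r × r` matrices over `X` acting on `ℓ²(ℕ; H)`
-/

set_option autoImplicit false
set_option linter.unusedSectionVars false

open Filter Topology

open scoped InnerProductSpace ENNReal

namespace Pool.Agent.H.MP_e11395_an.PB

section Mrep

variable {H : Type} [NormedAddCommGroup H] [InnerProductSpace ℂ H] [CompleteSpace H]

/-- The Hilbert space `ℓ²(ℕ; H)`. -/
abbrev HN (H : Type) [NormedAddCommGroup H] [InnerProductSpace ℂ H] : Type :=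
  lp (fun _ : ℕ => H) 2

/-- The inclusion of the `i`-th coordinate. -/
noncomputable def sg (i : ℕ) : H →L[ℂ] HN H :=
  lp.singleContinuousLinearMap ℂ (fun _ : ℕ => H) 2 i

theorem sg_apply (i : ℕ) (v : H) (j : ℕ) : (sg i v : HN H) j = if j = i then v else 0 := by
  change (lp.single 2 i v : lp (fun _ : ℕ => H) 2) j = _
  rw [lp.single_apply]
  split_ifs with h
  · subst h; simp
  · simp [h]

/-- The `i`-th coordinate. -/
noncomputable def cd (i : ℕ) : HN H →L[ℂ] H := ContinuousLinearMap.adjoint (sg i)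

theorem cd_apply (i : ℕ) (v : HN H) : cd i v = v i := by
  refine ext_inner_right ℂ fun w => ?_
  rw [cd, ContinuousLinearMap.adjoint_inner_left]
  exact lp.inner_single_right (𝕜 := ℂ) (G := fun _ : ℕ => H) i w v

theorem cd_comp_sg (i j : ℕ) : (cd i).comp (sg j) = if i = j then (1 : H →L[ℂ] H) else 0 := by
  ext1 v
  rw [ContinuousLinearMap.comp_apply, cd_apply, sg_apply]
  split_ifs <;> rfl

/-- `T` placed at the position `(i, j)`. -/
noncomputable def pl (i j : ℕ) (T : H →L[ℂ] H) : HN H →L[ℂ] HN H := (sg i).comp (T.comp (cd j))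

theorem pl_apply (i j : ℕ) (T : H →L[ℂ] H) (v : HN H) (k : ℕ) :
    pl i j T v k = if k = i then T (v j) else 0 := by
  rw [pl, ContinuousLinearMap.comp_apply, sg_apply, ContinuousLinearMap.comp_apply, cd_apply]

theorem pl_mul (i j k l : ℕ) (S T : H →L[ℂ] H) :
    pl i j S * pl k l T = if j = k then pl i l (S * T) else 0 := by
  have e : pl i j S * pl k l T = (sg i).comp ((S.comp ((cd j).comp (sg k))).comp
      (T.comp (cd l))) := rfl
  rw [e, cd_comp_sg]
  split_ifs with h
  · rfl
  · ext1 v; simp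

theorem pl_add (i j : ℕ) (S T : H →L[ℂ] H) : pl i j (S + T) = pl i j S + pl i j T := by
  simp only [pl, ContinuousLinearMap.add_comp, ContinuousLinearMap.comp_add]

theorem pl_smul (i j : ℕ) (c : ℂ) (T : H →L[ℂ] H) : pl i j (c • T) = c • pl i j T := by
  simp only [pl, ContinuousLinearMap.smul_comp, ContinuousLinearMap.comp_smul]

theorem pl_zero (i j : ℕ) : pl i j (0 : H →L[ℂ] H) = 0 := by
  simp only [pl, ContinuousLinearMap.zero_comp, ContinuousLinearMap.comp_zero]

theorem pl_star (i j : ℕ) (T : H →L[ℂ] H) : star (pl i j T) = pl j i (star T) := by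
  rw [ContinuousLinearMap.star_eq_adjoint, ContinuousLinearMap.star_eq_adjoint, pl, pl,
    ContinuousLinearMap.adjoint_comp, ContinuousLinearMap.adjoint_comp, cd, cd,
    ContinuousLinearMap.adjoint_adjoint]
  rfl

theorem pl_sum {α : Type} (s : Finset α) (i j : ℕ) (T : α → (H →L[ℂ] H)) :
    pl i j (∑ a ∈ s, T a) = ∑ a ∈ s, pl i j (T a) := by
  let f : (H →L[ℂ] H) →+ (HN H →L[ℂ] HN H) :=
    { toFun := pl i j, map_zero' := pl_zero i j, map_add' := pl_add i j }
  exact map_sum f T s

theorem pl_sum_mul (r : ℕ) (A B : Fin r → Fin r → (H →L[ℂ] H)) :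
    (∑ i, ∑ k, pl i.val k.val (A i k)) * (∑ k, ∑ j, pl k.val j.val (B k j)) =
      ∑ i, ∑ j, pl i.val j.val (∑ k, A i k * B k j) := by
  rw [Finset.sum_mul]
  refine Finset.sum_congr rfl fun i _ => ?_
  have h2 : ∀ k : Fin r, pl i.val k.val (A i k) * (∑ k, ∑ j, pl k.val j.val (B k j)) =
      ∑ j, pl i.val j.val (A i k * B k j) := by
    intro k
    rw [Finset.mul_sum, Finset.sum_eq_single k]
    · rw [Finset.mul_sum]
      refine Finset.sum_congr rfl fun j _ => ?_
      rw [pl_mul, if_pos rfl]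
    · intro k' _ hk'
      rw [Finset.mul_sum]
      refine Finset.sum_eq_zero fun j _ => ?_
      rw [pl_mul, if_neg]
      intro h
      exact hk' (Fin.ext h.symm)
    · simp
  rw [Finset.sum_mul, Finset.sum_congr rfl fun k _ => h2 k, Finset.sum_comm]
  refine Finset.sum_congr rfl fun j _ => ?_
  rw [pl_sum]

variable {X : Type} [CStarAlgebra X] (π : X →⋆ₐ[ℂ] (H →L[ℂ] H)) (r : ℕ)

/-- `r × r` matrices over `X` acting on the first `r` coordinates of `ℓ²(ℕ; H)`. -/
noncomputable def mrep : Mt (Fin r) X →⋆ₙₐ[ℂ] (HN H →L[ℂ] HN H) where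
  toFun M := ∑ i, ∑ j, pl i.val j.val (π (M i j))
  map_smul' c M := by
    simp only [Mt.smul_apply, map_smul, pl_smul, Finset.smul_sum, MonoidHom.id_apply]
  map_zero' := by simp [pl_zero]
  map_add' M N := by
    simp only [Mt.add_apply, map_add, pl_add, Finset.sum_add_distrib]
  map_mul' M N := by
    have h1 : ∀ i j, π ((M * N) i j) = ∑ k, π (M i k) * π (N k j) := by
      intro i j
      rw [Mt.mul_apply, map_sum]
      simp only [map_mul]
    simp only [h1]
    exact (pl_sum_mul r (fun i k => π (M i k)) (fun k j => π (N k j))).symm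
  map_star' M := by
    simp only [Mt.star_apply, map_star, star_sum, pl_star]
    exact Finset.sum_comm

theorem mrep_eq (M : Mt (Fin r) X) : mrep π r M = ∑ i, ∑ j, pl i.val j.val (π (M i j)) := rfl

theorem mrep_apply_lt (M : Mt (Fin r) X) (v : HN H) {k : ℕ} (hk : k < r) :
    mrep π r M v k = ∑ j, π (M ⟨k, hk⟩ j) (v j.val) := by
  rw [mrep_eq, _root_.sum_apply]
  have h1 : ∀ (w : Fin r → HN H), (∑ i, w i : HN H) k = ∑ i, w i k := by
    intro w
    rw [lp.coeFn_sum, Finset.sum_apply]
  rw [h1, Finset.sum_eq_single ⟨k, hk⟩]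
  · rw [_root_.sum_apply, h1]
    refine Finset.sum_congr rfl fun j _ => ?_
    rw [pl_apply, if_pos rfl]
  · intro i _ hi
    rw [_root_.sum_apply, h1]
    refine Finset.sum_eq_zero fun j _ => ?_
    rw [pl_apply, if_neg]
    intro h
    exact hi (Fin.ext h.symm)
  · simp

theorem mrep_apply_ge (M : Mt (Fin r) X) (v : HN H) {k : ℕ} (hk : r ≤ k) :
    mrep π r M v k = 0 := by
  rw [mrep_eq, _root_.sum_apply]
  have h1 : ∀ (w : Fin r → HN H), (∑ i, w i : HN H) k = ∑ i, w i k := by
    intro w
    rw [lp.coeFn_sum, Finset.sum_apply]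
  rw [h1]
  refine Finset.sum_eq_zero fun i _ => ?_
  rw [_root_.sum_apply, h1]
  refine Finset.sum_eq_zero fun j _ => ?_
  rw [pl_apply, if_neg]
  have := i.2
  omega

theorem mrep_injective (hπ : Function.Injective π) : Function.Injective (mrep π r) := by
  rw [injective_iff_map_eq_zero]
  intro M hM
  ext i j
  rw [Mt.zero_apply]
  apply hπ
  rw [map_zero]
  ext1 v
  have h1 := mrep_apply_lt π r M (sg j.val v) i.2
  rw [hM] at h1
  rw [Finset.sum_eq_single j] at h1
  · rw [sg_apply, if_pos rfl] at h1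
    exact h1.symm
  · intro k _ hk
    rw [sg_apply, if_neg, map_zero]
    intro h
    exact hk (Fin.ext h)
  · simp

/-- The projection to the first `r` coordinates. -/
noncomputable def PN (H : Type) [NormedAddCommGroup H] [InnerProductSpace ℂ H] [CompleteSpace H]
    (r : ℕ) : HN H →L[ℂ] HN H := ∑ i : Fin r, pl i.val i.val 1

theorem mrep_one : mrep π r 1 = PN H r := by
  rw [mrep_eq, PN]
  refine Finset.sum_congr rfl fun i _ => ?_
  rw [Finset.sum_eq_single i]
  · rw [Mt.one_apply, if_pos rfl, map_one]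
  · intro j _ hj
    rw [Mt.one_apply, if_neg (Ne.symm hj), map_zero, pl_zero]
  · simp

theorem PN_apply (v : HN H) (k : ℕ) : PN H r v k = if k < r then v k else 0 := by
  rw [PN, _root_.sum_apply]
  have h1 : ∀ (w : Fin r → HN H), (∑ i, w i : HN H) k = ∑ i, w i k := by
    intro w
    rw [lp.coeFn_sum, Finset.sum_apply]
  rw [h1]
  by_cases hk : k < r
  · rw [if_pos hk, Finset.sum_eq_single ⟨k, hk⟩]
    · rw [pl_apply, if_pos rfl]
      rfl
    · intro i _ hi
      rw [pl_apply, if_neg]
      intro h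
      exact hi (Fin.ext h.symm)
    · simp
  · rw [if_neg hk]
    refine Finset.sum_eq_zero fun i _ => ?_
    rw [pl_apply, if_neg]
    have := i.2
    omega

theorem tendsto_PN {r : ℕ → ℕ} (hr : Tendsto r atTop atTop) (v : HN H) :
    Tendsto (fun n => PN H (r n) v) atTop (𝓝 v) := by
  have h1 : HasSum (fun i => lp.single 2 i (v i : H)) v :=
    lp.hasSum_single (E := fun _ : ℕ => H) (by norm_num) v
  have h2 := h1.tendsto_sum_nat.comp hr
  refine h2.congr fun n => ?_
  refine ext_lp fun k => ?_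
  rw [PN_apply]
  change (∑ i ∈ Finset.range (r n), lp.single 2 i (v i : H) : lp (fun _ : ℕ => H) 2) k = _
  rw [lp.coeFn_sum, Finset.sum_apply]
  by_cases hk : k < r n
  · rw [if_pos hk, Finset.sum_eq_single k]
    · exact lp.single_apply_self ..
    · intro i _ hi
      exact lp.single_apply_ne _ _ _ (Ne.symm hi)
    · intro h
      exact absurd (Finset.mem_range.2 hk) h
  · rw [if_neg hk]
    refine Finset.sum_eq_zero fun i hi => ?_
    refine lp.single_apply_ne _ _ _ ?_
    have := Finset.mem_range.1 hi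
    omega

/-- If the columns of `N` with index `< r` are those of `M`, followed by zeros, then
`mrep N * PN = mrep M`. -/
theorem mrep_mul_PN {r r' : ℕ} (hr : r ≤ r') (M : Mt (Fin r) X) (N : Mt (Fin r') X)
    (h : ∀ (i : Fin r') (j : Fin r), N i (Fin.castLE hr j) =
      if hi : i.val < r then M ⟨i.val, hi⟩ j else 0) :
    mrep π r' N * PN H r = mrep π r M := by
  refine ext_op fun v k => ?_
  change mrep π r' N (PN H r v) k = _
  by_cases hk : k < r'
  · rw [mrep_apply_lt π r' N _ hk]
    have e1 : ∑ j : Fin r', π (N ⟨k, hk⟩ j) (PN H r v j.val) =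
        ∑ j : Fin r, π (N ⟨k, hk⟩ (Fin.castLE hr j)) (v j.val) := by
      symm
      refine Finset.sum_of_injOn (Fin.castLE hr) (Fin.castLE_injective hr).injOn
        (fun _ _ => Finset.mem_coe.2 (Finset.mem_univ _)) ?_ ?_
      · intro j _ hj
        have hj' : ¬ j.val < r := by
          intro hlt
          exact hj ⟨⟨j.val, hlt⟩, Finset.mem_coe.2 (Finset.mem_univ _), rfl⟩
        rw [PN_apply, if_neg hj', map_zero]
      · intro j _
        rw [PN_apply, if_pos (by exact j.2)]
        rfl
    rw [e1]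
    by_cases hk' : k < r
    · rw [mrep_apply_lt π r M v hk']
      refine Finset.sum_congr rfl fun j _ => ?_
      rw [h, dif_pos hk']
    · rw [mrep_apply_ge π r M v (not_lt.1 hk')]
      refine Finset.sum_eq_zero fun j _ => ?_
      rw [h, dif_neg hk', map_zero]
      rfl
  · rw [mrep_apply_ge π r' N _ (not_lt.1 hk), mrep_apply_ge π r M v (hr.trans (not_lt.1 hk))]

end Mrep

end Pool.Agent.H.MP_e11395_an.PB
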