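import Pool.Agent.H.MP_e11395_an.Cone
import Pool.Agent.H.MP_e11395_an.B.Mrep
import Pool.Agent.H.MP_e11395_an.B.Lim

/-!
# MP_e11395, part B: the limit algebra inside `B(K)`
-/

set_option autoImplicit false
set_option linter.unusedSectionVars false

open Filter Topology

open scoped InnerProductSpace ENNReal CStarAlgebra

namespace Pool.Agent.H.MP_e11395_an.PB

section one

variable {H : Type} [NormedAddCommGroup H] [InnerProductSpace ℂ H] [CompleteSpace H]
  {B' : Type} [CStarAlgebra B']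

/-- `ℓ²(I; H)`. -/
abbrev HI (H : Type) [NormedAddCommGroup H] [InnerProductSpace ℂ H] : Type :=
  lp (fun _ : unitInterval => H) 2

/-- Evaluation as a *-homomorphism. -/
def evI (B' : Type) [CStarAlgebra B'] (x : unitInterval) : C(unitInterval, B') →⋆ₐ[ℂ] B' where
  toFun f := f x
  map_one' := rfl
  map_mul' _ _ := rfl
  map_zero' := rfl
  map_add' _ _ := rfl
  commutes' _ := rfl
  map_star' _ := rfl

/-- The representation of `C(I, B')` on `ℓ²(I; H)` by evaluations. -/
noncomputable def πI (π' : B' →⋆ₐ[ℂ] (H →L[ℂ] H)) :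
    C(unitInterval, B') →⋆ₐ[ℂ] (HI H →L[ℂ] HI H) :=
  sumRep fun x => π'.comp (evI B' x)

theorem πI_apply (π' : B' →⋆ₐ[ℂ] (H →L[ℂ] H)) (f : C(unitInterval, B')) (v : HI H)
    (x : unitInterval) : πI π' f v x = π' (f x) (v x) :=
  sumRep_apply _ f v x

theorem πI_injective (π' : B' →⋆ₐ[ℂ] (H →L[ℂ] H)) (hπ : Function.Injective π') :
    Function.Injective (πI π') := by
  refine sumRep_injective _ fun f hf => ?_
  ext x
  apply hπ
  rw [ContinuousMap.zero_apply, map_zero]
  exact hf x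

/-- Matrix valued functions as matrices of functions. -/
noncomputable def swp (r : ℕ) : C(unitInterval, Mt (Fin r) B') →⋆ₐ[ℂ] Mt (Fin r) C(unitInterval, B') where
  toFun f := Mt.of fun i j => ⟨fun x => f x i j, (Mt.continuous_entry i j).comp f.continuous⟩
  map_one' := by
    ext i j x
    change (1 : Mt (Fin r) B') i j = ((1 : Mt (Fin r) C(unitInterval, B')) i j) x
    rw [Mt.one_apply, Mt.one_apply]
    split_ifs <;> rfl
  map_mul' f g := by
    ext i j x
    change (f x * g x) i j = _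
    rw [Mt.mul_apply, Mt.mul_apply, ContinuousMap.sum_apply]
    rfl
  map_zero' := rfl
  map_add' f g := rfl
  commutes' c := by
    ext i j x
    change (algebraMap ℂ (Mt (Fin r) B') c) i j = (algebraMap ℂ (Mt (Fin r) C(unitInterval, B')) c i j) x
    rw [Mt.algebraMap_apply, Mt.algebraMap_apply]
    split_ifs <;> rfl
  map_star' f := rfl

theorem swp_apply (r : ℕ) (f : C(unitInterval, Mt (Fin r) B')) (i j : Fin r) (x : unitInterval) :
    swp r f i j x = f x i j := rfl

theorem swp_injective (r : ℕ) : Function.Injective (swp (B' := B') r) := by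
  intro f g h
  ext x i j
  rw [← swp_apply, ← swp_apply, h]

/-- The non unital representation of `C(I, M_r(B'))` on `K = ℓ²(ℕ; ℓ²(I; H))`. -/
noncomputable def rhoR (π' : B' →⋆ₐ[ℂ] (H →L[ℂ] H)) (r : ℕ) :
    C(unitInterval, Mt (Fin r) B') →⋆ₙₐ[ℂ] (HN (HI H) →L[ℂ] HN (HI H)) :=
  (mrep (πI π') r).comp
    ((swp (B' := B') r : C(unitInterval, Mt (Fin r) B') →⋆ₐ[ℂ] Mt (Fin r) C(unitInterval, B')) :
      C(unitInterval, Mt (Fin r) B') →⋆ₙₐ[ℂ] Mt (Fin r) C(unitInterval, B'))

theorem rhoR_eq (π' : B' →⋆ₐ[ℂ] (H →L[ℂ] H)) (r : ℕ) (f : C(unitInterval, Mt (Fin r) B')) :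
    rhoR π' r f = mrep (πI π') r (swp r f) := rfl

theorem rhoR_injective (π' : B' →⋆ₐ[ℂ] (H →L[ℂ] H)) (hπ : Function.Injective π') (r : ℕ) :
    Function.Injective (rhoR π' r) := by
  intro f g h
  exact swp_injective r (mrep_injective (πI π') r (πI_injective π' hπ) h)

end one

section tower

variable {d : ℕ → ℕ} (T : TowerData d) {H : Type} [NormedAddCommGroup H] [InnerProductSpace ℂ H]
  [CompleteSpace H] {B' : Type} [CStarAlgebra B'] (C' : ConeAlg d B')

theorem tendsto_r (hd : ∀ k, 0 < d k) : Tendsto T.r atTop atTop := by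
  have h1 : ∀ n, T.r n < T.r (n + 1) := by
    intro n
    have h2 : 2 ≤ T.k₀ n * T.k₁ n := by
      have h3 := T.m_eq n
      have h4 := T.m_pos n
      have h5 : 0 < d (T.sel n) * T.p (n + 1) := Nat.mul_pos (hd _) (T.p_pos _)
      omega
    have h6 : T.r (n + 1) = T.k₀ n * T.k₁ n * T.r n := by
      rw [TowerData.r, TowerData.r, T.p_succ, T.q_succ]
      ring
    have h7 := T.r_pos n
    rw [h6]
    nlinarith
  exact (strictMono_nat_of_lt_succ h1).tendsto_atTop

theorem r_le_succ (n : ℕ) : T.r n ≤ T.r (n + 1) := by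
  have h1 := T.E_zero n (T.m_pos n) ⟨T.r n - 1, Nat.sub_lt (T.r_pos n) Nat.one_pos⟩
  have h2 := (T.E n (Sum.inl (⟨0, T.m_pos n⟩, ⟨T.r n - 1, Nat.sub_lt (T.r_pos n) Nat.one_pos⟩))).2
  rw [h1] at h2
  have h3 := T.r_pos n
  change T.r n - 1 < T.r (n + 1) at h2
  omega

theorem E_symm_castLE (n : ℕ) (j : Fin (T.r n)) :
    (T.E n).symm (Fin.castLE (r_le_succ T n) j) = Sum.inl (⟨0, T.m_pos n⟩, j) := by
  rw [Equiv.symm_apply_eq]
  exact Fin.ext (T.E_zero n (T.m_pos n) j).symm

/-- The first columns of `Φ(f)(x)`. -/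
theorem PhiC_castLE (n : ℕ) (f : C(unitInterval, Mt (Fin (T.r n)) B')) (x : unitInterval)
    (i : Fin (T.r (n + 1))) (j : Fin (T.r n)) :
    T.PhiC C' n f x i (Fin.castLE (r_le_succ T n) j) =
      if hi : i.val < T.r n then f x ⟨i.val, hi⟩ j else 0 := by
  rw [T.PhiC_apply, Mt.reindex_apply, E_symm_castLE]
  by_cases hi : i.val < T.r n
  · rw [dif_pos hi]
    have : (T.E n).symm i = Sum.inl (⟨0, T.m_pos n⟩, ⟨i.val, hi⟩) := by
      rw [← E_symm_castLE T n ⟨i.val, hi⟩]
      rfl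
    rw [this]
    simp [slot]
  · rw [dif_neg hi]
    have h1 : ∀ z, (T.E n).symm i = z → ∀ i', z ≠ Sum.inl (⟨0, T.m_pos n⟩, i') := by
      intro z hz i' h2
      apply hi
      have h3 : i = T.E n (Sum.inl (⟨0, T.m_pos n⟩, i')) := by
        rw [← h2, ← hz, Equiv.apply_symm_apply]
      rw [h3, T.E_zero]
      exact i'.2
    rcases h : (T.E n).symm i with ⟨u, i'⟩ | ⟨u, i'⟩ | ⟨u, i'⟩
    · have hu : u ≠ ⟨0, T.m_pos n⟩ := by
        rintro rfl
        exact h1 _ h i' rfl
      simp [slot, hu]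
    · simp [slot]
    · simp [slot]

variable (π' : B' →⋆ₐ[ℂ] (H →L[ℂ] H))

theorem compat_tower (hd : ∀ k, 0 < d k) :
    Compat (T.PhiC C') (fun n => PN (HI H) (T.r n)) (fun n => rhoR π' (T.r n)) where
  tend v := tendsto_PN (tendsto_r T hd) v
  one n := by rw [rhoR_eq, map_one, mrep_one]
  step n f := by
    rw [rhoR_eq, rhoR_eq]
    refine mrep_mul_PN (πI π') (r_le_succ T n) _ _ fun i j => ?_
    ext x
    rw [swp_apply, PhiC_castLE]
    split_ifs with h
    · rfl
    · rfl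

/-- The limit representation of `C(I, M_{r n}(B'))`. -/
noncomputable def RK (hd : ∀ k, 0 < d k) (n : ℕ) :
    C(unitInterval, Mt (Fin (T.r n)) B') →⋆ₐ[ℂ] (HN (HI H) →L[ℂ] HN (HI H)) :=
  (compat_tower T C' π' hd).R n

theorem RK_Φ (hd : ∀ k, 0 < d k) (n : ℕ) (f : C(unitInterval, Mt (Fin (T.r n)) B')) :
    RK T C' π' hd (n + 1) (T.PhiC C' n f) = RK T C' π' hd n f :=
  (compat_tower T C' π' hd).R_Φ n f

theorem RK_mul_P (hd : ∀ k, 0 < d k) (n : ℕ) (f : C(unitInterval, Mt (Fin (T.r n)) B')) :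
    RK T C' π' hd n f * PN (HI H) (T.r n) = mrep (πI π') (T.r n) (swp (T.r n) f) :=
  (compat_tower T C' π' hd).R_mul_P' n f

theorem RK_injective (hd : ∀ k, 0 < d k) (hπ : Function.Injective π') (n : ℕ) :
    Function.Injective (RK T C' π' hd n) :=
  (compat_tower T C' π' hd).R_injective n (rhoR_injective π' hπ (T.r n))

end tower

section limit

variable {d : ℕ → ℕ} (T : TowerData d) {H : Type} [NormedAddCommGroup H] [InnerProductSpace ℂ H]
  [CompleteSpace H] {B B' : Type} [CStarAlgebra B] [CStarAlgebra B'] {C : ConeAlg d B}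
  {C' : ConeAlg d B'} (J : C.Hom C') (π' : B' →⋆ₐ[ℂ] (H →L[ℂ] H)) (hd : ∀ k, 0 < d k)

/-- `f ↦ j ∘ f`. -/
noncomputable def mapC (J : C.Hom C') (r : ℕ) :
    C(unitInterval, Mt (Fin r) B) →⋆ₐ[ℂ] C(unitInterval, Mt (Fin r) B') where
  toFun f := ⟨fun x => Mt.map J.j (f x), by
    rw [Mt.continuous_iff]
    intro i j
    simp only [Mt.map_apply]
    exact (map_continuous J.j).comp ((Mt.continuous_entry i j).comp f.continuous)⟩
  map_one' := by ext x; exact congrArg (fun M : Mt (Fin r) B' => M _ _) (map_one (Mt.map J.j))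
  map_mul' f g := by
    ext x i j
    exact congrArg (fun M : Mt (Fin r) B' => M i j) (map_mul (Mt.map J.j) (f x) (g x))
  map_zero' := by
    ext x i j
    exact congrArg (fun M : Mt (Fin r) B' => M i j) (map_zero (Mt.map J.j))
  map_add' f g := by
    ext x i j
    exact congrArg (fun M : Mt (Fin r) B' => M i j) (map_add (Mt.map J.j) (f x) (g x))
  commutes' c := by
    ext x i j
    exact congrArg (fun M : Mt (Fin r) B' => M i j) (AlgHomClass.commutes (Mt.map J.j) c)
  map_star' f := by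
    ext x i j
    exact congrArg (fun M : Mt (Fin r) B' => M i j) (map_star (Mt.map J.j) (f x))

theorem mapC_apply (r : ℕ) (f : C(unitInterval, Mt (Fin r) B)) (x : unitInterval) :
    mapC J r f x = Mt.map J.j (f x) := rfl

theorem mapC_injective (r : ℕ) : Function.Injective (mapC J r) := by
  intro f g h
  ext x i j
  apply J.inj
  have : mapC J r f x i j = mapC J r g x i j := by rw [h]
  exact this

theorem slot_map {ι : Type} [Fintype ι] [DecidableEq ι] (φ : B →⋆ₐ[ℂ] B') (m a b : ℕ) {d : ℕ}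
    (M₀ : Mt ι B) (M₁ M₂ : Mt (Fin d × ι) B) :
    slot m a b (Mt.map φ M₀) (Mt.map φ M₁) (Mt.map φ M₂) = Mt.map φ (slot m a b M₀ M₁ M₂) := by
  ext i j
  rw [Mt.map_apply]
  rcases i with ⟨u, i⟩ | ⟨u, i⟩ | ⟨u, i⟩ <;> rcases j with ⟨v, j⟩ | ⟨v, j⟩ | ⟨v, j⟩ <;>
    simp only [slot, Mt.of_apply, Mt.map_apply, map_zero, apply_ite φ]

theorem piAmp_map {ι : Type} [Fintype ι] [DecidableEq ι] (k : ℕ) (M : Mt ι B) :
    piAmp (C'.π k) (Mt.map J.j M) = Mt.map J.j (piAmp (C.π k) M) := by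
  ext i j
  rw [piAmp_apply, Mt.map_apply, Mt.map_apply, piAmp_apply, J.π]
  exact (AlgHomClass.commutes J.j _).symm

theorem dAmp_map {ι : Type} [Fintype ι] [DecidableEq ι] (φ : B →⋆ₐ[ℂ] B') (e : ℕ) (M : Mt ι B) :
    dAmp e (Mt.map φ M) = Mt.map φ (dAmp e M) := by
  ext i j
  rw [dAmp, dAmp, Mt.amp_apply, Mt.map_apply, Mt.map_apply, Mt.amp_apply]
  split_ifs
  · rfl
  · rw [map_zero]

theorem map_h_map {ι : Type} [Fintype ι] [DecidableEq ι] (s : unitInterval) (M : Mt ι B) :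
    Mt.map (C'.h s) (Mt.map J.j M) = Mt.map J.j (Mt.map (C.h s) M) := by
  ext i j
  simp only [Mt.map_apply, J.h]

theorem cpath_map (k : ℕ) (ξ x : unitInterval) (r : ℕ) (f : C(unitInterval, Mt (Fin r) B)) :
    cpath C' k ξ x (mapC J r f) = Mt.map J.j (cpath C k ξ x f) := by
  rw [cpath, cpath]
  split_ifs
  · rw [mapC_apply, map_h_map, dAmp_map]
  · rw [mapC_apply, map_h_map, piAmp_map]

/-- The connecting maps commute with the morphism `J`. -/
theorem PhiC_mapC (n : ℕ) (f : C(unitInterval, Mt (Fin (T.r n)) B)) :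
    T.PhiC C' n (mapC J (T.r n) f) = mapC J (T.r (n + 1)) (T.PhiC C n f) := by
  ext x i j
  rw [mapC_apply, T.PhiC_apply, T.PhiC_apply, mapC_apply, mapC_apply, piAmp_map, cpath_map,
    slot_map]
  rfl

/-- The *-homomorphisms from the building blocks to `B(K)`. -/
noncomputable def RB (n : ℕ) : T.Bk B n →⋆ₐ[ℂ] (HN (HI H) →L[ℂ] HN (HI H)) :=
  ((RK T C' π' hd n).comp (mapC J (T.r n))).comp TowerData.Bk.valHom

theorem RB_apply (n : ℕ) (f : T.Bk B n) :
    RB T J π' hd n f = RK T C' π' hd n (mapC J (T.r n) f.val) := rfl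

theorem RB_Φ (n : ℕ) (f : T.Bk B n) : RB T J π' hd (n + 1) (T.Φ C n f) = RB T J π' hd n f := by
  rw [RB_apply, RB_apply, T.Φ_val, ← PhiC_mapC, RK_Φ]

theorem RB_injective (hπ : Function.Injective π') (n : ℕ) :
    Function.Injective (RB T J π' hd n) := by
  intro f g h
  rw [RB_apply, RB_apply] at h
  exact TowerData.Bk.ext (mapC_injective J _ (RK_injective T C' π' hd hπ n h))

theorem RB_le {n m : ℕ} (h : n ≤ m) (f : T.Bk B n) :
    ∃ g : T.Bk B m, RB T J π' hd m g = RB T J π' hd n f := by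
  induction m, h using Nat.le_induction with
  | base => exact ⟨f, rfl⟩
  | succ m hm ih =>
    obtain ⟨g, hg⟩ := ih
    exact ⟨T.Φ C m g, by rw [RB_Φ, hg]⟩

/-- The union of the images of the building blocks. -/
noncomputable def Au : StarSubalgebra ℂ (HN (HI H) →L[ℂ] HN (HI H)) where
  carrier := {a | ∃ n f, RB T J π' hd n f = a}
  mul_mem' := by
    rintro _ _ ⟨n, f, rfl⟩ ⟨m, g, rfl⟩
    obtain ⟨f', hf'⟩ := RB_le T J π' hd (le_max_left n m) f
    obtain ⟨g', hg'⟩ := RB_le T J π' hd (le_max_right n m) g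
    exact ⟨max n m, f' * g', by rw [map_mul, hf', hg']⟩
  add_mem' := by
    rintro _ _ ⟨n, f, rfl⟩ ⟨m, g, rfl⟩
    obtain ⟨f', hf'⟩ := RB_le T J π' hd (le_max_left n m) f
    obtain ⟨g', hg'⟩ := RB_le T J π' hd (le_max_right n m) g
    exact ⟨max n m, f' + g', by rw [map_add, hf', hg']⟩
  algebraMap_mem' c := ⟨0, algebraMap ℂ _ c, AlgHomClass.commutes _ c⟩
  star_mem' := by
    rintro _ ⟨n, f, rfl⟩
    exact ⟨n, star f, map_star _ _⟩

/-- The limit algebra as a closed star subalgebra of `B(K)`. -/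
noncomputable def AS : StarSubalgebra ℂ (HN (HI H) →L[ℂ] HN (HI H)) :=
  (Au T J π' hd).topologicalClosure

instance AS_closed : IsClosed (AS T J π' hd : Set (HN (HI H) →L[ℂ] HN (HI H))) :=
  StarSubalgebra.isClosed_topologicalClosure _

/-- The limit algebra. -/
def AK : Type := ↥(AS T J π' hd)

noncomputable instance : CStarAlgebra (AK T J π' hd) :=
  inferInstanceAs (CStarAlgebra ↥(AS T J π' hd))

/-- The inclusion of the limit algebra in `B(K)`. -/
noncomputable def inK : AK T J π' hd →⋆ₐ[ℂ] (HN (HI H) →L[ℂ] HN (HI H)) where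
  toFun a := Subtype.val (p := fun x => x ∈ AS T J π' hd) a
  map_one' := rfl
  map_mul' _ _ := rfl
  map_zero' := rfl
  map_add' _ _ := rfl
  commutes' _ := rfl
  map_star' _ := rfl

theorem inK_injective : Function.Injective (inK T J π' hd) := fun _ _ h => Subtype.ext h

/-- The *-homomorphisms from the building blocks to the limit algebra. -/
noncomputable def RA (n : ℕ) : T.Bk B n →⋆ₐ[ℂ] AK T J π' hd where
  toFun f := (⟨RB T J π' hd n f, StarSubalgebra.le_topologicalClosure (Au T J π' hd)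
    ⟨n, f, rfl⟩⟩ : ↥(AS T J π' hd))
  map_one' := Subtype.ext (map_one (RB T J π' hd n))
  map_mul' f g := Subtype.ext (map_mul (RB T J π' hd n) f g)
  map_zero' := Subtype.ext (map_zero (RB T J π' hd n))
  map_add' f g := Subtype.ext (map_add (RB T J π' hd n) f g)
  commutes' c := Subtype.ext (AlgHomClass.commutes (RB T J π' hd n) c)
  map_star' f := Subtype.ext (map_star (RB T J π' hd n) f)

theorem inK_RA (n : ℕ) (f : T.Bk B n) : inK T J π' hd (RA T J π' hd n f) = RB T J π' hd n f := rfl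

theorem norm_inK (a : AK T J π' hd) : ‖inK T J π' hd a‖ = ‖a‖ := rfl

theorem isLimit_AK (hπ : Function.Injective π') :
    T.IsLimit C (AK T J π' hd) (RA T J π' hd) where
  compat n f := inK_injective T J π' hd (RB_Φ T J π' hd n f)
  inj n f g h := RB_injective T J π' hd hπ n (congrArg (inK T J π' hd) h)
  dense a ε hε := by
    have h1 : inK T J π' hd a ∈
        closure (Au T J π' hd : Set (HN (HI H) →L[ℂ] HN (HI H))) := a.2
    rw [Metric.mem_closure_iff] at h1
    obtain ⟨b, ⟨n, f, rfl⟩, hb⟩ := h1 ε hε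
    refine ⟨n, f, ?_⟩
    rw [dist_comm, dist_eq_norm, ← inK_RA, ← map_sub, norm_inK] at hb
    exact hb

end limit

end Pool.Agent.H.MP_e11395_an.PB
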