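import Pool.Agent.H.MP_e11395_an.Defs
import Pool.Agent.H.MP_e11395_an.D.StateA

/-!
# MP_e11395, part B: simple C*-algebras with a tracial state are stably finite
-/

set_option autoImplicit false

open Filter Topology
open scoped ComplexOrder Matrix

namespace Pool.Agent.H.MP_e11395_an

variable {A : Type} [CStarAlgebra A]

/-- A tracial state on a simple C*-algebra is faithful. -/
theorem SimpleCStar.faithful (hs : SimpleCStar A) {τ : A →ₗ[ℂ] ℂ} (hτ : IsTr τ) {a : A}
    (ha : τ (star a * a) = 0) : a = 0 := by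
  have hcont : Continuous τ := by
    refine AddMonoidHomClass.continuous_of_bound τ 1 fun x => ?_
    rw [one_mul]
    exact hτ.norm_le x
  let J : TwoSidedIdeal A := TwoSidedIdeal.mk' {x | ∀ b, τ (b * x) = 0}
    (by intro b; rw [mul_zero, map_zero])
    (by
      intro x y hx hy b
      rw [mul_add, map_add, hx b, hy b, add_zero])
    (by
      intro x hx b
      rw [mul_neg, map_neg, hx b, neg_zero])
    (by
      intro x y hy b
      rw [← mul_assoc]
      exact hy _)
    (by
      intro x y hx b
      rw [← mul_assoc, hτ.comm, ← mul_assoc]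
      exact hx _)
  have hJ : ∀ x, x ∈ J ↔ ∀ b, τ (b * x) = 0 := fun x => TwoSidedIdeal.mem_mk' _ _ _ _ _ _ x
  have hclosed : IsClosed (J : Set A) := by
    have h1 : (J : Set A) = ⋂ b : A, {x | τ (b * x) = 0} := by
      ext x
      simp only [SetLike.mem_coe, Set.mem_iInter, Set.mem_setOf_eq]
      exact hJ x
    rw [h1]
    refine isClosed_iInter fun b => isClosed_eq (hcont.comp (continuous_const.mul continuous_id)) continuous_const
  have haJ : a ∈ J := by
    rw [hJ]
    intro b
    have h := hτ.cauchy a (star b)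
    rw [star_star, ha, Complex.zero_re, mul_zero] at h
    have h2 : ‖τ (b * a)‖ ^ 2 = 0 := le_antisymm h (by positivity)
    exact norm_eq_zero.1 (pow_eq_zero_iff (two_ne_zero) |>.1 h2)
  rcases hs.2 J hclosed with h | h
  · rw [h] at haJ
    exact (TwoSidedIdeal.mem_bot A).1 haJ
  · exfalso
    have h1 : (1 : A) ∈ J := by rw [h]; trivial
    rw [hJ] at h1
    have h2 := h1 1
    rw [mul_one, hτ.one] at h2
    exact one_ne_zero h2

/-- A simple C*-algebra with a tracial state is stably finite. -/
theorem simple_stablyFinite (hs : SimpleCStar A) {τ : A →ₗ[ℂ] ℂ} (hτ : IsTr τ) :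
    StablyFiniteCStar A := by
  intro n v hv
  set p : Matrix (Fin n) (Fin n) A := 1 - v * vᴴ with hp
  have hpp : pᴴ * p = p := by
    have h1 : pᴴ = p := by
      rw [hp, Matrix.conjTranspose_sub, Matrix.conjTranspose_one, Matrix.conjTranspose_mul,
        Matrix.conjTranspose_conjTranspose]
    rw [h1, hp, sub_mul, one_mul, mul_sub, mul_one, Matrix.mul_assoc, ← Matrix.mul_assoc vᴴ, hv,
      Matrix.one_mul, sub_self, sub_zero]
  have htr : ∑ i, τ (p i i) = 0 := by
    have h1 : ∑ i, τ ((v * vᴴ) i i) = ∑ i, τ ((vᴴ * v) i i) := by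
      simp only [Matrix.mul_apply, Matrix.conjTranspose_apply, map_sum]
      rw [Finset.sum_comm]
      exact Finset.sum_congr rfl fun i _ => Finset.sum_congr rfl fun j _ => hτ.comm _ _
    have h2 : ∑ i, τ (p i i) = ∑ i, τ ((1 : Matrix (Fin n) (Fin n) A) i i) -
        ∑ i, τ ((v * vᴴ) i i) := by
      rw [← Finset.sum_sub_distrib]
      refine Finset.sum_congr rfl fun i _ => ?_
      rw [hp, Matrix.sub_apply, map_sub]
    rw [h2, h1, hv, sub_self]
  have hsum : ∑ i, ∑ k, τ (star (p k i) * p k i) = 0 := by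
    rw [← htr]
    refine Finset.sum_congr rfl fun i _ => ?_
    conv_rhs => rw [← hpp]
    rw [Matrix.mul_apply, map_sum]
    rfl
  have hz : ∀ i k, p k i = 0 := by
    intro i k
    have h1 := (Finset.sum_eq_zero_iff_of_nonneg (fun i _ => Finset.sum_nonneg fun k _ =>
      hτ.pos (p k i))).1 hsum i (Finset.mem_univ i)
    have h2 := (Finset.sum_eq_zero_iff_of_nonneg (fun k _ => hτ.pos (p k i))).1 h1 k
      (Finset.mem_univ k)
    exact hs.faithful hτ h2
  have : p = 0 := by
    ext i j
    exact hz j i
  rw [hp, sub_eq_zero] at this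
  exact this.symm

end Pool.Agent.H.MP_e11395_an
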