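import Pool.Agent.H.MP_e11395_an.Cone

/-!
# MP_e11395, part B: the limit is separable
-/

set_option autoImplicit false

open Filter Topology

namespace Pool.Agent.H.MP_e11395_an

variable {d : ℕ → ℕ} {T : TowerData d} {B : Type} [CStarAlgebra B] {C : ConeAlg d B}
  {A : Type} [CStarAlgebra A] {R : ∀ n, T.Bk B n →⋆ₐ[ℂ] A}

theorem limit_separable (hs : TopologicalSpace.SeparableSpace B) (lim : T.IsLimit C A R) :
    TopologicalSpace.SeparableSpace A := by
  haveI : SecondCountableTopology B := UniformSpace.secondCountable_of_separable B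
  have hM : ∀ n, SecondCountableTopology (Mt (Fin (T.r n)) B) := fun n =>
    inferInstanceAs (SecondCountableTopology (Fin (T.r n) → Fin (T.r n) → B))
  have hC : ∀ n, SecondCountableTopology C(unitInterval, Mt (Fin (T.r n)) B) := fun n =>
    haveI := hM n
    inferInstance
  have hB : ∀ n, TopologicalSpace.SeparableSpace (T.Bk B n) := fun n => by
    haveI := hC n
    haveI : SecondCountableTopology (T.Bk B n) :=
      inferInstanceAs (SecondCountableTopology ↥(T.Bl B n))
    infer_instance
  have hR : ∀ n, Continuous (R n) := fun n =>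
    AddMonoidHomClass.continuous_of_bound (R n) 1 fun x => by
      rw [one_mul]
      exact NonUnitalStarAlgHom.norm_apply_le (R n) x
  have h1 : ∀ n, TopologicalSpace.IsSeparable (Set.range (R n)) := fun n => by
    haveI := hB n
    exact TopologicalSpace.isSeparable_range (hR n)
  have h2 : TopologicalSpace.IsSeparable (⋃ n, Set.range (R n)) :=
    TopologicalSpace.IsSeparable.iUnion h1
  have h3 : closure (⋃ n, Set.range (R n)) = Set.univ := by
    refine Set.eq_univ_of_forall fun a => ?_
    rw [Metric.mem_closure_iff]
    intro ε hε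
    obtain ⟨n, f, hf⟩ := lim.dense a ε hε
    refine ⟨R n f, Set.mem_iUnion.2 ⟨n, f, rfl⟩, ?_⟩
    rw [dist_comm, dist_eq_norm]
    exact hf
  rw [← TopologicalSpace.isSeparable_univ_iff, ← h3]
  exact h2.closure

end Pool.Agent.H.MP_e11395_an
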