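import Pool.Agent.H.MP_e11395_an.Defs

/-!
# MP_e11395, part B: a criterion for simplicity of limits
-/

set_option autoImplicit false
set_option linter.style.haveILetI false

open Filter Topology

namespace Pool.Agent.H.MP_e11395_an

section order

variable {A : Type} [CStarAlgebra A] [PartialOrder A] [StarOrderedRing A]

/-- `v c w + (v c w)⋆ ≤ v c v⋆ + w⋆ c w` for `c ≥ 0`. -/
theorem SC_two_le {c : A} (hc : 0 ≤ c) (v w : A) :
    v * c * w + star (v * c * w) ≤ v * c * star v + star w * c * w := by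
  have hcs : star c = c := (IsSelfAdjoint.of_nonneg hc).star_eq
  have h1 : 0 ≤ (v - star w) * c * star (v - star w) := star_right_conjugate_nonneg hc _
  have h2 : (v - star w) * c * star (v - star w) =
      (v * c * star v + star w * c * w) - (v * c * w + star (v * c * w)) := by
    rw [star_sub, star_star, star_mul, star_mul, hcs]
    noncomm_ring
  rw [h2] at h1
  exact sub_nonneg.1 h1

/-- The cut-off function. -/
noncomputable def SC_g (t : ℝ) : ℝ := max (t - 1 / 2) 0

theorem SC_g_cont : Continuous SC_g := by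
  unfold SC_g; fun_prop

theorem SC_g_nonneg (t : ℝ) : 0 ≤ SC_g t := le_max_right _ _

theorem SC_cut {a b : A} (ha : 0 ≤ a) (ha1 : ‖a‖ = 1) (hb : IsSelfAdjoint b)
    (hab : ‖a - b‖ ≤ 1 / 8) :
    cfc SC_g b ≠ 0 ∧
      (3 / 8 : ℝ) • (cfc SC_g b * cfc SC_g b) ≤ cfc SC_g b * a * cfc SC_g b := by
  haveI : Nontrivial A := ⟨⟨a, 0, fun h => by
    rw [h, norm_zero] at ha1
    exact zero_ne_one ha1⟩⟩
  have has : IsSelfAdjoint a := IsSelfAdjoint.of_nonneg ha
  have hY : IsSelfAdjoint (cfc SC_g b) := cfc_predicate SC_g b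
  have hYn : 0 ≤ cfc SC_g b := cfc_nonneg fun x _ => SC_g_nonneg x
  have h1 : b ≤ algebraMap ℝ A (1 / 2) + cfc SC_g b := by
    have h2 : cfc (fun t : ℝ => t) b ≤ cfc (fun t : ℝ => 1 / 2 + SC_g t) b := by
      refine cfc_mono (fun x _ => ?_) (by fun_prop) ?_
      · unfold SC_g
        have := le_max_left (x - 1 / 2) 0
        linarith
      · exact (continuous_const.add SC_g_cont).continuousOn
    rw [cfc_id' ℝ b hb, cfc_const_add (1 / 2) SC_g b SC_g_cont.continuousOn hb] at h2
    exact h2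
  have h3 : a - b ≤ algebraMap ℝ A (1 / 8) := by
    refine (IsSelfAdjoint.le_algebraMap_norm_self (has.sub hb)).trans ?_
    rw [algebraMap_le_algebraMap]
    exact hab
  have h3' : b - a ≤ algebraMap ℝ A (1 / 8) := by
    refine (IsSelfAdjoint.le_algebraMap_norm_self (hb.sub has)).trans ?_
    rw [algebraMap_le_algebraMap, norm_sub_rev]
    exact hab
  constructor
  · intro h0
    rw [h0, add_zero] at h1
    have h4 : a ≤ algebraMap ℝ A (5 / 8) := by
      have h5 : a = (a - b) + b := by abel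
      rw [h5]
      refine (add_le_add h3 h1).trans ?_
      rw [← map_add]
      norm_num
    have h6 := (CStarAlgebra.norm_le_iff_le_algebraMap a (r := 5 / 8) (by norm_num) ha).2 h4
    rw [ha1] at h6
    norm_num at h6
  · set Y := cfc SC_g b with hYdef
    have h5 : (1 / 2 : ℝ) • (Y * Y) ≤ Y * b * Y := by
      have e1 : Y * b * Y = cfc (fun t : ℝ => SC_g t * t * SC_g t) b := by
        rw [cfc_mul (fun t : ℝ => SC_g t * t) SC_g b
          ((SC_g_cont.mul continuous_id).continuousOn) SC_g_cont.continuousOn,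
          cfc_mul SC_g (fun t : ℝ => t) b SC_g_cont.continuousOn continuousOn_id,
          cfc_id' ℝ b hb]
      have e2 : (1 / 2 : ℝ) • (Y * Y) = cfc (fun t : ℝ => 1 / 2 * (SC_g t * SC_g t)) b := by
        rw [cfc_const_mul (1 / 2 : ℝ) (fun t : ℝ => SC_g t * SC_g t) b
          ((SC_g_cont.mul SC_g_cont).continuousOn),
          cfc_mul SC_g SC_g b SC_g_cont.continuousOn SC_g_cont.continuousOn]
      rw [e1, e2]
      refine cfc_mono (fun x _ => ?_) ?_ ?_
      · by_cases hx : x ≤ 1 / 2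
        · have : SC_g x = 0 := max_eq_right (by linarith)
          rw [this]; simp
        · have h7 := SC_g_nonneg x
          push Not at hx
          nlinarith [mul_nonneg h7 h7]
      · exact (continuous_const.mul (SC_g_cont.mul SC_g_cont)).continuousOn
      · exact ((SC_g_cont.mul continuous_id).mul SC_g_cont).continuousOn
    have h6 : Y * (b - a) * Y ≤ Y * algebraMap ℝ A (1 / 8) * Y := by
      have := star_left_conjugate_le_conjugate h3' Y
      rwa [hY.star_eq] at this
    have h7 : Y * algebraMap ℝ A (1 / 8) * Y = (1 / 8 : ℝ) • (Y * Y) := by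
      rw [Algebra.algebraMap_eq_smul_one, mul_smul_comm, smul_mul_assoc, mul_one]
    rw [h7, mul_sub, sub_mul] at h6
    have h8 : (3 / 8 : ℝ) • (Y * Y) = (1 / 2 : ℝ) • (Y * Y) - (1 / 8 : ℝ) • (Y * Y) := by
      rw [← sub_smul]; norm_num
    rw [h8]
    have h9 := sub_le_sub h5 h6
    refine h9.trans (le_of_eq ?_)
    abel

/-- An ideal containing `a ≥ 0` of norm one contains `1` if a suitable cut-off of an
approximation of `a` is full. -/
theorem SC_sum {a Y : A} (hY : IsSelfAdjoint Y)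
    (h : (3 / 8 : ℝ) • (Y * Y) ≤ Y * a * Y) {k : ℕ} (v w : Fin k → A)
    (h1 : ∑ i, v i * (Y * Y) * w i = 1) :
    IsUnit (∑ i, (v i * (Y * a * Y) * star (v i) + star (w i) * (Y * a * Y) * w i)) := by
  have hc : 0 ≤ Y * Y := by
    have := star_mul_self_nonneg Y
    rwa [hY.star_eq] at this
  have hle : (3 / 4 : ℝ) • (1 : A) ≤
      ∑ i, (v i * (Y * a * Y) * star (v i) + star (w i) * (Y * a * Y) * w i) := by
    have e1 : (3 / 4 : ℝ) • (1 : A) =
        (3 / 8 : ℝ) • ∑ i, (v i * (Y * Y) * w i + star (v i * (Y * Y) * w i)) := by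
      rw [Finset.sum_add_distrib, ← star_sum, h1, star_one, smul_add, ← add_smul]
      norm_num
    rw [e1, Finset.smul_sum]
    refine Finset.sum_le_sum fun i _ => ?_
    refine (smul_le_smul_of_nonneg_left (SC_two_le hc (v i) (w i)) (by norm_num)).trans ?_
    rw [smul_add]
    refine add_le_add ?_ ?_
    · have := star_right_conjugate_le_conjugate h (v i)
      rwa [mul_smul_comm, smul_mul_assoc] at this
    · have := star_left_conjugate_le_conjugate h (w i)
      rwa [mul_smul_comm, smul_mul_assoc] at this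
  refine CStarAlgebra.isUnit_of_le _ hle ?_
  rw [← Algebra.algebraMap_eq_smul_one]
  exact isStrictlyPositive_algebraMap (by norm_num)

end order

/-- **Criterion for simplicity of limits.** -/
theorem simple_crit {A : Type} [CStarAlgebra A] [Nontrivial A] {X : ℕ → Type}
    [∀ n, CStarAlgebra (X n)] (R : ∀ n, X n →⋆ₐ[ℂ] A)
    (hd : ∀ (a : A) (ε : ℝ), 0 < ε → ∃ n f, ‖R n f - a‖ < ε)
    (hfull : ∀ n (y : X n), y ≠ 0 → ∃ (k : ℕ) (v w : Fin k → A),
      ∑ i, v i * R n y * w i = 1) : SimpleCStar A := by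
  letI := CStarAlgebra.spectralOrder A
  letI := CStarAlgebra.spectralOrderedRing A
  refine ⟨inferInstance, fun J hJ => ?_⟩
  by_cases hbot : J = ⊥
  · exact Or.inl hbot
  right
  obtain ⟨x, hx, hx0⟩ : ∃ x ∈ J, x ≠ 0 := by
    by_contra hcon
    push Not at hcon
    apply hbot
    rw [eq_bot_iff]
    intro y hy
    rw [TwoSidedIdeal.mem_bot]
    exact hcon y hy
  have hxx : ‖star x * x‖ ≠ 0 := by
    rw [CStarRing.norm_star_mul_self]
    exact mul_ne_zero (norm_ne_zero_iff.2 hx0) (norm_ne_zero_iff.2 hx0)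
  set a : A := ((‖star x * x‖⁻¹ : ℝ) : ℝ) • (star x * x) with ha
  have hmem : a ∈ J := by
    have h1 : a = (algebraMap ℝ A (‖star x * x‖⁻¹) * star x) * x := by
      rw [ha, Algebra.smul_def, mul_assoc]
    rw [h1]
    exact J.mul_mem_left _ _ hx
  have ha0 : 0 ≤ a := smul_nonneg (by positivity) (star_mul_self_nonneg x)
  have ha1 : ‖a‖ = 1 := by
    rw [ha, norm_smul, norm_inv, norm_norm, inv_mul_cancel₀ hxx]
  obtain ⟨n, f, hf⟩ := hd a (1 / 8) (by norm_num)
  set b : X n := ((1 / 2 : ℝ) : ℝ) • (f + star f) with hb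
  have hbs : IsSelfAdjoint b := by
    rw [hb]
    exact IsSelfAdjoint.smul (IsSelfAdjoint.all _) (IsSelfAdjoint.add_star_self f)
  have hRb : R n b = (1 / 2 : ℝ) • (R n f + star (R n f)) := by
    rw [hb, ← map_star, ← map_add]
    exact map_real_smul (R n : X n →⋆ₐ[ℂ] A) (by
      exact AddMonoidHomClass.continuous_of_bound (R n) 1 fun x => by
        rw [one_mul]; exact NonUnitalStarAlgHom.norm_apply_le (R n) x) _ _
  have hab : ‖a - R n b‖ ≤ 1 / 8 := by
    have has : star a = a := (IsSelfAdjoint.of_nonneg ha0).star_eq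
    have h1 : a - R n b = (1 / 2 : ℝ) • ((a - R n f) + star (a - R n f)) := by
      rw [hRb, star_sub, has]
      have h2 : a = (1 / 2 : ℝ) • (a + a) := by
        rw [← two_smul ℝ a, smul_smul]; norm_num
      nth_rewrite 1 [h2]
      rw [← smul_sub]
      congr 1
      abel
    rw [h1, norm_smul]
    have h3 : ‖a - R n f‖ ≤ 1 / 8 := by
      rw [norm_sub_rev]; exact hf.le
    have h4 : ‖(a - R n f) + star (a - R n f)‖ ≤ 1 / 8 + 1 / 8 := by
      refine (norm_add_le _ _).trans ?_
      rw [norm_star]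
      linarith
    have h5 : ‖(1 / 2 : ℝ)‖ = 1 / 2 := by norm_num
    rw [h5]
    linarith
  have hRbs : IsSelfAdjoint (R n b) := hbs.map (R n)
  have hcontR : Continuous (R n) := AddMonoidHomClass.continuous_of_bound (R n) 1 fun x => by
    rw [one_mul]; exact NonUnitalStarAlgHom.norm_apply_le (R n) x
  have hY : R n (cfc SC_g b) = cfc SC_g (R n b) :=
    StarAlgHom.map_cfc (R n) SC_g b SC_g_cont.continuousOn hcontR hbs hRbs
  obtain ⟨hne, hle⟩ := SC_cut ha0 ha1 hRbs hab
  have hYs : IsSelfAdjoint (cfc SC_g b) := cfc_predicate SC_g b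
  have hc : cfc SC_g b * cfc SC_g b ≠ 0 := by
    intro h0
    have h1 : star (cfc SC_g b) * cfc SC_g b = 0 := by rwa [hYs.star_eq]
    rw [CStarRing.star_mul_self_eq_zero_iff] at h1
    apply hne
    rw [← hY, h1, map_zero]
  obtain ⟨k, v, w, hvw⟩ := hfull n _ hc
  rw [map_mul, hY] at hvw
  have hu := SC_sum (cfc_predicate SC_g (R n b)) hle v w hvw
  have hmem2 : (∑ i, (v i * (cfc SC_g (R n b) * a * cfc SC_g (R n b)) * star (v i) +
      star (w i) * (cfc SC_g (R n b) * a * cfc SC_g (R n b)) * w i)) ∈ J := by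
    refine sum_mem fun i _ => ?_
    have h1 : cfc SC_g (R n b) * a * cfc SC_g (R n b) ∈ J :=
      J.mul_mem_right _ _ (J.mul_mem_left _ _ hmem)
    exact J.add_mem (J.mul_mem_right _ _ (J.mul_mem_left _ _ h1))
      (J.mul_mem_right _ _ (J.mul_mem_left _ _ h1))
  obtain ⟨u, hu⟩ := hu
  rw [← hu] at hmem2
  rw [eq_top_iff]
  intro y _
  have h2 : y = (y * (↑u⁻¹ : A)) * u := by rw [mul_assoc, Units.inv_mul, mul_one]
  rw [h2]
  exact J.mul_mem_left _ _ hmem2

end Pool.Agent.H.MP_e11395_an
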