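import Pool.Agent.H.MP_e11395_an.B.SimpleCrit
import Pool.Agent.H.MP_e11395_an.B.Full

/-!
# MP_e11395, part B: the limit is simple
-/

set_option autoImplicit false
set_option linter.style.haveILetI false

open Filter Topology

namespace Pool.Agent.H.MP_e11395_an

variable {d : ℕ → ℕ} {T : TowerData d} {B : Type} [CStarAlgebra B] {C : ConeAlg d B}
  {A : Type} [CStarAlgebra A] {R : ∀ n, T.Bk B n →⋆ₐ[ℂ] A}

theorem limit_nontrivial (lim : T.IsLimit C A R) : Nontrivial A := by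
  refine ⟨⟨1, 0, fun h => ?_⟩⟩
  have h1 : (1 : T.Bk B 0) = 0 := lim.inj 0 (by rw [map_one, map_zero, h])
  have h2 : ((1 : T.Bk B 0).val 0) ⟨0, T.r_pos 0⟩ ⟨0, T.r_pos 0⟩ =
      ((0 : T.Bk B 0).val 0) ⟨0, T.r_pos 0⟩ ⟨0, T.r_pos 0⟩ := by rw [h1]
  rw [TowerData.Bk.val_one, TowerData.Bk.val_zero, ContinuousMap.one_apply,
    ContinuousMap.zero_apply, Mt.one_apply, if_pos rfl, Mt.zero_apply] at h2
  have h3 := congrArg C.ε h2
  rw [map_one, map_zero] at h3
  exact one_ne_zero h3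

theorem limit_simple (hd : ∀ k, 0 < d k) (hs : C.Sep) (lim : T.IsLimit C A R) :
    SimpleCStar A := by
  haveI := limit_nontrivial lim
  exact simple_crit R lim.dense fun n y hy => block_full T C hd hs lim n y hy

end Pool.Agent.H.MP_e11395_an
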