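import Pool.Agent.H.MP_e11395_an.Cone

/-!
# MP_e11395, part B: existence of the tower, the numbers
-/

set_option autoImplicit false

open Filter Topology

namespace Pool.Agent.H.MP_e11395_an

/-- An enumeration of pairs (index, position), in which everything occurs infinitely often.
`n ↔ (((k, (j, l)), r)` by `Nat.unpair`; `sel n = k`, `ξ n = (j + 1) / (j + l + 2)`. -/
theorem exists_enum : ∃ (sel : ℕ → ℕ) (ξ : ℕ → unitInterval), (∀ n, 0 < (ξ n : ℝ)) ∧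
    (∀ n, (ξ n : ℝ) < 1) ∧ ∀ (k : ℕ) (x : unitInterval) (δ : ℝ), 0 < δ → ∀ N, ∃ n, N ≤ n ∧
      sel n = k ∧ |(ξ n : ℝ) - x| < δ := by
  have hmem : ∀ j l : ℕ, ((j : ℝ) + 1) / ((j : ℝ) + l + 2) ∈ unitInterval := by
    intro j l
    have h1 : (0 : ℝ) ≤ j := Nat.cast_nonneg j
    have h2 : (0 : ℝ) ≤ l := Nat.cast_nonneg l
    refine ⟨by positivity, ?_⟩
    rw [div_le_one (by positivity)]
    linarith
  refine ⟨fun n => (Nat.unpair (Nat.unpair n).1).1,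
    fun n => ⟨_, hmem (Nat.unpair (Nat.unpair (Nat.unpair n).1).2).1
      (Nat.unpair (Nat.unpair (Nat.unpair n).1).2).2⟩, ?_, ?_, ?_⟩
  · intro n
    simp only
    positivity
  · intro n
    simp only
    have h1 : (0 : ℝ) ≤ ((Nat.unpair (Nat.unpair (Nat.unpair n).1).2).1 : ℝ) :=
      Nat.cast_nonneg _
    have h2 : (0 : ℝ) ≤ ((Nat.unpair (Nat.unpair (Nat.unpair n).1).2).2 : ℝ) :=
      Nat.cast_nonneg _
    rw [div_lt_one (by positivity)]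
    linarith
  · intro k x δ hδ N
    obtain ⟨L, hL⟩ := exists_nat_gt (2 / δ)
    have hx0 : (0 : ℝ) ≤ x := x.2.1
    have hx1 : (x : ℝ) ≤ 1 := x.2.2
    have hL0 : (0 : ℝ) ≤ L := Nat.cast_nonneg L
    have hxL : (0 : ℝ) ≤ (x : ℝ) * L := by positivity
    have hj : ⌊(x : ℝ) * L⌋₊ ≤ L := by
      apply Nat.floor_le_of_le
      nlinarith
    refine ⟨Nat.pair (Nat.pair k (Nat.pair ⌊(x : ℝ) * L⌋₊ (L - ⌊(x : ℝ) * L⌋₊))) N,
      Nat.right_le_pair _ _, ?_, ?_⟩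
    · simp [Nat.unpair_pair]
    · simp only [Nat.unpair_pair]
      rw [Nat.cast_sub hj]
      have h1 : ((⌊(x : ℝ) * L⌋₊ : ℕ) : ℝ) ≤ (x : ℝ) * L := Nat.floor_le hxL
      have h2 : (x : ℝ) * L < ((⌊(x : ℝ) * L⌋₊ : ℕ) : ℝ) + 1 := Nat.lt_floor_add_one _
      have h3 : ((⌊(x : ℝ) * L⌋₊ : ℕ) : ℝ) + ((L : ℝ) - ((⌊(x : ℝ) * L⌋₊ : ℕ) : ℝ)) + 2
          = (L : ℝ) + 2 := by ring
      rw [h3]
      have hpos : (0 : ℝ) < (L : ℝ) + 2 := by positivity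
      have h4 : 2 < δ * ((L : ℝ) + 2) := by
        rw [div_lt_iff₀ hδ] at hL
        nlinarith
      rw [abs_lt]
      constructor
      · have h5 : (x : ℝ) - δ < ((⌊(x : ℝ) * L⌋₊ : ℕ) + 1 : ℝ) / ((L : ℝ) + 2) := by
          rw [lt_div_iff₀ hpos]
          nlinarith
        linarith
      · rw [sub_lt_iff_lt_add, div_lt_iff₀ hpos]
        nlinarith

/-- One numerical step: given `d`, `p`, `q` positive and `n`, there are exponents `s`, `t` such that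
`k₁ = 3 ^ s`, `k₀ = 2 ^ t` satisfy the inequalities. First choose `s` (powers of `3` are
unbounded), then `t`. -/
theorem exists_step (d p q n : ℕ) (hp : 0 < p) :
    ∃ s t : ℕ, (d * q : ℝ) ≤ (1 / 8 : ℝ) ^ (n + 1) * ((2 ^ t : ℕ) : ℝ) ∧
      (d * p : ℝ) ≤ (1 / 8 : ℝ) ^ (n + 1) * ((3 ^ s : ℕ) : ℝ) ∧ 3 ^ s * q < 2 ^ t * p := by
  have key : ∀ a c : ℕ, a * 8 ^ (n + 1) ≤ c → (a : ℝ) ≤ (1 / 8 : ℝ) ^ (n + 1) * (c : ℝ) := by
    intro a c h
    have h1 : ((a * 8 ^ (n + 1) : ℕ) : ℝ) ≤ (c : ℝ) := Nat.cast_le.2 h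
    push_cast at h1
    have h2 : (1 / 8 : ℝ) ^ (n + 1) * (8 : ℝ) ^ (n + 1) = 1 := by
      rw [← mul_pow]
      norm_num
    have h3 : (0 : ℝ) < (1 / 8 : ℝ) ^ (n + 1) := by positivity
    calc (a : ℝ) = (1 / 8 : ℝ) ^ (n + 1) * ((a : ℝ) * (8 : ℝ) ^ (n + 1)) := by
          rw [mul_comm (a : ℝ), ← mul_assoc, h2, one_mul]
      _ ≤ _ := mul_le_mul_of_nonneg_left h1 h3.le
  have h3 : ∃ s : ℕ, d * p * 8 ^ (n + 1) ≤ 3 ^ s :=
    ⟨d * p * 8 ^ (n + 1), (Nat.lt_pow_self (by norm_num)).le⟩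
  obtain ⟨s, hs⟩ := h3
  have h2 : ∃ t : ℕ, d * q * 8 ^ (n + 1) + 3 ^ s * q < 2 ^ t :=
    ⟨_, Nat.lt_pow_self (by norm_num)⟩
  obtain ⟨t, ht⟩ := h2
  refine ⟨s, t, ?_, ?_, ?_⟩
  · have := key (d * q) (2 ^ t) (by omega)
    rwa [Nat.cast_mul] at this
  · have := key (d * p) (3 ^ s) hs
    rwa [Nat.cast_mul] at this
  · calc 3 ^ s * q < 2 ^ t := by omega
      _ ≤ 2 ^ t * p := Nat.le_mul_of_pos_right _ hp

/-- The numbers of the tower: by recursion on `n` from `exists_step` (state: the exponents of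
`p n = 2 ^ a n` and `q n = 3 ^ b n`). -/
theorem exists_numbers (d sel : ℕ → ℕ) :
    ∃ p q k₀ k₁ m μ₀ μ₁ : ℕ → ℕ, p 0 = 1 ∧ q 0 = 1 ∧ (∀ n, Nat.Coprime (p n) (q n)) ∧
      (∀ n, p (n + 1) = k₀ n * p n) ∧ (∀ n, q (n + 1) = k₁ n * q n) ∧
      (∀ n, q (n + 1) < p (n + 1)) ∧ (∀ n, 0 < p n) ∧ (∀ n, 0 < q n) ∧
      (∀ n, m n + d (sel n) * p (n + 1) = k₀ n * k₁ n) ∧
      (∀ n, μ₀ n + d (sel n) * q n = k₀ n) ∧ (∀ n, μ₁ n + d (sel n) * p n = k₁ n) ∧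
      (∀ n, (d (sel n) * q n : ℝ) ≤ (1 / 8 : ℝ) ^ (n + 1) * k₀ n) ∧
      (∀ n, (d (sel n) * p n : ℝ) ≤ (1 / 8 : ℝ) ^ (n + 1) * k₁ n) := by
  classical
  choose S T h1 h2 h3 using fun (n a b : ℕ) =>
    exists_step (d (sel n)) (2 ^ a) (3 ^ b) n (by positivity)
  let st : ℕ → ℕ × ℕ := fun n => Nat.rec (0, 0)
    (fun n ab => (T n ab.1 ab.2 + ab.1, S n ab.1 ab.2 + ab.2)) n
  have st0 : st 0 = (0, 0) := rfl
  have stS : ∀ n, st (n + 1) = (T n (st n).1 (st n).2 + (st n).1,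
      S n (st n).1 (st n).2 + (st n).2) := fun n => rfl
  have key : ∀ (n a c : ℕ), (a : ℝ) ≤ (1 / 8 : ℝ) ^ (n + 1) * (c : ℝ) → a ≤ c := by
    intro n a c h
    have h4 : (1 / 8 : ℝ) ^ (n + 1) ≤ 1 := pow_le_one₀ (by norm_num) (by norm_num)
    have h5 : (a : ℝ) ≤ (c : ℝ) := by
      have : (1 / 8 : ℝ) ^ (n + 1) * (c : ℝ) ≤ 1 * (c : ℝ) :=
        mul_le_mul_of_nonneg_right h4 (Nat.cast_nonneg c)
      linarith
    exact_mod_cast h5
  have hq : ∀ n, d (sel n) * 3 ^ (st n).2 ≤ 2 ^ (T n (st n).1 (st n).2) := by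
    intro n
    have := h1 n (st n).1 (st n).2
    rw [← Nat.cast_mul] at this
    exact key n _ _ this
  have hp : ∀ n, d (sel n) * 2 ^ (st n).1 ≤ 3 ^ (S n (st n).1 (st n).2) := by
    intro n
    have := h2 n (st n).1 (st n).2
    rw [← Nat.cast_mul] at this
    exact key n _ _ this
  refine ⟨fun n => 2 ^ (st n).1, fun n => 3 ^ (st n).2, fun n => 2 ^ (T n (st n).1 (st n).2),
    fun n => 3 ^ (S n (st n).1 (st n).2),
    fun n => 2 ^ (T n (st n).1 (st n).2) * 3 ^ (S n (st n).1 (st n).2) -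
      d (sel n) * 2 ^ (st (n + 1)).1,
    fun n => 2 ^ (T n (st n).1 (st n).2) - d (sel n) * 3 ^ (st n).2,
    fun n => 3 ^ (S n (st n).1 (st n).2) - d (sel n) * 2 ^ (st n).1,
    ?_, ?_, ?_, ?_, ?_, ?_, ?_, ?_, ?_, ?_, ?_, ?_, ?_⟩
  · simp [st0]
  · simp [st0]
  · intro n
    exact Nat.Coprime.pow _ _ (by norm_num)
  · intro n
    simp only [stS, pow_add]
  · intro n
    simp only [stS, pow_add]
  · intro n
    simp only [stS, pow_add]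
    exact h3 n (st n).1 (st n).2
  · intro n
    positivity
  · intro n
    positivity
  · intro n
    simp only
    apply Nat.sub_add_cancel
    simp only [stS, pow_add]
    calc d (sel n) * (2 ^ (T n (st n).1 (st n).2) * 2 ^ (st n).1)
        = 2 ^ (T n (st n).1 (st n).2) * (d (sel n) * 2 ^ (st n).1) := by ring
      _ ≤ _ := Nat.mul_le_mul_left _ (hp n)
  · intro n
    exact Nat.sub_add_cancel (hq n)
  · intro n
    exact Nat.sub_add_cancel (hp n)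
  · intro n
    exact h1 n (st n).1 (st n).2
  · intro n
    exact h2 n (st n).1 (st n).2

end Pool.Agent.H.MP_e11395_an
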