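import Pool.Agent.H.MP_e11395_an.Cone

/-!
# MP_e11395, part B: existence of the tower, the identifications of the index sets
-/

set_option autoImplicit false
set_option linter.unusedSectionVars false

open Filter Topology

namespace Pool.Agent.H.MP_e11395_an

section

variable {ι X Y : Type} [Fintype ι] [DecidableEq ι] [Fintype X] [DecidableEq X] [Fintype Y]
  [DecidableEq Y] {m a b d μ c : ℕ}

/-- Two nested conditions on the components of a pair. -/
theorem TEb_ite {α β B : Type} [DecidableEq α] [DecidableEq β] [Zero B] (p q : α × β) (x : B) :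
    (if p.2 = q.2 then (if p.1 = q.1 then x else 0) else 0) = if p = q then x else 0 := by
  by_cases h : p = q
  · rw [if_pos h, if_pos (congrArg Prod.snd h), if_pos (congrArg Prod.fst h)]
  · rw [if_neg h]
    split_ifs with h2 h1
    · exact absurd (Prod.ext h1 h2) h
    · rfl
    · rfl

/-- The same for the images under an injection. -/
theorem TEb_ite_equiv {α β γ B : Type} [DecidableEq α] [DecidableEq β] [DecidableEq γ] [Zero B]
    (φ : γ ≃ α × β) (p q : γ) (x : B) :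
    (if (φ p).2 = (φ q).2 then (if (φ p).1 = (φ q).1 then x else 0) else 0) =
      if p = q then x else 0 := by
  rw [TEb_ite]
  by_cases h : p = q
  · rw [if_pos h, if_pos (congrArg φ h)]
  · rw [if_neg h, if_neg fun h' => h (φ.injective h')]

/-- The identification at the left end. `e : ι ≃ X × Y`;
`φ : (Fin m × Y) ⊕ (Fin b × (Fin d × Y)) ≃ Fin μ × Fin a` is arbitrary. -/
def W0 (e : ι ≃ X × Y) (φ : (Fin m × Y) ⊕ (Fin b × (Fin d × Y)) ≃ Fin μ × Fin a) :
    SlotIdx m a b d ι ≃ ((Fin μ × X) ⊕ (Fin d × ι)) × Fin a where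
  toFun
    | Sum.inl (u, i) => (Sum.inl ((φ (Sum.inl (u, (e i).2))).1, (e i).1),
        (φ (Sum.inl (u, (e i).2))).2)
    | Sum.inr (Sum.inl (u, (s, i))) => (Sum.inr (s, i), u)
    | Sum.inr (Sum.inr (u, (s, i))) => (Sum.inl ((φ (Sum.inr (u, (s, (e i).2)))).1, (e i).1),
        (φ (Sum.inr (u, (s, (e i).2)))).2)
  invFun
    | (Sum.inl (v, x), w) => match φ.symm (v, w) with
      | Sum.inl (u, y) => Sum.inl (u, e.symm (x, y))
      | Sum.inr (u, (s, y)) => Sum.inr (Sum.inr (u, (s, e.symm (x, y))))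
    | (Sum.inr (s, i), u) => Sum.inr (Sum.inl (u, (s, i)))
  left_inv := by
    rintro (⟨u, i⟩ | ⟨u, s, i⟩ | ⟨u, s, i⟩) <;> simp
  right_inv := by
    rintro ⟨⟨v, x⟩ | ⟨s, i⟩, w⟩
    · rcases h : φ.symm (v, w) with ⟨u, y⟩ | ⟨u, s, y⟩
      · have h' : φ (Sum.inl (u, y)) = (v, w) := by rw [← h, Equiv.apply_symm_apply]
        simp [h, h']
      · have h' : φ (Sum.inr (u, (s, y))) = (v, w) := by rw [← h, Equiv.apply_symm_apply]
        simp [h, h']
    · rfl

/-- `(g ⊗ 1) ⊗ 1_m ⊕ M ⊗ 1_a ⊕ (g ⊗ 1) ⊗ 1_d ⊗ 1_b = (g ⊗ 1_μ ⊕ M) ⊗ 1_a` up to the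
identification `W0`. Entries: `rcases` both indices; `Mt.amp_apply`, injectivity of `φ`. -/
theorem amp_W0 {B : Type} [CStarAlgebra B] (e : ι ≃ X × Y)
    (φ : (Fin m × Y) ⊕ (Fin b × (Fin d × Y)) ≃ Fin μ × Fin a) (g : Mt X B)
    (M : Mt (Fin d × ι) B) :
    slot m a b (Mt.amp e g) M (dAmp d (Mt.amp e g)) = Mt.amp (W0 e φ) (two μ g M) := by
  ext i j
  rw [Mt.amp_apply]
  rcases i with ⟨u, i⟩ | ⟨u, s, i⟩ | ⟨u, s, i⟩ <;> rcases j with ⟨v, j⟩ | ⟨v, t, j⟩ | ⟨v, t, j⟩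
  · have h := TEb_ite_equiv φ (Sum.inl (u, (e i).2)) (Sum.inl (v, (e j).2)) (g (e i).1 (e j).1)
    refine Eq.trans ?_ h.symm
    show (if u = v then Mt.amp e g i j else 0) = _
    rw [Mt.amp_apply]
    by_cases h1 : u = v <;> by_cases h2 : (e i).2 = (e j).2 <;> simp [h1, h2]
  · show (0 : B) = if _ then 0 else 0
    split_ifs <;> rfl
  · have h := TEb_ite_equiv φ (Sum.inl (u, (e i).2)) (Sum.inr (v, (t, (e j).2)))
      (g (e i).1 (e j).1)
    refine Eq.trans ?_ h.symm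
    rw [if_neg (by simp)]
    rfl
  · show (0 : B) = if _ then 0 else 0
    split_ifs <;> rfl
  · rfl
  · show (0 : B) = if _ then 0 else 0
    split_ifs <;> rfl
  · have h := TEb_ite_equiv φ (Sum.inr (u, (s, (e i).2))) (Sum.inl (v, (e j).2))
      (g (e i).1 (e j).1)
    refine Eq.trans ?_ h.symm
    rw [if_neg (by simp)]
    rfl
  · show (0 : B) = if _ then 0 else 0
    split_ifs <;> rfl
  · have h := TEb_ite_equiv φ (Sum.inr (u, (s, (e i).2))) (Sum.inr (v, (t, (e j).2)))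
      (g (e i).1 (e j).1)
    refine Eq.trans ?_ h.symm
    show (if u = v then (if s = t then Mt.amp e g i j else 0) else 0) = _
    rw [Mt.amp_apply]
    by_cases h1 : u = v <;> by_cases h2 : (e i).2 = (e j).2 <;> by_cases h3 : s = t <;>
      simp [h1, h2, h3]

/-- The identification at the right end. `φ : Fin m × Y ≃ Fin μ × Fin c`,
`ψ : Fin a ⊕ Fin b ≃ Fin c` are arbitrary. -/
def W1 (e : ι ≃ X × Y) (φ : Fin m × Y ≃ Fin μ × Fin c) (ψ : Fin a ⊕ Fin b ≃ Fin c) :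
    SlotIdx m a b d ι ≃ ((Fin μ × X) ⊕ (Fin d × ι)) × Fin c where
  toFun
    | Sum.inl (u, i) => (Sum.inl ((φ (u, (e i).2)).1, (e i).1), (φ (u, (e i).2)).2)
    | Sum.inr (Sum.inl (u, (s, i))) => (Sum.inr (s, i), ψ (Sum.inl u))
    | Sum.inr (Sum.inr (u, (s, i))) => (Sum.inr (s, i), ψ (Sum.inr u))
  invFun
    | (Sum.inl (v, x), w) => Sum.inl ((φ.symm (v, w)).1, e.symm (x, (φ.symm (v, w)).2))
    | (Sum.inr (s, i), w) => match ψ.symm w with
      | Sum.inl u => Sum.inr (Sum.inl (u, (s, i)))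
      | Sum.inr u => Sum.inr (Sum.inr (u, (s, i)))
  left_inv := by
    rintro (⟨u, i⟩ | ⟨u, s, i⟩ | ⟨u, s, i⟩) <;> simp
  right_inv := by
    rintro ⟨⟨v, x⟩ | ⟨s, i⟩, w⟩
    · simp
    · rcases h : ψ.symm w with u | u
      · have h' : ψ (Sum.inl u) = w := by rw [← h, Equiv.apply_symm_apply]
        simp [h, h']
      · have h' : ψ (Sum.inr u) = w := by rw [← h, Equiv.apply_symm_apply]
        simp [h, h']

/-- `(g ⊗ 1) ⊗ 1_m ⊕ M ⊗ 1_a ⊕ M ⊗ 1_b = (g ⊗ 1_μ ⊕ M) ⊗ 1_c` up to the identification `W1`. -/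
theorem amp_W1 {B : Type} [CStarAlgebra B] (e : ι ≃ X × Y) (φ : Fin m × Y ≃ Fin μ × Fin c)
    (ψ : Fin a ⊕ Fin b ≃ Fin c) (g : Mt X B) (M : Mt (Fin d × ι) B) :
    slot m a b (Mt.amp e g) M M = Mt.amp (W1 e φ ψ) (two μ g M) := by
  ext i j
  rw [Mt.amp_apply]
  rcases i with ⟨u, i⟩ | ⟨u, s, i⟩ | ⟨u, s, i⟩ <;> rcases j with ⟨v, j⟩ | ⟨v, t, j⟩ | ⟨v, t, j⟩
  · have h := TEb_ite_equiv φ (u, (e i).2) (v, (e j).2) (g (e i).1 (e j).1)
    refine Eq.trans ?_ h.symm
    show (if u = v then Mt.amp e g i j else 0) = _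
    rw [Mt.amp_apply]
    by_cases h1 : u = v <;> by_cases h2 : (e i).2 = (e j).2 <;> simp [h1, h2]
  · show (0 : B) = if _ then 0 else 0
    split_ifs <;> rfl
  · show (0 : B) = if _ then 0 else 0
    split_ifs <;> rfl
  · show (0 : B) = if _ then 0 else 0
    split_ifs <;> rfl
  · show (if u = v then M (s, i) (t, j) else 0) =
      if ψ (Sum.inl u) = ψ (Sum.inl v) then M (s, i) (t, j) else 0
    simp
  · show (0 : B) = if ψ (Sum.inl u) = ψ (Sum.inr v) then M (s, i) (t, j) else 0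
    simp
  · show (0 : B) = if _ then 0 else 0
    split_ifs <;> rfl
  · show (0 : B) = if ψ (Sum.inr u) = ψ (Sum.inl v) then M (s, i) (t, j) else 0
    simp
  · show (if u = v then M (s, i) (t, j) else 0) =
      if ψ (Sum.inr u) = ψ (Sum.inr v) then M (s, i) (t, j) else 0
    simp

/-- `reindex` and `amp`. -/
theorem reindex_amp {κ κ' σ X' : Type} [Fintype κ] [DecidableEq κ] [Fintype κ'] [DecidableEq κ']
    [Fintype σ] [DecidableEq σ] [Fintype X'] [DecidableEq X'] {B : Type} [CStarAlgebra B]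
    (E : κ ≃ κ') (w : κ ≃ X × σ) (Z : X ≃ X') (N : Mt X B) :
    Mt.reindex E (Mt.amp w N) =
      Mt.amp (E.symm.trans (w.trans (Equiv.prodCongr Z (Equiv.refl σ)))) (Mt.reindex Z N) := by
  ext i j
  rw [Mt.reindex_apply, Mt.amp_apply, Mt.amp_apply, Mt.reindex_apply]
  simp

end

end Pool.Agent.H.MP_e11395_an
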