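import Pool.Agent.H.MP_e11395_an.B.TEa
import Pool.Agent.H.MP_e11395_an.B.TEb

/-!
# MP_e11395, part B: existence of the tower
-/

set_option autoImplicit false

open Filter Topology

namespace Pool.Agent.H.MP_e11395_an

theorem TEc_equiv {X : Type} [Fintype X] {N : ℕ} (h : Fintype.card X = N) : Nonempty (X ≃ Fin N) :=
  ⟨Fintype.equivFinOfCardEq h⟩

theorem TEc_E (m a b d r N : ℕ)
    (h : m * r + (a * (d * r) + b * (d * r)) = N) :
    ∃ E : SlotIdx m a b d (Fin r) ≃ Fin N, ∀ (h : 0 < m) (i : Fin r),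
      (E (Sum.inl (⟨0, h⟩, i))).val = i.val := by
  obtain ⟨e⟩ := TEc_equiv (X := (Fin a × (Fin d × Fin r)) ⊕ (Fin b × (Fin d × Fin r)))
    (N := a * (d * r) + b * (d * r)) (by simp)
  refine ⟨(Equiv.sumCongr finProdFinEquiv e).trans (finSumFinEquiv.trans (finCongr h)), ?_⟩
  intro hm i
  simp [finProdFinEquiv]

theorem TEc_arith {m D P Q S k₀ k₁ μ q : ℕ} (h1 : m + D * P = k₀ * k₁) (h2 : μ + D * q = k₀)
    (h3 : S + Q = P) (h4 : Q = k₁ * q) : m * q + S * (D * q) = μ * Q := by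
  zify at *
  have h5 : (μ : ℤ) = k₀ - D * q := by linarith
  have h6 : (m : ℤ) = k₀ * k₁ - D * P := by linarith
  have h7 : (S : ℤ) = P - Q := by linarith
  rw [h5, h6, h7, h4]
  ring

theorem TEc_arith' {m D P k₀ k₁ μ p : ℕ} (h1 : m + D * P = k₀ * k₁) (h2 : μ + D * p = k₁)
    (h4 : P = k₀ * p) : m * p = μ * P := by
  zify at *
  have h5 : (μ : ℤ) = k₁ - D * p := by linarith
  have h6 : (m : ℤ) = k₀ * k₁ - D * P := by linarith
  rw [h5, h6, h4]
  ring

theorem exists_tower {d : ℕ → ℕ} : Nonempty (TowerData d) := by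
  obtain ⟨sel, ξ, hξ0, hξ1, hrec⟩ := exists_enum
  obtain ⟨p, q, k₀, k₁, m, μ₀, μ₁, hp0, hq0, hcop, hp, hq, hlt, hppos, hqpos, hm, hμ0, hμ1, hs0,
    hs1⟩ := exists_numbers d sel
  have hsub : ∀ n, p (n + 1) - q (n + 1) + q (n + 1) = p (n + 1) := fun n =>
    Nat.sub_add_cancel (hlt n).le
  have hE := fun n => TEc_E (m n) (q (n + 1)) (p (n + 1) - q (n + 1)) (d (sel n)) (p n * q n)
    (p (n + 1) * q (n + 1)) (by
      have h1 : q (n + 1) * (d (sel n) * (p n * q n)) +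
          (p (n + 1) - q (n + 1)) * (d (sel n) * (p n * q n)) =
          p (n + 1) * (d (sel n) * (p n * q n)) := by
        rw [← add_mul, add_comm (q (n + 1)), hsub]
      rw [h1]
      calc m n * (p n * q n) + p (n + 1) * (d (sel n) * (p n * q n))
          = (m n + d (sel n) * p (n + 1)) * (p n * q n) := by ring
        _ = p (n + 1) * q (n + 1) := by rw [hm, hp, hq]; ring)
  choose E hE using hE
  have hZ0 : ∀ n, Nonempty ((Fin (μ₀ n) × Fin (p n)) ⊕ (Fin (d (sel n)) × Fin (p n * q n)) ≃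
      Fin (p (n + 1))) := fun n => TEc_equiv (by
    simp only [Fintype.card_sum, Fintype.card_prod, Fintype.card_fin]
    calc μ₀ n * p n + d (sel n) * (p n * q n) = (μ₀ n + d (sel n) * q n) * p n := by ring
      _ = p (n + 1) := by rw [hμ0, hp])
  have hZ1 : ∀ n, Nonempty ((Fin (μ₁ n) × Fin (q n)) ⊕ (Fin (d (sel n)) × Fin (p n * q n)) ≃
      Fin (q (n + 1))) := fun n => TEc_equiv (by
    simp only [Fintype.card_sum, Fintype.card_prod, Fintype.card_fin]
    calc μ₁ n * q n + d (sel n) * (p n * q n) = (μ₁ n + d (sel n) * p n) * q n := by ring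
      _ = q (n + 1) := by rw [hμ1, hq])
  have hφ0 : ∀ n, Nonempty ((Fin (m n) × Fin (q n)) ⊕
      (Fin (p (n + 1) - q (n + 1)) × (Fin (d (sel n)) × Fin (q n))) ≃
      Fin (μ₀ n) × Fin (q (n + 1))) := fun n => by
    refine ⟨Fintype.equivOfCardEq ?_⟩
    simp only [Fintype.card_sum, Fintype.card_prod, Fintype.card_fin]
    exact TEc_arith (hm n) (hμ0 n) (hsub n) (hq n)
  have hφ1 : ∀ n, Nonempty (Fin (m n) × Fin (p n) ≃ Fin (μ₁ n) × Fin (p (n + 1))) := fun n => by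
    refine ⟨Fintype.equivOfCardEq ?_⟩
    simp only [Fintype.card_prod, Fintype.card_fin]
    exact TEc_arith' (hm n) (hμ1 n) (hp n)
  have hψ : ∀ n, Nonempty (Fin (q (n + 1)) ⊕ Fin (p (n + 1) - q (n + 1)) ≃ Fin (p (n + 1))) :=
    fun n => TEc_equiv (by
      simp only [Fintype.card_sum, Fintype.card_fin]
      rw [add_comm, hsub])
  let Z0 := fun n => (hZ0 n).some
  let Z1 := fun n => (hZ1 n).some
  let φ0 := fun n => (hφ0 n).some
  let φ1 := fun n => (hφ1 n).some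
  let ψ := fun n => (hψ n).some
  let e0 : ∀ n, Fin (p n * q n) ≃ Fin (p n) × Fin (q n) := fun n =>
    Nat.rec (motive := fun n => Fin (p n * q n) ≃ Fin (p n) × Fin (q n)) finProdFinEquiv.symm
      (fun n e => (E n).symm.trans ((W0 e (φ0 n)).trans (Equiv.prodCongr (Z0 n)
        (Equiv.refl _)))) n
  let e1 : ∀ n, Fin (p n * q n) ≃ Fin (q n) × Fin (p n) := fun n =>
    Nat.rec (motive := fun n => Fin (p n * q n) ≃ Fin (q n) × Fin (p n))
      (finProdFinEquiv.symm.trans (Equiv.prodComm _ _))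
      (fun n e => (E n).symm.trans ((W1 e (φ1 n) (ψ n)).trans (Equiv.prodCongr (Z1 n)
        (Equiv.refl _)))) n
  refine ⟨⟨p, q, hp0, hq0, hcop, k₀, k₁, hp, hq, hlt, hqpos, sel, ξ, hξ0, hξ1, m, hm, μ₀, hμ0, μ₁,
    hμ1, hs0, hs1, hrec, e0, e1, E, hE, Z0, Z1, ?_, ?_⟩⟩
  · intro n B _ g M
    rw [amp_W0 (e0 n) (φ0 n), reindex_amp (E n) _ (Z0 n)]
  · intro n B _ g M
    rw [amp_W1 (e1 n) (φ1 n) (ψ n), reindex_amp (E n) _ (Z1 n)]

end Pool.Agent.H.MP_e11395_an
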