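import Pool.Agent.H.MP_e11395_an.B.Limit

/-!
# MP_e11395, part B: vectors of `K` and the matrix coefficients of the representation
-/

set_option autoImplicit false
set_option linter.unusedSectionVars false

open Filter Topology

open scoped InnerProductSpace ENNReal CStarAlgebra

namespace Pool.Agent.H.MP_e11395_an.PB

section vectors

variable {H : Type} [NormedAddCommGroup H] [InnerProductSpace ℂ H] [CompleteSpace H]
  {B' : Type} [CStarAlgebra B'] (π' : B' →⋆ₐ[ℂ] (H →L[ℂ] H))

/-- The vector `v` at the place `i` of `ℕ` and `x` of `I`. -/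
noncomputable def vec (i : ℕ) (x : unitInterval) (v : H) : HN (HI H) :=
  sg i (lp.single 2 x v : HI H)

theorem Vec_single (x y : unitInterval) (v : H) :
    (lp.single 2 x v : HI H) y = if y = x then v else 0 := by
  rw [lp.single_apply]
  split_ifs with h
  · subst h; simp
  · simp [h]

theorem Vec_apply (i j : ℕ) (x y : unitInterval) (v : H) :
    (vec i x v : HN (HI H)) j y = if j = i ∧ y = x then v else 0 := by
  rw [vec, sg_apply]
  by_cases h : j = i
  · rw [if_pos h, Vec_single]
    by_cases h2 : y = x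
    · rw [if_pos h2, if_pos ⟨h, h2⟩]
    · rw [if_neg h2, if_neg fun h3 => h2 h3.2]
  · rw [if_neg h, if_neg fun h3 => h h3.1]
    rfl

theorem Vec_inner (i : ℕ) (x : unitInterval) (v : H) (u : HN (HI H)) :
    inner ℂ (vec i x v) u = inner ℂ v (u i x) := by
  have h1 : inner ℂ (vec i x v) u = inner ℂ (lp.single 2 x v : HI H) (u i) :=
    lp.inner_single_left (𝕜 := ℂ) (G := fun _ : ℕ => HI H) i (lp.single 2 x v : HI H) u
  rw [h1]
  exact lp.inner_single_left (𝕜 := ℂ) (G := fun _ : unitInterval => H) x v (u i)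

/-- Coordinates of `vec`. -/
theorem inner_vec (i j : ℕ) (x y : unitInterval) (v w : H) :
    inner ℂ (vec i x v) (vec j y w) = if i = j ∧ x = y then inner ℂ v w else 0 := by
  rw [Vec_inner, Vec_apply]
  split_ifs
  · rfl
  · exact inner_zero_right v

/-- `⟨vec i x v, mrep (swp f) (vec j y w)⟩ = δ_{xy} ⟨v, π'(f(x)_{ij}) w⟩`. -/
theorem inner_mrep_vec (r : ℕ) (f : C(unitInterval, Mt (Fin r) B')) (i j : Fin r)
    (x y : unitInterval) (v w : H) :
    inner ℂ (vec i.val x v) (mrep (πI π') r (swp r f) (vec j.val y w)) =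
      if x = y then inner ℂ v (π' (f x i j) w) else 0 := by
  rw [Vec_inner, mrep_apply_lt (πI π') r (swp r f) (vec j.val y w) i.2, Finset.sum_eq_single j]
  · rw [πI_apply, Vec_apply]
    by_cases h : x = y
    · rw [if_pos ⟨rfl, h⟩, if_pos h]
      rfl
    · rw [if_neg fun h2 => h h2.2, if_neg h, map_zero, inner_zero_right]
  · intro k _ hk
    have h0 : (vec j.val y w : HN (HI H)) k.val = 0 := by
      rw [vec, sg_apply, if_neg]
      exact fun h => hk (Fin.ext h)
    rw [h0, map_zero]
  · intro h
    exact absurd (Finset.mem_univ j) h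

theorem PN_vec (r : ℕ) (i : Fin r) (x : unitInterval) (v : H) :
    PN (HI H) r (vec i.val x v) = vec i.val x v := by
  refine ext_lp fun k => ?_
  rw [PN_apply]
  by_cases hk : k < r
  · rw [if_pos hk]
  · rw [if_neg hk, vec, sg_apply, if_neg]
    have := i.2
    omega

end vectors

end Pool.Agent.H.MP_e11395_an.PB
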